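import Mathlib

/-!
# Project RC, block RC4: a lower bound for exponential polynomials with integer coefficients

Proof in words. Put `D s j = ∑ i, φ i * (∏ k ∈ s, (ω i - ω k)) * ω i ^ j` for a finite set `s` of indices.
Cauchy's estimate for the derivatives at `0` of `∑ i, φ i * exp (ω i * x)` gives `‖D ∅ j‖ ≤ j! B`. Since
`D (insert k s) j = D s (j + 1) - ω k * D s j`, induction gives `‖D s j‖ ≤ (j + card s)! B (1 + Ω) ^ card s`.
For `s = univ \ {i₀}` one has `D s 0 = φ i₀ * ∏ k ≠ i₀, (ω i₀ - ω k)`, of absolute value at least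
`δ ^ (card κ - 1)`.
-/

namespace Pool.Agent.Helper18.RC

private theorem deriv86 {κ : Type} [Fintype κ] (ω : κ → ℂ) (φ : κ → ℤ) (j : ℕ) :
    iteratedDeriv j (fun x : ℂ => ∑ i, (φ i : ℂ) * Complex.exp (ω i * x)) =
      fun x : ℂ => ∑ i, (φ i : ℂ) * ω i ^ j * Complex.exp (ω i * x) := by
  induction j with
  | zero => simp
  | succ j ih =>
    rw [iteratedDeriv_succ, ih]
    funext x
    have h1 : HasDerivAt (fun x : ℂ => ∑ i, (φ i : ℂ) * ω i ^ j * Complex.exp (ω i * x))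
        (∑ i, (φ i : ℂ) * ω i ^ (j + 1) * Complex.exp (ω i * x)) x := by
      have h2 : ∀ i ∈ (Finset.univ : Finset κ),
          HasDerivAt (fun x : ℂ => (φ i : ℂ) * ω i ^ j * Complex.exp (ω i * x))
            ((φ i : ℂ) * ω i ^ (j + 1) * Complex.exp (ω i * x)) x := by
        intro i _
        have h3 : HasDerivAt (fun x : ℂ => ω i * x) (ω i) x := by
          simpa using (hasDerivAt_id x).const_mul (ω i)
        have h4 := (h3.cexp).const_mul ((φ i : ℂ) * ω i ^ j)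
        have h5 : (φ i : ℂ) * ω i ^ j * (Complex.exp (ω i * x) * ω i) =
            (φ i : ℂ) * ω i ^ (j + 1) * Complex.exp (ω i * x) := by ring
        rw [← h5]
        exact h4
      exact HasDerivAt.fun_sum h2
    exact h1.deriv

private theorem cauchy86 {κ : Type} [Fintype κ] (ω : κ → ℂ) (φ : κ → ℤ) {B : ℝ}
    (hB : ∀ x : ℂ, ‖x‖ ≤ 1 → ‖∑ i, (φ i : ℂ) * Complex.exp (ω i * x)‖ ≤ B) (j : ℕ) :
    ‖∑ i, (φ i : ℂ) * ω i ^ j‖ ≤ j.factorial * B := by
  have h1 : Differentiable ℂ (fun x : ℂ => ∑ i, (φ i : ℂ) * Complex.exp (ω i * x)) := by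
    fun_prop
  have h2 := Complex.norm_iteratedDeriv_le_of_forall_mem_sphere_norm_le (c := (0 : ℂ)) (R := 1)
    (C := B) j one_pos h1.diffContOnCl (by
      intro z hz
      apply hB
      rw [mem_sphere_zero_iff_norm] at hz
      exact hz.le)
  rw [deriv86] at h2
  simpa using h2

private theorem bound86 {κ : Type} [Fintype κ] [DecidableEq κ] (ω : κ → ℂ) (φ : κ → ℤ) {Ω B : ℝ}
    (hΩ0 : 0 ≤ Ω) (hΩ : ∀ i, ‖ω i‖ ≤ Ω) (hB0 : 0 ≤ B)
    (hB : ∀ x : ℂ, ‖x‖ ≤ 1 → ‖∑ i, (φ i : ℂ) * Complex.exp (ω i * x)‖ ≤ B) (s : Finset κ) :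
    ∀ j : ℕ, ‖∑ i, (φ i : ℂ) * (∏ k ∈ s, (ω i - ω k)) * ω i ^ j‖ ≤
      (j + s.card).factorial * B * (1 + Ω) ^ s.card := by
  induction s using Finset.induction_on with
  | empty =>
    intro j
    simpa using cauchy86 ω φ hB j
  | insert a s ha ih =>
    intro j
    have h1 : ∑ i, (φ i : ℂ) * (∏ k ∈ insert a s, (ω i - ω k)) * ω i ^ j =
        (∑ i, (φ i : ℂ) * (∏ k ∈ s, (ω i - ω k)) * ω i ^ (j + 1)) -
          ω a * ∑ i, (φ i : ℂ) * (∏ k ∈ s, (ω i - ω k)) * ω i ^ j := by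
      rw [Finset.mul_sum, ← Finset.sum_sub_distrib]
      apply Finset.sum_congr rfl
      intro i _
      rw [Finset.prod_insert ha]
      ring
    have h2 := ih (j + 1)
    have h3 := ih j
    rw [Finset.card_insert_of_notMem ha, h1]
    have hpos : 0 ≤ B * (1 + Ω) ^ s.card := by positivity
    have h4 : ((j + s.card).factorial : ℝ) ≤ ((j + (s.card + 1)).factorial : ℝ) := by
      exact_mod_cast Nat.factorial_le (by omega)
    have h5 : j + 1 + s.card = j + (s.card + 1) := by ring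
    rw [h5] at h2
    calc ‖(∑ i, (φ i : ℂ) * (∏ k ∈ s, (ω i - ω k)) * ω i ^ (j + 1)) -
          ω a * ∑ i, (φ i : ℂ) * (∏ k ∈ s, (ω i - ω k)) * ω i ^ j‖
        ≤ ‖∑ i, (φ i : ℂ) * (∏ k ∈ s, (ω i - ω k)) * ω i ^ (j + 1)‖ +
          ‖ω a‖ * ‖∑ i, (φ i : ℂ) * (∏ k ∈ s, (ω i - ω k)) * ω i ^ j‖ := by
          rw [← norm_mul]
          exact norm_sub_le _ _
      _ ≤ ((j + (s.card + 1)).factorial : ℝ) * B * (1 + Ω) ^ s.card +
          Ω * (((j + (s.card + 1)).factorial : ℝ) * B * (1 + Ω) ^ s.card) := by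
          apply add_le_add h2
          apply mul_le_mul (hΩ a) _ (norm_nonneg _) hΩ0
          refine h3.trans ?_
          rw [mul_assoc, mul_assoc]
          exact mul_le_mul_of_nonneg_right h4 hpos
      _ = ((j + (s.card + 1)).factorial : ℝ) * B * (1 + Ω) ^ (s.card + 1) := by ring

theorem coeff_bound {κ : Type} [Fintype κ] (ω : κ → ℂ) (φ : κ → ℤ) {Ω δ B : ℝ}
    (hδ : 0 < δ) (hδ1 : δ ≤ 1) (hΩ : ∀ i, ‖ω i‖ ≤ Ω) (hB0 : 0 ≤ B)
    (hsep : ∀ i j, i ≠ j → δ ≤ ‖ω i - ω j‖) {i₀ : κ} (hφ : φ i₀ ≠ 0)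
    (hB : ∀ x : ℂ, ‖x‖ ≤ 1 → ‖∑ i, (φ i : ℂ) * Complex.exp (ω i * x)‖ ≤ B) :
    δ ^ Fintype.card κ ≤
      B * (Fintype.card κ).factorial * (1 + Ω) ^ Fintype.card κ := by
  classical
  have hΩ0 : 0 ≤ Ω := (norm_nonneg _).trans (hΩ i₀)
  have h1 := bound86 ω φ hΩ0 hΩ hB0 hB (Finset.univ.erase i₀) 0
  have h2 : ∑ i, (φ i : ℂ) * (∏ k ∈ Finset.univ.erase i₀, (ω i - ω k)) * ω i ^ 0 =
      (φ i₀ : ℂ) * ∏ k ∈ Finset.univ.erase i₀, (ω i₀ - ω k) := by
    rw [Finset.sum_eq_single i₀]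
    · simp
    · intro i _ hi
      rw [Finset.prod_eq_zero (Finset.mem_erase.2 ⟨hi, Finset.mem_univ i⟩) (sub_self _)]
      simp
    · intro h
      exact absurd (Finset.mem_univ i₀) h
  rw [h2, norm_mul, norm_prod] at h1
  have hcard : (Finset.univ.erase i₀).card ≤ Fintype.card κ := by
    rw [← Finset.card_univ]
    exact Finset.card_le_card (Finset.erase_subset _ _)
  have h3 : δ ^ (Finset.univ.erase i₀).card ≤ ∏ k ∈ Finset.univ.erase i₀, ‖ω i₀ - ω k‖ := by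
    rw [← Finset.prod_const]
    apply Finset.prod_le_prod
    · intro k _
      exact hδ.le
    · intro k hk
      exact hsep i₀ k (Finset.ne_of_mem_erase hk).symm
  have h4 : (1 : ℝ) ≤ ‖(φ i₀ : ℂ)‖ := by
    rw [Complex.norm_intCast]
    exact_mod_cast Int.one_le_abs hφ
  have h5 : δ ^ Fintype.card κ ≤ δ ^ (Finset.univ.erase i₀).card :=
    pow_le_pow_of_le_one hδ.le hδ1 hcard
  have h6 : ∏ k ∈ Finset.univ.erase i₀, ‖ω i₀ - ω k‖ ≤
      ‖(φ i₀ : ℂ)‖ * ∏ k ∈ Finset.univ.erase i₀, ‖ω i₀ - ω k‖ :=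
    le_mul_of_one_le_left (Finset.prod_nonneg fun _ _ => norm_nonneg _) h4
  refine (h5.trans (h3.trans (h6.trans h1))).trans ?_
  have h7 : ((0 + (Finset.univ.erase i₀).card).factorial : ℝ) ≤ ((Fintype.card κ).factorial : ℝ) := by
    exact_mod_cast Nat.factorial_le (by omega)
  have h8 : (1 + Ω) ^ (Finset.univ.erase i₀).card ≤ (1 + Ω) ^ Fintype.card κ :=
    pow_le_pow_right₀ (by linarith) hcard
  calc ((0 + (Finset.univ.erase i₀).card).factorial : ℝ) * B * (1 + Ω) ^ (Finset.univ.erase i₀).card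
      ≤ ((Fintype.card κ).factorial : ℝ) * B * (1 + Ω) ^ Fintype.card κ := by
        apply mul_le_mul (mul_le_mul_of_nonneg_right h7 hB0) h8 (by positivity) (by positivity)
    _ = B * (Fintype.card κ).factorial * (1 + Ω) ^ Fintype.card κ := by ring

end Pool.Agent.Helper18.RC
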