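import Pool.Agent.Helper18.RC.Defs

/-!
# Project RC: counting dependent tuples

If in every set `T i` at most `B` elements `s` have `y i s` algebraic over a field generated by `N`
numbers, then among the tuples `s ∈ ∏ T i` (`n ≤ N` coordinates) at most `n Q ^ (n - 1) B` have
`w₀, y 0 (s 0), ..., y (n-1) (s (n-1))` algebraically dependent; here `card (T i) ≤ Q`, `w₀` transcendental.
-/

namespace Pool.Agent.Helper18.RC

theorem AlgOver.mono {ι κ : Type*} {w : ι → ℂ} {w' : κ → ℂ} {z : ℂ} (h : AlgOver w z)
    (hr : Set.range w ⊆ Set.range w') : AlgOver w' z := by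
  unfold AlgOver at *
  have hle : IntermediateField.adjoin ℚ (Set.range w) ≤ IntermediateField.adjoin ℚ (Set.range w') :=
    IntermediateField.adjoin.mono ℚ _ _ hr
  obtain ⟨p, hp, hz⟩ := h
  refine ⟨p.map (IntermediateField.inclusion hle).toRingHom, ?_, ?_⟩
  · rw [Ne, Polynomial.map_eq_zero]
    exact hp
  · rw [Polynomial.aeval_def, Polynomial.eval₂_map]
    rw [Polynomial.aeval_def] at hz
    exact hz

theorem algInd_snoc {n : ℕ} (x : Fin n → ℂ) (a : ℂ) (hx : AlgebraicIndependent ℚ x)
    (ha : ¬ AlgOver x a) : AlgebraicIndependent ℚ (Fin.snoc x a : Fin (n + 1) → ℂ) := by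
  have h1 : Transcendental (Algebra.adjoin ℚ (Set.range x)) a := by
    intro h
    apply ha
    obtain ⟨p, hp, hz⟩ := h
    have hle : Algebra.adjoin ℚ (Set.range x) ≤
        (IntermediateField.adjoin ℚ (Set.range x)).toSubalgebra :=
      IntermediateField.algebra_adjoin_le_adjoin ℚ _
    refine ⟨p.map (Subalgebra.inclusion hle).toRingHom, ?_, ?_⟩
    · rw [Ne, Polynomial.map_eq_zero_iff (Subalgebra.inclusion_injective hle)]
      exact hp
    · rw [Polynomial.aeval_def, Polynomial.eval₂_map]
      rw [Polynomial.aeval_def] at hz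
      exact hz
  have h2 := (hx.option_iff_transcendental a).2 h1
  have h3 := h2.comp (finSuccEquivLast (n := n)) (Equiv.injective _)
  convert h3 using 1
  funext i
  refine Fin.lastCases ?_ (fun j => ?_) i
  · simp
  · simp

open scoped Classical in
theorem count_bad {ι : Type*} (w₀ : ℂ) (h0 : Transcendental ℚ w₀) (N : ℕ) (B Q : ℝ)
    (hB0 : 0 ≤ B) (hQ0 : 0 ≤ Q) :
    ∀ n ≤ N, ∀ (T : Fin n → Finset ι) (y : Fin n → ι → ℂ),
      (∀ i (w : Fin N → ℂ), (((T i).filter (fun s => AlgOver w (y i s))).card : ℝ) ≤ B) →
      (∀ i, ((T i).card : ℝ) ≤ Q) →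
      (((Fintype.piFinset T).filter (fun s => ¬ AlgebraicIndependent ℚ
        (Fin.cons w₀ (fun i => y i (s i)) : Fin (n + 1) → ℂ))).card : ℝ) ≤ n * Q ^ (n - 1) * B := by
  intro n
  induction n with
  | zero =>
    intro _ T y _ _
    have : ((Fintype.piFinset T).filter (fun s => ¬ AlgebraicIndependent ℚ
        (Fin.cons w₀ (fun i => y i (s i)) : Fin (0 + 1) → ℂ))) = ∅ := by
      rw [Finset.filter_eq_empty_iff]
      intro s _
      rw [not_not]
      have h1 : (Fin.cons w₀ (fun i => y i (s i)) : Fin (0 + 1) → ℂ) = ![w₀] := by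
        funext i
        refine Fin.cases ?_ (fun j => j.elim0) i
        rfl
      rw [h1]
      exact (algebraicIndependent_iff_transcendental).2 h0
    rw [this]
    simp
  | succ n ih =>
    intro hn T y hB hT
    have ih' := ih (by omega) (fun i => T i.castSucc) (fun i => y i.castSucc)
      (fun i w => hB i.castSucc w) (fun i => hT i.castSucc)
    set P := Fintype.piFinset (fun i : Fin n => T i.castSucc) with hP
    set bad := (Fintype.piFinset T).filter (fun s => ¬ AlgebraicIndependent ℚ
        (Fin.cons w₀ (fun i => y i (s i)) : Fin (n + 1 + 1) → ℂ)) with hbad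
    set bad' := P.filter (fun s => ¬ AlgebraicIndependent ℚ
        (Fin.cons w₀ (fun i => y i.castSucc (s i)) : Fin (n + 1) → ℂ)) with hbad'
    have hmaps : ∀ s ∈ bad, (fun i : Fin n => s i.castSucc) ∈ P := by
      intro s hs
      rw [hbad, Finset.mem_filter, Fintype.mem_piFinset] at hs
      rw [hP, Fintype.mem_piFinset]
      exact fun i => hs.1 i.castSucc
    have h1 := Finset.card_eq_sum_card_fiberwise (f := fun s : Fin (n + 1) → ι =>
      (fun i : Fin n => s i.castSucc)) (s := bad) (t := P) (fun s hs => hmaps s hs)
    have hinj : ∀ s' : Fin n → ι, Set.InjOn (fun s : Fin (n + 1) → ι => s (Fin.last n))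
        {s | (fun i : Fin n => s i.castSucc) = s'} := by
      intro s' a ha b hb hab
      funext i
      refine Fin.lastCases hab (fun j => ?_) i
      have h2 := congrFun ha j
      have h3 := congrFun hb j
      exact h2.trans h3.symm
    have hfib1 : ∀ s' ∈ P, ((bad.filter (fun s => (fun i : Fin n => s i.castSucc) = s')).card : ℝ)
        ≤ Q := by
      intro s' _
      refine le_trans ?_ (hT (Fin.last n))
      exact_mod_cast Finset.card_le_card_of_injOn (fun s : Fin (n + 1) → ι => s (Fin.last n))
        (by
          intro s hs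
          simp only [Finset.coe_filter, Set.mem_ofPred_eq, hbad, Finset.mem_filter,
            Fintype.mem_piFinset] at hs
          exact hs.1.1 _)
        (fun a ha b hb hab => hinj s' (by simpa using (Finset.mem_filter.1 ha).2)
          (by simpa using (Finset.mem_filter.1 hb).2) hab)
    have hfib2 : ∀ s' ∈ P, s' ∉ bad' →
        ((bad.filter (fun s => (fun i : Fin n => s i.castSucc) = s')).card : ℝ) ≤ B := by
      intro s' hs' hgood
      have hind : AlgebraicIndependent ℚ
        (Fin.cons w₀ (fun i => y i.castSucc (s' i)) : Fin (n + 1) → ℂ) := by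
        by_contra hcon
        exact hgood (Finset.mem_filter.2 ⟨hs', hcon⟩)
      set x : Fin (n + 1) → ℂ := Fin.cons w₀ (fun i => y i.castSucc (s' i)) with hx
      set w : Fin N → ℂ := fun j => if h : (j : ℕ) < n + 1 then x ⟨j, h⟩ else 0 with hw
      have hrange : Set.range x ⊆ Set.range w := by
        rintro _ ⟨j, rfl⟩
        refine ⟨⟨j, lt_of_lt_of_le j.2 hn⟩, ?_⟩
        rw [hw]
        exact dif_pos j.2
      refine le_trans ?_ (hB (Fin.last n) w)
      exact_mod_cast Finset.card_le_card_of_injOn (fun s : Fin (n + 1) → ι => s (Fin.last n))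
        (by
          intro s hs
          have hs1 := (Finset.mem_filter.1 hs).1
          have hs2 : (fun i : Fin n => s i.castSucc) = s' := (Finset.mem_filter.1 hs).2
          rw [hbad, Finset.mem_filter, Fintype.mem_piFinset] at hs1
          refine Finset.mem_coe.2 (Finset.mem_filter.2 ⟨hs1.1 _, ?_⟩)
          by_contra hcon
          apply hs1.2
          have h5 := algInd_snoc x (y (Fin.last n) (s (Fin.last n))) hind
            (fun h => hcon (h.mono hrange))
          convert h5 using 1
          rw [hx, ← Fin.cons_snoc_eq_snoc_cons]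
          congr 1
          funext i
          refine Fin.lastCases ?_ (fun j => ?_) i
          · simp
          · simp only [Fin.snoc_castSucc]
            rw [← hs2])
        (fun a ha b hb hab => hinj s' (by simpa using (Finset.mem_filter.1 ha).2)
          (by simpa using (Finset.mem_filter.1 hb).2) hab)
    have hPcard : (P.card : ℝ) ≤ Q ^ n := by
      rw [hP, Fintype.card_piFinset]
      push_cast
      calc ∏ i : Fin n, ((T i.castSucc).card : ℝ) ≤ ∏ _i : Fin n, Q :=
            Finset.prod_le_prod (fun i _ => Nat.cast_nonneg _) (fun i _ => hT i.castSucc)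
        _ = Q ^ n := by simp
    have h2 : (bad.card : ℝ) ≤ bad'.card * Q + P.card * B := by
      rw [h1]
      push_cast
      calc ∑ s' ∈ P, ((bad.filter (fun s => (fun i : Fin n => s i.castSucc) = s')).card : ℝ)
          ≤ ∑ s' ∈ P, ((if s' ∈ bad' then Q else 0) + B) := by
            refine Finset.sum_le_sum fun s' hs' => ?_
            by_cases h : s' ∈ bad'
            · rw [if_pos h]
              linarith [hfib1 s' hs']
            · rw [if_neg h, zero_add]
              exact hfib2 s' hs' h
        _ = bad'.card * Q + P.card * B := by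
            have hf : P.filter (fun s => s ∈ bad') = bad' := by
              ext s
              simp only [Finset.mem_filter, hbad']
              tauto
            rw [Finset.sum_add_distrib, Finset.sum_const, nsmul_eq_mul, ← Finset.sum_filter,
              Finset.sum_const, nsmul_eq_mul, hf]
    have h3 : (bad'.card : ℝ) * Q ≤ n * Q ^ n * B := by
      rcases Nat.eq_zero_or_pos n with h | h
      · subst h
        have : (bad'.card : ℝ) ≤ 0 := by simpa using ih'
        have h4 : (bad'.card : ℝ) = 0 := le_antisymm this (Nat.cast_nonneg _)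
        rw [h4]
        simp
      · calc (bad'.card : ℝ) * Q ≤ (n * Q ^ (n - 1) * B) * Q :=
              mul_le_mul_of_nonneg_right ih' hQ0
          _ = n * Q ^ (n - 1 + 1) * B := by ring
          _ = n * Q ^ n * B := by
              congr 2
              congr 1
              omega
    have h4 : (P.card : ℝ) * B ≤ Q ^ n * B := mul_le_mul_of_nonneg_right hPcard hB0
    have h5 : n + 1 - 1 = n := by omega
    rw [h5]
    push_cast
    linarith

end Pool.Agent.Helper18.RC
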