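import Mathlib

/-!
# Project RC (MP_23715a_nt): definitions

`L1 P` is the sum of the absolute values of the coefficients of an integer polynomial `P`.
`AlgOver w z` means: `z` is algebraic over the field generated by the numbers `w i`.
-/

open MvPolynomial

namespace Pool.Agent.Helper18.RC

/-- The sum of the absolute values of the coefficients. -/
noncomputable def L1 {σ : Type*} (P : MvPolynomial σ ℤ) : ℝ :=
  ∑ m ∈ P.support, |((MvPolynomial.coeff m P : ℤ) : ℝ)|

/-- `z` is algebraic over `ℚ(w)`. -/
def AlgOver {ι : Type*} (w : ι → ℂ) (z : ℂ) : Prop :=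
  IsAlgebraic (IntermediateField.adjoin ℚ (Set.range w)) z

end Pool.Agent.Helper18.RC
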