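import Mathlib

/-!
# Project RC, block RC5: sets of squarefree numbers without product rectangles are sparse

Proof in words. Given `m` and `ε`, choose `Y` with `(m + 1) / Y < ε / 4`, then a finite set `A` of primes `> Y`
with `∏_(p ∈ A) (1 - 1 / p) < ε / 4` (`Nat.Primes.not_summable_one_div`). Elements of `S` prime to
`Q = ∏ A`: at most `φ(Q) (X / Q + 1)` (`Nat.Ico_filter_coprime_le`). Any other `D ∈ S` is `p c` with `p ∈ A`,
`c ≤ X / Y`. For `c` let `d(c) = # {p ∈ A : p c ∈ S}`. By the rectangle hypothesis, for every set `P` of `m`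
primes of `A` there are fewer than `m` numbers `c` with `p c ∈ S` for all `p ∈ P`; so
`d(c) ≥ m` for at most `m 2 ^ (card A)` numbers `c`, and
`∑ d(c) ≤ m (X / Y + 1) + card A * m * 2 ^ (card A)`.
-/

namespace Pool.Agent.Helper18.RC

open Finset

/-- Finite sets of large primes with a small Euler product. -/
theorem d_primes (Y : ℕ) (δ : ℝ) (hδ : 0 < δ) : ∃ A : Finset ℕ, (∀ p ∈ A, p.Prime ∧ Y < p) ∧
    ∏ p ∈ A, (1 - 1 / (p : ℝ)) < δ := by
  classical
  set f : ℕ → ℝ := ({p | Nat.Prime p} : Set ℕ).indicator fun n => 1 / (n : ℝ) with hf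
  have hf0 : ∀ n, 0 ≤ f n := fun n => Set.indicator_nonneg (fun _ _ => by positivity) n
  have ht := (not_summable_iff_tendsto_nat_atTop_of_nonneg hf0).1 not_summable_one_div_on_primes
  obtain ⟨N, hN⟩ := (ht.eventually_gt_atTop (-Real.log δ + ∑ i ∈ range (Y + 1), f i)).exists
  refine ⟨(range N).filter (fun p => p.Prime ∧ Y < p), fun p hp => (mem_filter.1 hp).2, ?_⟩
  set A := (range N).filter (fun p => p.Prime ∧ Y < p) with hA
  have h1 : ∑ i ∈ range N, f i ≤ ∑ i ∈ range (Y + 1), f i + ∑ p ∈ A, 1 / (p : ℝ) := by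
    have : ∑ p ∈ A, 1 / (p : ℝ) = ∑ p ∈ A, f p := sum_congr rfl (fun p hp => by
      have := ((mem_filter.1 hp).2).1
      simp [hf, this])
    rw [this]
    have e : ∑ i ∈ range N, f i = ∑ i ∈ (range N).filter (fun p => p.Prime), f i := by
      rw [sum_filter]; refine sum_congr rfl fun i _ => ?_
      by_cases h : i.Prime <;> simp [hf, h]
    rw [e]
    have sub : (range N).filter (fun p => p.Prime) ⊆ range (Y + 1) ∪ A := by
      intro p hp
      simp only [mem_filter, mem_range, mem_union, hA] at hp ⊢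
      by_cases h : Y < p
      · right; exact ⟨hp.1, hp.2, h⟩
      · left; omega
    calc _ ≤ ∑ i ∈ range (Y + 1) ∪ A, f i :=
          sum_le_sum_of_subset_of_nonneg sub (fun _ _ _ => hf0 _)
      _ ≤ _ := by
        rw [← sum_union_inter]
        have : 0 ≤ ∑ i ∈ range (Y + 1) ∩ A, f i := sum_nonneg fun _ _ => hf0 _
        linarith
  have h2 : ∏ p ∈ A, (1 - 1 / (p : ℝ)) ≤ ∏ p ∈ A, Real.exp (-(1 / (p : ℝ))) := by
    refine prod_le_prod (fun p hp => ?_) (fun p hp => ?_)
    · have := ((mem_filter.1 hp).2).1.one_lt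
      have : (1 : ℝ) ≤ p := by exact_mod_cast this.le
      rw [sub_nonneg, div_le_one (by linarith)]; exact this
    · have := Real.add_one_le_exp (-(1 / (p : ℝ)))
      linarith
  rw [← Real.exp_sum, sum_neg_distrib] at h2
  refine lt_of_le_of_lt h2 ?_
  rw [← Real.lt_log_iff_exp_lt hδ]
  linarith

/-- A finite set of primes and a set without rectangles: few numbers with many partners. -/
theorem d_bad (m : ℕ) (A S I : Finset ℕ) (hA : ∀ p ∈ A, p.Prime)
    (hR : ∀ p c : Fin m → ℕ, Function.Injective p → Function.Injective c → (∀ i, (p i).Prime) →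
      (∀ i j, p i * c j ∈ S) → False) :
    (I.filter fun c => m ≤ (A.filter fun p => p * c ∈ S).card).card ≤ m * 2 ^ A.card := by
  classical
  have key : ∀ P ∈ A.powersetCard m, (I.filter fun c => ∀ p ∈ P, p * c ∈ S).card ≤ m := by
    intro P hP
    obtain ⟨hPA, hPc⟩ := mem_powersetCard.1 hP
    by_contra hcon
    push Not at hcon
    obtain ⟨C, hC, hCc⟩ := exists_subset_card_eq hcon.le
    refine hR (P.orderEmbOfFin hPc) (C.orderEmbOfFin hCc) (P.orderEmbOfFin hPc).injective
      (C.orderEmbOfFin hCc).injective (fun i => hA _ (hPA (P.orderEmbOfFin_mem hPc i))) ?_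
    intro i j
    have := (mem_filter.1 (hC (C.orderEmbOfFin_mem hCc j))).2
    exact this _ (P.orderEmbOfFin_mem hPc i)
  calc (I.filter fun c => m ≤ (A.filter fun p => p * c ∈ S).card).card
      ≤ ((A.powersetCard m).biUnion fun P => I.filter fun c => ∀ p ∈ P, p * c ∈ S).card := by
        refine card_le_card fun c hc => ?_
        obtain ⟨hcI, hc2⟩ := mem_filter.1 hc
        obtain ⟨P, hP, hPc⟩ := exists_subset_card_eq hc2
        refine mem_biUnion.2 ⟨P, mem_powersetCard.2 ⟨hP.trans (filter_subset _ _), hPc⟩,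
          mem_filter.2 ⟨hcI, fun p hp => (mem_filter.1 (hP hp)).2⟩⟩
    _ ≤ ∑ P ∈ A.powersetCard m, (I.filter fun c => ∀ p ∈ P, p * c ∈ S).card := card_biUnion_le
    _ ≤ ∑ _P ∈ A.powersetCard m, m := sum_le_sum key
    _ = (A.powersetCard m).card * m := by rw [sum_const, smul_eq_mul]
    _ ≤ 2 ^ A.card * m := by
        refine Nat.mul_le_mul_right _ ?_
        rw [← card_powerset]
        exact card_le_card fun P hP => mem_powerset.2 (mem_powersetCard.1 hP).1
    _ = _ := mul_comm _ _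

theorem density (m : ℕ) (ε : ℝ) (hε : 0 < ε) : ∃ X₀ : ℕ, ∀ X ≥ X₀, ∀ S : Finset ℕ,
    (∀ D ∈ S, 1 ≤ D ∧ D ≤ X) →
    (∀ p c : Fin m → ℕ, Function.Injective p → Function.Injective c → (∀ i, (p i).Prime) →
      (∀ i j, p i * c j ∈ S) → False) →
    (S.card : ℝ) ≤ ε * X := by
  classical
  obtain ⟨Y, hY⟩ := exists_nat_gt (4 * m / ε)
  obtain ⟨A, hA, hAp⟩ := d_primes (Y + 1) (ε / 4) (by positivity)
  set Q := ∏ p ∈ A, p with hQ
  have hQ0 : Q ≠ 0 := prod_ne_zero_iff.2 fun p hp => (hA p hp).1.ne_zero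
  have hQA : Q.primeFactors = A := Nat.primeFactors_prod fun p hp => (hA p hp).1
  have hQR : (0 : ℝ) < Q := by exact_mod_cast Nat.pos_of_ne_zero hQ0
  have hphi : (Q.totient : ℝ) ≤ Q * (ε / 4) := by
    have h := Nat.totient_eq_mul_prod_factors Q
    rw [hQA] at h
    have h' : (Q.totient : ℝ) = Q * ∏ p ∈ A, (1 - 1 / (p : ℝ)) := by
      have := congrArg (fun x : ℚ => (x : ℝ)) h
      push_cast at this
      simpa [one_div] using this
    rw [h']
    exact mul_le_mul_of_nonneg_left hAp.le hQR.le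
  set K : ℕ := A.card * (m * 2 ^ A.card) with hK
  obtain ⟨X₀, hX₀⟩ := exists_nat_gt (2 * ((Q : ℝ) + K) / ε)
  refine ⟨X₀, fun X hX S hS hR => ?_⟩
  have hXR : 2 * ((Q : ℝ) + K) ≤ ε * X := by
    have h1 : (X₀ : ℝ) ≤ X := by exact_mod_cast hX
    have h2 : 2 * ((Q : ℝ) + K) / ε ≤ X := by linarith
    rw [div_le_iff₀ hε] at h2
    linarith
  have h1 : (S.filter fun D => Q.Coprime D).card ≤ Q.totient * (X / Q + 1) := by
    refine le_trans (card_le_card ?_) (Nat.Ico_filter_coprime_le 1 X hQ0)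
    intro D hD
    obtain ⟨hDS, hc⟩ := mem_filter.1 hD
    have := hS D hDS
    exact mem_filter.2 ⟨mem_Ico.2 ⟨this.1, by omega⟩, hc⟩
  set I := Icc 1 (X / (Y + 1)) with hI
  have h2 : (S.filter fun D => ¬ Q.Coprime D).card ≤
      ∑ c ∈ I, (A.filter fun p => p * c ∈ S).card := by
    refine le_trans (card_le_card (t := I.biUnion fun c =>
      (A.filter fun p => p * c ∈ S).image (fun p => p * c)) ?_)
      (le_trans card_biUnion_le (sum_le_sum fun c _ => card_image_le))
    intro D hD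
    obtain ⟨hDS, hnc⟩ := mem_filter.1 hD
    obtain ⟨p, hp, hpQ, hpD⟩ := Nat.Prime.not_coprime_iff_dvd.1 hnc
    have hpA : p ∈ A := by rw [← hQA]; exact Nat.mem_primeFactors.2 ⟨hp, hpQ, hQ0⟩
    obtain ⟨c, rfl⟩ := hpD
    have hD' := hS _ hDS
    refine mem_biUnion.2 ⟨c, mem_Icc.2 ⟨?_, ?_⟩, mem_image.2 ⟨p, mem_filter.2 ⟨hpA, hDS⟩, rfl⟩⟩
    · rcases Nat.eq_zero_or_pos c with h | h
      · subst h; simp at hD'
      · exact h
    · rw [Nat.le_div_iff_mul_le (by omega)]
      have := (hA p hpA).2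
      calc c * (Y + 1) ≤ c * p := Nat.mul_le_mul_left _ (by omega)
        _ = p * c := mul_comm _ _
        _ ≤ X := hD'.2
  have h3 : ∑ c ∈ I, (A.filter fun p => p * c ∈ S).card ≤ m * (X / (Y + 1)) + K := by
    have hb := d_bad m A S I (fun p hp => (hA p hp).1) hR
    set B := I.filter fun c => m ≤ (A.filter fun p => p * c ∈ S).card with hB
    calc ∑ c ∈ I, (A.filter fun p => p * c ∈ S).card
        ≤ ∑ c ∈ I, (m + if m ≤ (A.filter fun p => p * c ∈ S).card then A.card else 0) := by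
          refine sum_le_sum fun c _ => ?_
          split_ifs with h
          · exact le_trans (card_le_card (filter_subset _ _)) (Nat.le_add_left _ _)
          · omega
      _ = m * (X / (Y + 1)) + B.card * A.card := by
          rw [sum_add_distrib, sum_const, ← sum_filter, sum_const, smul_eq_mul, smul_eq_mul, hI]
          simp only [Nat.card_Icc, Nat.add_sub_cancel]
          rw [mul_comm m]
      _ ≤ m * (X / (Y + 1)) + K := by
          refine Nat.add_le_add_left ?_ _
          rw [hK, mul_comm A.card]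
          exact Nat.mul_le_mul_right _ hb
  have hsplit : (S.filter fun D => Q.Coprime D).card + (S.filter fun D => ¬ Q.Coprime D).card
      = S.card := card_filter_add_card_filter_not _
  have hcard : S.card ≤ Q.totient * (X / Q + 1) + (m * (X / (Y + 1)) + K) := by omega
  have hcardR : (S.card : ℝ) ≤ Q.totient * ((X : ℝ) / Q + 1) + (m * ((X : ℝ) / (Y + 1)) + K) := by
    calc (S.card : ℝ) ≤ ((Q.totient * (X / Q + 1) + (m * (X / (Y + 1)) + K) : ℕ) : ℝ) := by
          exact_mod_cast hcard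
      _ = Q.totient * (((X / Q : ℕ) : ℝ) + 1) + (m * ((X / (Y + 1) : ℕ) : ℝ) + K) := by
          push_cast; ring
      _ ≤ _ := by
          have e1 : ((X / Q : ℕ) : ℝ) ≤ (X : ℝ) / Q := Nat.cast_div_le
          have e2 : ((X / (Y + 1) : ℕ) : ℝ) ≤ (X : ℝ) / (Y + 1) := by
            have := @Nat.cast_div_le ℝ _ _ _ X (Y + 1)
            simpa using this
          gcongr
  have hX0 : (0 : ℝ) ≤ X := Nat.cast_nonneg _
  have t1 : (Q.totient : ℝ) * ((X : ℝ) / Q) ≤ ε / 4 * X := by
    rw [← mul_div_assoc, div_le_iff₀ hQR]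
    nlinarith
  have t2 : (Q.totient : ℝ) ≤ Q := by exact_mod_cast Nat.totient_le Q
  have t3 : (m : ℝ) * ((X : ℝ) / (Y + 1)) ≤ ε / 4 * X := by
    have hY1 : (0 : ℝ) < (Y : ℝ) + 1 := by positivity
    rw [← mul_div_assoc, div_le_iff₀ hY1]
    rw [div_lt_iff₀ hε] at hY
    have : (m : ℝ) ≤ ε / 4 * (Y + 1) := by nlinarith
    nlinarith
  nlinarith

end Pool.Agent.Helper18.RC
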