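import Pool.Agent.Helper18.RC.InterpA
import Pool.Agent.Helper18.RC.Coeff

/-!
# Project RC: interpolation inequality (`InterpA.lean`) and coefficient bound (`Coeff.lean`)

Proof in words. Let `L x = ∑ k, f (z k) ∏_(l ≠ k) (x - z l) / (z k - z l)` (`Lagrange.interpolate`). Then
`f - L` is entire and vanishes at the distinct points `z k`, so `f - L = (∏ k, (x - z k)) g` with `g`
entire (induction, `dslope`, `Complex.differentiableOn_dslope`). On `‖x‖ = 7 r`: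
`‖∏ (x - z k)‖ ≥ (6 r) ^ q`, `‖L x‖ ≤ q B (8 r / δ) ^ (q - 1)`. The maximum principle gives
`‖g x‖ ≤ (MR + q B (8 r / δ) ^ (q - 1)) / (6 r) ^ q` for `‖x‖ ≤ 7 r`; for `‖x‖ ≤ r` one has
`‖∏ (x - z k)‖ ≤ (2 r) ^ q` and `‖L x‖ ≤ q B (2 r / δ) ^ (q - 1)`. Use `δ ≤ r`.

Second part (coefficients): let `ℓ(w) = ∏_(i ≠ i₀) (w - ω i) = ∑_j ℓ_j w ^ j`, `n = card κ`. For
`f x = ∑ φ i exp (ω i x)`: `∑_j ℓ_j f^(j)(0) = ∑_i φ i ℓ(ω i) = φ i₀ ℓ(ω i₀)`; Cauchy's estimate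
`‖f^(j)(0)‖ ≤ j! B`; `∑_j |ℓ_j| ≤ (1 + Ω) ^ (n - 1)`; `|φ i₀| ≥ 1`; `|ℓ(ω i₀)| ≥ δ ^ (n - 1)`.
-/
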