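import Pool.Agent.Helper18.RC.Rank
import Pool.Agent.Helper18.RC.Interp

/-!
# Project RC, block RC7: the theorem of Hermite and Lindemann

Any proof is fine. One with the tools of the project: suppose `θ ≠ 0` and `α = exp θ` are algebraic,
`y = (θ, α)`, `C` the constants of `siegel` (`t = 0`) and `liouville` for `y`. Let `ν` be a large integer
(the number of points `0, θ, ..., (ν - 1) θ`), `T = s ^ 2` large, `L₁ = s`, `L₀ = C' s` with
`L₀ L₁ ≥ C ν T`; `F(z) = ∑_(a < L₀, b < L₁) φ_(a,b) z ^ a exp (b z)` with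
`F^(τ)(k θ) = 0` for `τ < T`, `k < ν` by `siegel`: the values are polynomials in `y` of degree `≤ L₀ + ν L₁` and
`L1 ≤ (L₀ ν)^(L₀) (L₀ + L₁) ^ T`, so `log |φ| ≤ T log T` or so. `F ≠ 0`; let `τ₀ ≥ T` be the least order of
vanishing of `F` at the points `k θ`, and `ξ = F^(τ₀)(k θ) ≠ 0`. `liouville`:
`log |ξ| ≥ - C' τ₀ log τ₀` with `C'` independent of `ν`. Cauchy on `|z| = R = τ₀ ^ (1/2)` for
`F / ∏ (z - k θ) ^ τ₀`: `log |ξ| ≤ C'' τ₀ log τ₀ - (ν / 2) τ₀ log τ₀ + O(τ₀)` with `C''` independent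
of `ν`. Contradiction for `ν` large.
-/

open MvPolynomial

namespace Pool.Agent.Helper18.RC


private theorem div1_27 (n : ℕ) : ∀ (F : ℂ → ℂ), Differentiable ℂ F → ∀ w : ℂ,
    (n : ℕ∞) ≤ analyticOrderAt F w →
    ∃ G : ℂ → ℂ, Differentiable ℂ G ∧ ∀ z, F z = (z - w) ^ n * G z := by
  induction n with
  | zero => exact fun F hF w _ => ⟨F, hF, fun z => by simp⟩
  | succ n ih =>
    intro F hF w hn
    have hFw : F w = 0 := by
      apply apply_eq_zero_of_analyticOrderAt_ne_zero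
      intro h0
      rw [h0] at hn
      simp at hn
    have hG : Differentiable ℂ (dslope F w) := by
      have h1 : DifferentiableOn ℂ (dslope F w) Set.univ :=
        (Complex.differentiableOn_dslope (by simp)).2 hF.differentiableOn
      exact differentiableOn_univ.1 h1
    have hFG : ∀ z, F z = (z - w) * dslope F w z := by
      intro z
      have h := sub_smul_dslope F w z
      rw [hFw, sub_zero, smul_eq_mul] at h
      exact h.symm
    have hord : (n : ℕ∞) ≤ analyticOrderAt (dslope F w) w := by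
      have h2 : F = (fun z => z - w) * dslope F w := by
        funext z
        rw [Pi.mul_apply]
        exact hFG z
      have h3 : analyticOrderAt F w = 1 + analyticOrderAt (dslope F w) w := by
        conv_lhs => rw [h2]
        rw [analyticOrderAt_mul (by fun_prop) (hG.analyticAt w)]
        congr 1
        exact analyticOrderAt_id_sub_const_self
      rw [h3, Nat.cast_add, Nat.cast_one, add_comm] at hn
      exact (ENat.add_le_add_iff_left (by simp)).1 hn
    obtain ⟨G, hG1, hG2⟩ := ih (dslope F w) hG w hord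
    refine ⟨G, hG1, fun z => ?_⟩
    rw [hFG z, hG2 z]
    ring

private theorem div_27 (n : ℕ) (S : Finset ℂ) : ∀ (F : ℂ → ℂ), Differentiable ℂ F →
    (∀ w ∈ S, (n : ℕ∞) ≤ analyticOrderAt F w) →
    ∃ G : ℂ → ℂ, Differentiable ℂ G ∧ ∀ z, F z = (∏ w ∈ S, (z - w) ^ n) * G z := by
  classical
  induction S using Finset.induction_on with
  | empty => exact fun F hF _ => ⟨F, hF, fun z => by simp⟩
  | insert a S ha ih =>
    intro F hF hS
    obtain ⟨G, hG, hFG⟩ := div1_27 n F hF a (hS a (Finset.mem_insert_self a S))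
    have hS' : ∀ w ∈ S, (n : ℕ∞) ≤ analyticOrderAt G w := by
      intro w hw
      have hwa : w ≠ a := fun h => ha (h ▸ hw)
      have h1 := hS w (Finset.mem_insert_of_mem hw)
      have h2 : F = (fun z => (z - a) ^ n) * G := by
        funext z
        rw [Pi.mul_apply]
        exact hFG z
      have h3 : analyticOrderAt (fun z : ℂ => (z - a) ^ n) w = 0 := by
        rw [analyticOrderAt_eq_zero]
        right
        exact pow_ne_zero _ (sub_ne_zero.2 hwa)
      rw [h2, analyticOrderAt_mul (by fun_prop) (hG.analyticAt w), h3, zero_add] at h1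
      exact h1
    obtain ⟨G', hG', hGG'⟩ := ih G hG hS'
    refine ⟨G', hG', fun z => ?_⟩
    rw [hFG z, hGG' z, Finset.prod_insert ha]
    ring

/-- The Cauchy estimate for the first nonzero derivative, with zeros of order `n` at all points of `S`. -/
private theorem schwarz_27 (n : ℕ) (S : Finset ℂ) (F : ℂ → ℂ) (hF : Differentiable ℂ F)
    (hS : ∀ w ∈ S, ∀ i < n, iteratedDeriv i F w = 0) {z0 : ℂ} (hz0 : z0 ∈ S) {ρ D B : ℝ}
    (hρ : 0 < ρ) (hSρ : ∀ w ∈ S, ‖w‖ ≤ ρ / 2) (hD : ∀ w ∈ S, ‖z0 - w‖ ≤ D) (hD1 : 1 ≤ D)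
    (hB : ∀ z, ‖z‖ = ρ → ‖F z‖ ≤ B) :
    ‖iteratedDeriv n F z0‖ ≤ (n.factorial : ℝ) * B * (2 * D / ρ) ^ (n * S.card) := by
  classical
  obtain ⟨G, hG, hFG⟩ := div_27 n S F hF fun w hw =>
    (natCast_le_analyticOrderAt_iff_iteratedDeriv_eq_zero (hF.analyticAt w)).2 (hS w hw)
  have hD0 : 0 < D := by linarith
  -- the value of the derivative
  have h1 : iteratedDeriv n F z0 =
      (n.factorial : ℂ) * ((∏ w ∈ S.erase z0, (z0 - w) ^ n) * G z0) := by
    set R1 : ℂ → ℂ := fun z => (∏ w ∈ S.erase z0, (z - w) ^ n) * G z with hR1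
    have hR1d : Differentiable ℂ R1 := by
      rw [hR1]
      refine Differentiable.mul ?_ hG
      fun_prop
    obtain ⟨R2, _, hR2⟩ := iteratedDeriv_mul_pow_sub_of_analytic (k := n) (t := 0) (z₀ := z0)
      (R := F) (R₁ := R1) (fun z => hR1d.analyticAt z) (fun z => by
        rw [hFG z, hR1, ← Finset.mul_prod_erase S _ hz0]
        simp only [add_zero]
        ring)
    rw [hR2 z0, hR1]
    simp
  -- the bound for `G`
  have hball : ∀ z, ‖z‖ = ρ → ‖G z‖ ≤ B / (ρ / 2) ^ (n * S.card) := by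
    intro z hz
    have hlow : (ρ / 2) ^ (n * S.card) ≤ ‖∏ w ∈ S, (z - w) ^ n‖ := by
      rw [norm_prod, pow_mul, ← Finset.prod_const]
      refine Finset.prod_le_prod (fun _ _ => by positivity) fun w hw => ?_
      rw [norm_pow]
      refine pow_le_pow_left₀ (by positivity) ?_ n
      have := norm_sub_norm_le z w
      have := hSρ w hw
      linarith
    have hpos : 0 < (ρ / 2) ^ (n * S.card) := by positivity
    rw [le_div_iff₀ hpos]
    have h2 := hB z hz
    rw [hFG z, norm_mul] at h2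
    calc ‖G z‖ * (ρ / 2) ^ (n * S.card) ≤ ‖G z‖ * ‖∏ w ∈ S, (z - w) ^ n‖ :=
          mul_le_mul_of_nonneg_left hlow (norm_nonneg _)
      _ ≤ B := by rw [mul_comm]; exact h2
  have hGz0 : ‖G z0‖ ≤ B / (ρ / 2) ^ (n * S.card) := by
    refine Complex.norm_le_of_forall_mem_frontier_norm_le (U := Metric.ball (0 : ℂ) ρ)
      Metric.isBounded_ball hG.diffContOnCl (fun z hz => ?_) ?_
    · rw [frontier_ball (0 : ℂ) hρ.ne', mem_sphere_zero_iff_norm] at hz
      exact hball z hz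
    · refine subset_closure ?_
      rw [mem_ball_zero_iff]
      have := hSρ z0 hz0
      linarith
  have hB0 : 0 ≤ B := by
    have h3 := hB (ρ : ℂ) (by rw [Complex.norm_real, Real.norm_eq_abs, abs_of_pos hρ])
    exact (norm_nonneg _).trans h3
  have hprod : ‖∏ w ∈ S.erase z0, (z0 - w) ^ n‖ ≤ D ^ (n * S.card) := by
    rw [norm_prod]
    calc ∏ w ∈ S.erase z0, ‖(z0 - w) ^ n‖ ≤ ∏ w ∈ S.erase z0, D ^ n := by
          refine Finset.prod_le_prod (fun _ _ => norm_nonneg _) fun w hw => ?_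
          rw [norm_pow]
          exact pow_le_pow_left₀ (norm_nonneg _) (hD w (Finset.mem_of_mem_erase hw)) n
      _ = D ^ (n * (S.erase z0).card) := by rw [Finset.prod_const, pow_mul]
      _ ≤ D ^ (n * S.card) := by
          refine pow_le_pow_right₀ hD1 (Nat.mul_le_mul_left n ?_)
          exact Finset.card_le_card (Finset.erase_subset _ _)
  rw [h1, norm_mul, norm_mul, Complex.norm_natCast, mul_assoc]
  refine mul_le_mul_of_nonneg_left ?_ (Nat.cast_nonneg _)
  calc ‖∏ w ∈ S.erase z0, (z0 - w) ^ n‖ * ‖G z0‖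
      ≤ D ^ (n * S.card) * (B / (ρ / 2) ^ (n * S.card)) :=
        mul_le_mul hprod hGz0 (norm_nonneg _) (by positivity)
    _ = B * (2 * D / ρ) ^ (n * S.card) := by
        rw [div_pow, div_pow, mul_pow]
        field_simp



/-- The polynomial whose value at `(θ, exp θ)` is the derivative of order `τ` of `z ^ a * exp (b z)` at
`k θ`. -/
private noncomputable def Q27 (a b τ k : ℕ) : MvPolynomial (Fin 2) ℤ :=
  ∑ i ∈ Finset.range (τ + 1),
    C (((τ.choose i * a.descFactorial i * b ^ (τ - i) * k ^ (a - i) : ℕ) : ℤ)) *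
      (X 0 ^ (a - i) * X 1 ^ (k * b))

private theorem Q27_aeval (θ : ℂ) (a b τ k : ℕ) :
    iteratedDeriv τ (fun z : ℂ => z ^ a * Complex.exp ((b : ℂ) * z)) ((k : ℂ) * θ) =
      aeval ![θ, Complex.exp θ] (Q27 a b τ k) := by
  rw [iteratedDeriv_fun_mul (by fun_prop) (by fun_prop), Q27, map_sum]
  refine Finset.sum_congr rfl fun i _ => ?_
  rw [iteratedDeriv_pow, iteratedDeriv_cexp_const_mul]
  have h1 : Complex.exp ((b : ℂ) * ((k : ℂ) * θ)) = Complex.exp θ ^ (k * b) := by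
    rw [← Complex.exp_nat_mul]
    congr 1
    push_cast
    ring
  simp only [map_mul, map_pow, aeval_C, aeval_X, Matrix.cons_val_zero, Matrix.cons_val_one]
  rw [h1, mul_pow]
  simp only [algebraMap_int_eq, eq_intCast, Int.cast_natCast]
  push_cast
  ring

private theorem Q27_deg (a b τ k : ℕ) : (Q27 a b τ k).totalDegree ≤ a + k * b := by
  refine (totalDegree_finsetSum _ _).trans (Finset.sup_le fun i _ => ?_)
  refine (totalDegree_mul _ _).trans ?_
  rw [totalDegree_C, zero_add]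
  refine (totalDegree_mul _ _).trans ?_
  rw [totalDegree_X_pow, totalDegree_X_pow]
  omega

private theorem Q27_L1 (a b τ k ν : ℕ) (hk : k ≤ ν) (hν : 1 ≤ ν) :
    L1 (Q27 a b τ k) ≤ (ν : ℝ) ^ a * ((a : ℝ) + b) ^ τ := by
  rw [add_pow, Finset.mul_sum]
  refine (L1_sum _ _).trans (Finset.sum_le_sum fun i _ => ?_)
  refine (L1_mul _ _).trans ?_
  have h1 : L1 (X 0 ^ (a - i) * X 1 ^ (k * b) : MvPolynomial (Fin 2) ℤ) ≤ 1 := by
    refine (L1_mul _ _).trans ?_
    have h2 := L1_pow (X 0 : MvPolynomial (Fin 2) ℤ) (a - i)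
    have h3 := L1_pow (X 1 : MvPolynomial (Fin 2) ℤ) (k * b)
    rw [L1_X, one_pow] at h2 h3
    exact mul_le_one₀ h2 (L1_nonneg _) h3
  rw [L1_C]
  refine (mul_le_mul_of_nonneg_left h1 (abs_nonneg _)).trans ?_
  rw [mul_one, Int.cast_natCast, abs_of_nonneg (Nat.cast_nonneg _)]
  have h4 : (a.descFactorial i : ℝ) ≤ (a : ℝ) ^ i := by
    exact_mod_cast Nat.descFactorial_le_pow a i
  have h5 : (k : ℝ) ^ (a - i) ≤ (ν : ℝ) ^ a := by
    calc (k : ℝ) ^ (a - i) ≤ (ν : ℝ) ^ (a - i) :=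
          pow_le_pow_left₀ (Nat.cast_nonneg _) (by exact_mod_cast hk) _
      _ ≤ (ν : ℝ) ^ a := pow_le_pow_right₀ (by exact_mod_cast hν) (Nat.sub_le _ _)
  push_cast
  calc (τ.choose i : ℝ) * (a.descFactorial i : ℝ) * (b : ℝ) ^ (τ - i) * (k : ℝ) ^ (a - i)
      ≤ (τ.choose i : ℝ) * (a : ℝ) ^ i * (b : ℝ) ^ (τ - i) * (ν : ℝ) ^ a := by
        gcongr
    _ = (ν : ℝ) ^ a * ((a : ℝ) ^ i * (b : ℝ) ^ (τ - i) * (τ.choose i : ℝ)) := by ring

/-- The functions `z ^ a * exp (b z)` are linearly independent. -/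
private theorem indep_27 {L0 L1 : ℕ} (c : Fin L0 × Fin L1 → ℂ)
    (h : ∀ z : ℂ, ∑ p, c p * (z ^ (p.1 : ℕ) * Complex.exp (((p.2 : ℕ) : ℂ) * z)) = 0) : c = 0 := by
  classical
  have h1 : ∀ (x : ℂ) (a : Fin L0), ∑ b : Fin L1, c (a, b) * Complex.exp (((b : ℕ) : ℂ) * x) = 0 := by
    intro x a
    set A : Polynomial ℂ := ∑ a' : Fin L0, Polynomial.C (∑ b : Fin L1,
      c (a', b) * Complex.exp (((b : ℕ) : ℂ) * x)) * Polynomial.X ^ (a' : ℕ) with hA
    have hroot : ∀ k : ℕ, A.IsRoot (x + k * (2 * Real.pi * Complex.I)) := by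
      intro k
      have h2 := h (x + k * (2 * Real.pi * Complex.I))
      rw [Fintype.sum_prod_type] at h2
      rw [Polynomial.IsRoot.def, hA, Polynomial.eval_finsetSum, ← h2]
      refine Finset.sum_congr rfl fun a' _ => ?_
      rw [Polynomial.eval_mul, Polynomial.eval_C, Polynomial.eval_pow, Polynomial.eval_X,
        Finset.sum_mul]
      refine Finset.sum_congr rfl fun b _ => ?_
      have h3 : Complex.exp (((b : ℕ) : ℂ) * (x + k * (2 * Real.pi * Complex.I))) =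
          Complex.exp (((b : ℕ) : ℂ) * x) := by
        rw [Complex.exp_eq_exp_iff_exists_int]
        refine ⟨((b : ℕ) * k : ℕ), ?_⟩
        push_cast
        ring
      simp only []
      rw [h3]
      ring
    have hA0 : A = 0 := by
      refine Polynomial.eq_zero_of_infinite_isRoot A ?_
      refine Set.infinite_of_injective_forall_mem (f := fun k : ℕ =>
        x + k * (2 * Real.pi * Complex.I)) ?_ hroot
      intro k l hkl
      have h4 := add_left_cancel hkl
      have h5 : (2 * (Real.pi : ℂ) * Complex.I) ≠ 0 := Complex.two_pi_I_ne_zero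
      exact_mod_cast mul_right_cancel₀ h5 h4
    have h6 : A.coeff (a : ℕ) = ∑ b : Fin L1, c (a, b) * Complex.exp (((b : ℕ) : ℂ) * x) := by
      rw [hA, Polynomial.finsetSum_coeff, Finset.sum_eq_single a]
      · rw [Polynomial.coeff_C_mul, Polynomial.coeff_X_pow, if_pos rfl, mul_one]
      · intro a' _ ha'
        rw [Polynomial.coeff_C_mul, Polynomial.coeff_X_pow, if_neg, mul_zero]
        intro h7
        exact ha' (Fin.ext h7.symm)
      · simp
    rw [← h6, hA0, Polynomial.coeff_zero]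
  funext p
  obtain ⟨a, b⟩ := p
  set A : Polynomial ℂ := ∑ b' : Fin L1, Polynomial.C (c (a, b')) * Polynomial.X ^ (b' : ℕ) with hA
  have hroot : ∀ k : ℕ, A.IsRoot (Complex.exp (k : ℂ)) := by
    intro k
    rw [Polynomial.IsRoot.def, hA, Polynomial.eval_finsetSum, ← h1 (k : ℂ) a]
    refine Finset.sum_congr rfl fun b' _ => ?_
    rw [Polynomial.eval_mul, Polynomial.eval_C, Polynomial.eval_pow, Polynomial.eval_X,
      ← Complex.exp_nat_mul]
  have hA0 : A = 0 := by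
    refine Polynomial.eq_zero_of_infinite_isRoot A ?_
    refine Set.infinite_of_injective_forall_mem (f := fun k : ℕ => Complex.exp (k : ℂ)) ?_ hroot
    intro k l hkl
    have h4 : ‖Complex.exp (k : ℂ)‖ = ‖Complex.exp (l : ℂ)‖ := congrArg _ hkl
    rw [Complex.norm_exp, Complex.norm_exp, Complex.natCast_re, Complex.natCast_re] at h4
    exact_mod_cast Real.exp_injective h4
  have h6 : A.coeff (b : ℕ) = c (a, b) := by
    rw [hA, Polynomial.finsetSum_coeff, Finset.sum_eq_single b]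
    · rw [Polynomial.coeff_C_mul, Polynomial.coeff_X_pow, if_pos rfl, mul_one]
    · intro b' _ hb'
      rw [Polynomial.coeff_C_mul, Polynomial.coeff_X_pow, if_neg, mul_zero]
      intro h7
      exact hb' (Fin.ext h7.symm)
    · simp
  rw [← h6, hA0, Polynomial.coeff_zero]
  rfl



private theorem num1_27 {K ν Cs s N : ℕ} {q : ℝ} (hK : 1 ≤ K) (hν : 1 ≤ ν) (hCs : 1 ≤ Cs)
    (hs : 1 ≤ s) (hN : s ^ 2 ≤ N) (hsq : (s : ℝ) ≤ q) :
    ((K * s * s : ℕ) : ℝ) ≤ (2 * (K : ℝ)) ^ N ∧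
    (ν : ℝ) ^ (K * s) ≤ ((ν : ℝ) ^ K) ^ N ∧
    (((K : ℝ) + 1) * s) ^ N ≤ (((K : ℝ) + 1) * q) ^ N ∧
    (((K : ℝ) + 1) * s) ^ (s ^ 2) ≤ (((K : ℝ) + 1) * q) ^ N ∧
    (Cs : ℝ) ^ ((K + ν) * s + 1) ≤ ((Cs : ℝ) ^ (K + ν + 1)) ^ N := by
  have hss : s ≤ s ^ 2 := by nlinarith
  have hsN : s ≤ N := hss.trans hN
  have hN1 : 1 ≤ N := hs.trans hsN
  have hK' : (1 : ℝ) ≤ K := by exact_mod_cast hK
  have hν' : (1 : ℝ) ≤ ν := by exact_mod_cast hν
  have hCs' : (1 : ℝ) ≤ Cs := by exact_mod_cast hCs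
  have hs' : (1 : ℝ) ≤ s := by exact_mod_cast hs
  have hKs : (1 : ℝ) ≤ ((K : ℝ) + 1) * s := by nlinarith
  have h3 : (((K : ℝ) + 1) * s) ^ N ≤ (((K : ℝ) + 1) * q) ^ N := by
    refine pow_le_pow_left₀ (by positivity) ?_ N
    exact mul_le_mul_of_nonneg_left hsq (by positivity)
  refine ⟨?_, ?_, h3, (pow_le_pow_right₀ hKs hN).trans h3, ?_⟩
  · have h1 : ((K * s * s : ℕ) : ℝ) ≤ (K : ℝ) * N := by
      have : K * s * s ≤ K * N := by
        rw [mul_assoc, ← pow_two]
        exact Nat.mul_le_mul_left K hN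
      exact_mod_cast this
    have h2 : (N : ℝ) ≤ 2 ^ N := by exact_mod_cast Nat.lt_two_pow_self.le
    have h4 : (K : ℝ) ≤ (K : ℝ) ^ N := le_self_pow₀ hK' (by omega)
    rw [mul_pow, mul_comm ((2 : ℝ) ^ N)]
    exact h1.trans (mul_le_mul h4 h2 (by positivity) (by positivity))
  · rw [← pow_mul]
    exact pow_le_pow_right₀ hν' (Nat.mul_le_mul_left K hsN)
  · rw [← pow_mul]
    refine pow_le_pow_right₀ hCs' ?_
    nlinarith [Nat.mul_le_mul_left (K + ν) hsN]

/-- The numerical contradiction. -/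
private theorem num2_27 {c N : ℕ} {q E x : ℝ} (hN : 1 ≤ N) (hq : 1 ≤ q) (hE1 : 0 ≤ E) (hE : E < q)
    (hx : 1 ≤ (q ^ 2) ^ (3 * c * N) * x)
    (hx2 : x ≤ (E * q ^ 3 / q ^ (6 * c + 5)) ^ N) : False := by
  have hq0 : 0 < q := by linarith
  have h1 : (q ^ 2) ^ (3 * c * N) * x ≤ (E / q ^ 2) ^ N := by
    calc (q ^ 2) ^ (3 * c * N) * x
        ≤ (q ^ 2) ^ (3 * c * N) * (E * q ^ 3 / q ^ (6 * c + 5)) ^ N :=
          mul_le_mul_of_nonneg_left hx2 (by positivity)
      _ = ((q ^ 2) ^ (3 * c) * (E * q ^ 3 / q ^ (6 * c + 5))) ^ N := by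
          rw [mul_pow, ← pow_mul (q ^ 2)]
      _ = (E / q ^ 2) ^ N := by
          congr 1
          have h3 : q ^ (6 * c + 5) = (q ^ 2) ^ (3 * c) * q ^ 3 * q ^ 2 := by
            rw [← pow_mul, ← pow_add, ← pow_add]
            congr 1
            ring
          rw [h3]
          field_simp
  have h2 : (E / q ^ 2) ^ N < 1 := by
    refine pow_lt_one₀ (by positivity) ?_ (by omega)
    rw [div_lt_one (by positivity)]
    nlinarith
  linarith


private theorem num3_27 {N ν : ℕ} {q K E1 D f : ℝ} (hf : f ≤ (q ^ 2) ^ N) (hq : 0 < q) (hK : 0 ≤ K)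
    (hE1 : 0 ≤ E1) (hD : 0 ≤ D) :
    f * ((2 * K * (E1 * q)) ^ N * (Real.exp K ^ N * Real.exp 1 ^ N)) * (2 * D / q) ^ (N * ν) ≤
      (2 * K * E1 * Real.exp K * Real.exp 1 * (2 * D) ^ ν * q ^ 3 / q ^ ν) ^ N := by
  have hA : 0 ≤ (2 * K * (E1 * q)) ^ N * (Real.exp K ^ N * Real.exp 1 ^ N) := by positivity
  have hB : 0 ≤ (2 * D / q) ^ (N * ν) := by positivity
  refine (mul_le_mul_of_nonneg_right (mul_le_mul_of_nonneg_right hf hA) hB).trans (le_of_eq ?_)
  rw [mul_comm N ν, pow_mul (2 * D / q), ← mul_pow, ← mul_pow, ← mul_pow, ← mul_pow, div_pow]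
  congr 1
  ring

private theorem liouville_27 {ι : Type} [Fintype ι] (y : ι → ℂ) (hy : ∀ i, IsAlgebraic ℚ (y i)) :
    ∃ C : ℝ, 0 < C ∧ ∀ (M : ℕ) (P : MvPolynomial ι ℤ), 1 ≤ M → P.totalDegree ≤ M →
      L1 P ≤ Real.exp M → aeval y P ≠ 0 → Real.exp (-(C * M)) ≤ ‖aeval y P‖ := by
  have h0 : ∀ i, AlgOver (fun j : Fin 0 => (j.elim0 : ℂ)) (y i) := fun i =>
    (hy i).extendScalars (algebraMap ℚ _).injective
  obtain ⟨C, hC, h⟩ := rank_lemma y (fun j : Fin 0 => (j.elim0 : ℂ)) h0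
  refine ⟨C, hC, fun M P hM hd hL hne => ?_⟩
  by_contra hlt
  have hlt : ‖aeval y P‖ < Real.exp (-(C * M)) := lt_of_not_ge hlt
  have hpos : 0 < ‖aeval y P‖ := norm_pos_iff.2 hne
  refine h M (fun _ => P) hM (fun _ => hd) (fun _ => hL) (fun _ => hne) ?_ (fun j => j.elim0)
  have h1 : Real.log ‖aeval y P‖ < -(C * M) := (Real.log_lt_iff_lt_exp hpos).2 hlt
  rw [zero_add, pow_one]
  linarith

/-- An entire function all of whose derivatives at `0` vanish is zero. -/
private theorem zero_of_derivs_27 {F : ℂ → ℂ} (hF : Differentiable ℂ F)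
    (h : ∀ n, iteratedDeriv n F 0 = 0) (z : ℂ) : F z = 0 := by
  have h1 := Complex.taylorSeries_eq_of_entire' 0 z hF
  rw [← h1]
  simp [h]

theorem hermite_lindemann {θ : ℂ} (hθ : θ ≠ 0) (h1 : IsAlgebraic ℚ θ)
    (h2 : IsAlgebraic ℚ (Complex.exp θ)) : False := by
  classical
  have hyalg : ∀ i, IsAlgebraic ℚ ((![θ, Complex.exp θ] : Fin 2 → ℂ) i) := by
    rw [Fin.forall_fin_two]
    exact ⟨h1, h2⟩
  generalize hy : (![θ, Complex.exp θ] : Fin 2 → ℂ) = y at hyalg
  obtain ⟨Cl, hCl, hL⟩ := liouville_27 y hyalg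
  obtain ⟨Cs, hCs, hS⟩ := siegel y (fun j : Fin 0 => (j.elim0 : ℂ)) fun i =>
    (hyalg i).extendScalars (algebraMap ℚ _).injective
  obtain ⟨c, hc⟩ : ∃ c : ℕ, Cl ≤ c := ⟨⌈Cl⌉₊, Nat.le_ceil Cl⟩
  obtain ⟨ν, hν⟩ : ∃ ν : ℕ, ν = 6 * c + 5 := ⟨_, rfl⟩
  obtain ⟨K, hK⟩ : ∃ K : ℕ, K = Cs * ν := ⟨_, rfl⟩
  have hν1 : 1 ≤ ν := by omega
  have hCs1 : 1 ≤ Cs := hCs
  have hK1 : 1 ≤ K := by rw [hK]; exact Nat.mul_pos hCs hν1
  have hK1' : (1 : ℝ) ≤ K := by exact_mod_cast hK1
  have hν1' : (1 : ℝ) ≤ ν := by exact_mod_cast hν1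
  have hCs1' : (1 : ℝ) ≤ Cs := by exact_mod_cast hCs1
  obtain ⟨D, hD⟩ : ∃ D : ℝ, D = ν * ‖θ‖ + 1 := ⟨_, rfl⟩
  have hD1 : 1 ≤ D := by rw [hD]; nlinarith [norm_nonneg θ]
  obtain ⟨E1, hE1⟩ : ∃ E1 : ℝ, E1 = 2 * K * ((ν : ℝ) ^ K * ((K : ℝ) + 1)) * (Cs : ℝ) ^ (K + ν + 1) :=
    ⟨_, rfl⟩
  have hE10 : 0 < E1 := by rw [hE1]; positivity
  obtain ⟨E2, hE2⟩ : ∃ E2 : ℝ, E2 = 2 * K * E1 * ((ν : ℝ) ^ K * ((K : ℝ) + 1)) := ⟨_, rfl⟩
  have hE20 : 0 < E2 := by rw [hE2]; positivity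
  obtain ⟨E3, hE3⟩ : ∃ E3 : ℝ, E3 = 2 * K * E1 * Real.exp K * Real.exp 1 := ⟨_, rfl⟩
  have hE30 : 0 < E3 := by rw [hE3]; positivity
  obtain ⟨s, hs⟩ := exists_nat_gt (E2 + E3 * (2 * D) ^ ν + (K + ν) + 2 * D + 3)
  have hE4 : 0 < E3 * (2 * D) ^ ν := by positivity
  have hs3 : (3 : ℝ) < s := by linarith
  have hs1 : 1 ≤ s := by
    have : (1 : ℝ) < s := by linarith
    exact_mod_cast this.le
  -- the auxiliary function
  have hcardκ : Fintype.card (Fin (K * s) × Fin s) = K * s * s := by simp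
  have hcardη : Fintype.card (Fin (s ^ 2) × Fin ν) = s ^ 2 * ν := by simp
  have hKs : (1 : ℝ) ≤ ((K : ℝ) + 1) * s := by nlinarith
  have hQdeg : ∀ (p : Fin (K * s) × Fin s) (τ k : ℕ), k ≤ ν →
      (Q27 p.1 p.2 τ k).totalDegree ≤ (K + ν) * s := by
    intro p τ k hk
    refine (Q27_deg _ _ _ _).trans ?_
    have ha := p.1.2
    have hb := p.2.2
    calc (p.1 : ℕ) + k * (p.2 : ℕ) ≤ K * s + ν * s :=
          Nat.add_le_add ha.le (Nat.mul_le_mul hk hb.le)
      _ = (K + ν) * s := by ring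
  have hQL1 : ∀ (p : Fin (K * s) × Fin s) (τ k : ℕ), k ≤ ν →
      L1 (Q27 p.1 p.2 τ k) ≤ (ν : ℝ) ^ (K * s) * (((K : ℝ) + 1) * s) ^ τ := by
    intro p τ k hk
    refine (Q27_L1 _ _ _ _ ν hk hν1).trans ?_
    have ha : ((p.1 : ℕ) : ℝ) ≤ K * s := by exact_mod_cast p.1.2.le
    have hb : ((p.2 : ℕ) : ℝ) ≤ s := by exact_mod_cast p.2.2.le
    refine mul_le_mul (pow_le_pow_right₀ hν1' p.1.2.le) ?_ (by positivity) (by positivity)
    refine pow_le_pow_left₀ (by positivity) ?_ τ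
    linarith
  obtain ⟨φ, hφ0, hφb, hφv⟩ := hS (κ := Fin (K * s) × Fin s) (η := Fin (s ^ 2) × Fin ν) ((K + ν) * s)
    ((ν : ℝ) ^ (K * s) * (((K : ℝ) + 1) * s) ^ (s ^ 2)) (fun p e => Q27 p.1 p.2 e.1 e.2)
    (by
      have e1 : (1 : ℝ) ≤ (ν : ℝ) ^ (K * s) := one_le_pow₀ hν1'
      have e2 : (1 : ℝ) ≤ (((K : ℝ) + 1) * s) ^ (s ^ 2) := one_le_pow₀ hKs
      nlinarith)
    (fun p e => hQdeg p _ _ e.2.2.le)
    (fun p e => (hQL1 p _ _ e.2.2.le).trans (mul_le_mul_of_nonneg_left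
      (pow_le_pow_right₀ hKs e.1.2.le) (by positivity)))
    (by rw [hcardκ]; positivity)
    (by
      rw [hcardκ, hcardη, pow_zero, mul_one, hK]
      exact le_of_eq (by ring))
  rw [hcardκ] at hφb
  set F : ℂ → ℂ := fun z => ∑ p : Fin (K * s) × Fin s,
    (φ p : ℂ) * (z ^ (p.1 : ℕ) * Complex.exp (((p.2 : ℕ) : ℂ) * z)) with hF
  have hFd : Differentiable ℂ F := by
    rw [hF]
    fun_prop
  have hFder : ∀ τ k : ℕ, iteratedDeriv τ F ((k : ℂ) * θ) =
      aeval y (∑ p : Fin (K * s) × Fin s, C (φ p) * Q27 p.1 p.2 τ k) := by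
    intro τ k
    rw [hF, iteratedDeriv_fun_sum (fun p _ => by fun_prop), map_sum]
    refine Finset.sum_congr rfl fun p _ => ?_
    rw [iteratedDeriv_const_mul_field, Q27_aeval, hy, map_mul, aeval_C]
    simp
  have hex : ∃ N : ℕ, ∃ k < ν, iteratedDeriv N F ((k : ℂ) * θ) ≠ 0 := by
    by_contra hcon
    push Not at hcon
    have h3 : ∀ n, iteratedDeriv n F 0 = 0 := by
      intro n
      have h4 := hcon n 0 (by omega)
      rw [Nat.cast_zero, zero_mul] at h4
      exact h4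
    have h5 := indep_27 (fun p => (φ p : ℂ)) fun z => by
      have h6 := zero_of_derivs_27 hFd h3 z
      rw [hF] at h6
      exact h6
    apply hφ0
    funext p
    have h7 : (φ p : ℂ) = 0 := congrFun h5 p
    exact_mod_cast h7
  obtain ⟨N, hNk, hNmin⟩ : ∃ N : ℕ, (∃ k < ν, iteratedDeriv N F ((k : ℂ) * θ) ≠ 0) ∧
      ∀ i < N, ∀ k < ν, iteratedDeriv i F ((k : ℂ) * θ) = 0 := by
    refine ⟨Nat.find hex, Nat.find_spec hex, fun i hi k hk => ?_⟩
    by_contra h3
    exact Nat.find_min hex hi ⟨k, hk, h3⟩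
  obtain ⟨k0, hk0, hξ⟩ := hNk
  have hsN : s ^ 2 ≤ N := by
    by_contra h3
    apply hξ
    rw [hFder]
    have h4 := hφv (⟨N, by omega⟩, ⟨k0, hk0⟩)
    rw [map_sum, ← h4]
    refine Finset.sum_congr rfl fun p _ => ?_
    rw [map_mul, aeval_C]
    simp
  have hN1 : 1 ≤ N := le_trans (Nat.one_le_pow _ _ hs1) hsN
  obtain ⟨q, hq⟩ : ∃ q : ℝ, q = Real.sqrt N := ⟨_, rfl⟩
  have hqq : q ^ 2 = N := by rw [hq]; exact Real.sq_sqrt (Nat.cast_nonneg N)
  have hsq : (s : ℝ) ≤ q := by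
    rw [hq]
    exact Real.le_sqrt_of_sq_le (by exact_mod_cast hsN)
  have hq3 : 3 < q := by linarith
  have hq0 : 0 < q := by linarith
  obtain ⟨n1, n2, n3, n4, n5⟩ := num1_27 hK1 hν1 hCs1 hs1 hsN hsq
  -- the size of the coefficients
  have hΦ : ∀ p, |(φ p : ℝ)| ≤ (E1 * q) ^ N := by
    intro p
    refine (hφb p).trans ?_
    calc ((K * s * s : ℕ) : ℝ) * ((ν : ℝ) ^ (K * s) * (((K : ℝ) + 1) * s) ^ (s ^ 2)) *
          (Cs : ℝ) ^ ((K + ν) * s + 1)
        ≤ (2 * (K : ℝ)) ^ N * (((ν : ℝ) ^ K) ^ N * (((K : ℝ) + 1) * q) ^ N) *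
          ((Cs : ℝ) ^ (K + ν + 1)) ^ N := by
          gcongr
      _ = (E1 * q) ^ N := by
          rw [← mul_pow, ← mul_pow, ← mul_pow, hE1]
          congr 1
          ring
  have hcardle : ((K * s * s : ℕ) : ℝ) * (E1 * q) ^ N ≤ (2 * K * (E1 * q)) ^ N := by
    rw [mul_pow (2 * (K : ℝ))]
    exact mul_le_mul_of_nonneg_right n1 (by positivity)
  -- the lower bound
  obtain ⟨m, hm⟩ : ∃ m : ℕ, m = ⌈Real.log q⌉₊ := ⟨_, rfl⟩
  have hlogq : 0 < Real.log q := Real.log_pos (by linarith)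
  have hm1 : 1 ≤ m := by
    rw [hm]
    exact Nat.ceil_pos.2 hlogq
  have hqm : q ≤ Real.exp m := by
    rw [← Real.log_le_iff_le_exp hq0, hm]
    exact Nat.le_ceil _
  have hmq : Real.exp m ≤ q ^ 2 := by
    have h3 : (m : ℝ) ≤ Real.log q + 1 := by
      rw [hm]
      exact (Nat.ceil_lt_add_one hlogq.le).le
    calc Real.exp m ≤ Real.exp (Real.log q + 1) := Real.exp_le_exp.2 h3
      _ = q * Real.exp 1 := by rw [Real.exp_add, Real.exp_log hq0]
      _ ≤ q * q := by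
          refine mul_le_mul_of_nonneg_left ?_ hq0.le
          have := Real.exp_one_lt_d9
          linarith
      _ = q ^ 2 := by ring
  have hlow : Real.exp (-(Cl * (3 * N * m : ℕ))) ≤ ‖iteratedDeriv N F ((k0 : ℂ) * θ)‖ := by
    rw [hFder] at hξ ⊢
    refine hL (3 * N * m) _ ?_ ?_ ?_ hξ
    · exact Nat.mul_pos (by omega) hm1
    · refine (totalDegree_finsetSum _ _).trans (Finset.sup_le fun p _ => ?_)
      refine (totalDegree_mul _ _).trans ?_
      rw [totalDegree_C, zero_add]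
      refine (hQdeg p N k0 hk0.le).trans ?_
      have h3 : K + ν ≤ s := by
        have : ((K + ν : ℕ) : ℝ) ≤ s := by push_cast; linarith
        exact_mod_cast this
      calc (K + ν) * s ≤ s * s := Nat.mul_le_mul_right s h3
        _ = s ^ 2 := by ring
        _ ≤ N := hsN
        _ ≤ 3 * N * m := by nlinarith
    · have h3 : L1 (∑ p : Fin (K * s) × Fin s, C (φ p) * Q27 p.1 p.2 N k0) ≤
          ∑ _p : Fin (K * s) × Fin s,
            (E1 * q) ^ N * ((ν : ℝ) ^ (K * s) * (((K : ℝ) + 1) * s) ^ N) := by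
        refine (L1_sum _ _).trans (Finset.sum_le_sum fun p _ => ?_)
        refine (L1_mul _ _).trans ?_
        rw [L1_C]
        exact mul_le_mul (hΦ p) (hQL1 p N k0 hk0.le) (L1_nonneg _) (by positivity)
      rw [Finset.sum_const, Finset.card_univ, hcardκ, nsmul_eq_mul, ← mul_assoc] at h3
      refine h3.trans ?_
      calc ((K * s * s : ℕ) : ℝ) * (E1 * q) ^ N * ((ν : ℝ) ^ (K * s) * (((K : ℝ) + 1) * s) ^ N)
          ≤ (2 * K * (E1 * q)) ^ N * (((ν : ℝ) ^ K) ^ N * (((K : ℝ) + 1) * q) ^ N) := by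
            gcongr
        _ = (E2 * q ^ 2) ^ N := by
            rw [← mul_pow, ← mul_pow, hE2]
            congr 1
            ring
        _ ≤ (q ^ 3) ^ N := by
            refine pow_le_pow_left₀ (by positivity) ?_ N
            have h4 : E2 ≤ q := by linarith
            nlinarith [mul_le_mul_of_nonneg_right h4 (sq_nonneg q)]
        _ = q ^ (3 * N) := by rw [pow_mul]
        _ ≤ Real.exp m ^ (3 * N) := pow_le_pow_left₀ hq0.le hqm _
        _ = Real.exp ((3 * N * m : ℕ) : ℝ) := by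
            rw [← Real.exp_nat_mul]
            congr 1
            push_cast
            ring
  -- the upper bound
  have hup : ‖iteratedDeriv N F ((k0 : ℂ) * θ)‖ ≤
      (N.factorial : ℝ) * ((2 * K * (E1 * q)) ^ N * (Real.exp K ^ N * Real.exp 1 ^ N)) *
        (2 * D / q) ^ (N * ν) := by
    set S : Finset ℂ := (Finset.range ν).image fun k : ℕ => (k : ℂ) * θ with hSdef
    have hScard : S.card = ν := by
      rw [hSdef, Finset.card_image_of_injective, Finset.card_range]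
      intro a b hab
      exact_mod_cast mul_right_cancel₀ hθ hab
    have hSmem : ∀ w ∈ S, ∃ k < ν, w = (k : ℂ) * θ := by
      intro w hw
      obtain ⟨k, hk, rfl⟩ := Finset.mem_image.1 hw
      exact ⟨k, Finset.mem_range.1 hk, rfl⟩
    have hnorm : ∀ k < ν, ‖(k : ℂ) * θ‖ ≤ D := by
      intro k hk
      rw [norm_mul, Complex.norm_natCast, hD]
      have : (k : ℝ) ≤ ν := by exact_mod_cast hk.le
      have h9 := mul_le_mul_of_nonneg_right this (norm_nonneg θ)
      linarith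
    rw [← hScard]
    refine schwarz_27 N S F hFd ?_ ?_ hq0 ?_ ?_ hD1 ?_
    · intro w hw i hi
      obtain ⟨k, hk, rfl⟩ := hSmem w hw
      exact hNmin i hi k hk
    · rw [hSdef]
      exact Finset.mem_image.2 ⟨k0, Finset.mem_range.2 hk0, rfl⟩
    · intro w hw
      obtain ⟨k, hk, rfl⟩ := hSmem w hw
      have := hnorm k hk
      linarith
    · intro w hw
      obtain ⟨k, hk, rfl⟩ := hSmem w hw
      rw [← sub_mul, norm_mul, hD]
      have h3 : ‖((k0 : ℂ) - (k : ℂ))‖ ≤ ν := by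
        have h4 : ((k0 : ℂ) - (k : ℂ)) = (((k0 : ℝ) - (k : ℝ) : ℝ) : ℂ) := by push_cast; ring
        rw [h4, Complex.norm_real, Real.norm_eq_abs, abs_le]
        have h5 : (k : ℝ) ≤ ν := by exact_mod_cast hk.le
        have h6 : (k0 : ℝ) ≤ ν := by exact_mod_cast hk0.le
        have h7 : (0 : ℝ) ≤ k := Nat.cast_nonneg _
        have h8 : (0 : ℝ) ≤ k0 := Nat.cast_nonneg _
        constructor <;> linarith
      have h9 := mul_le_mul_of_nonneg_right h3 (norm_nonneg θ)
      linarith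
    · intro z hz
      have h3 : ‖F z‖ ≤ ∑ _p : Fin (K * s) × Fin s,
          (E1 * q) ^ N * (Real.exp K ^ N * Real.exp 1 ^ N) := by
        rw [hF]
        refine (norm_sum_le _ _).trans (Finset.sum_le_sum fun p _ => ?_)
        rw [norm_mul, norm_mul, norm_pow, hz, Complex.norm_intCast]
        have hsN' : (s : ℝ) * q ≤ N := by
          rw [← hqq, pow_two]
          exact mul_le_mul_of_nonneg_right hsq hq0.le
        refine mul_le_mul (hΦ p) (mul_le_mul ?_ ?_ (norm_nonneg _) (by positivity))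
          (by positivity) (by positivity)
        · calc q ^ (p.1 : ℕ) ≤ q ^ (K * s) := pow_le_pow_right₀ (by linarith) p.1.2.le
            _ ≤ Real.exp q ^ (K * s) :=
                pow_le_pow_left₀ hq0.le (by linarith [Real.add_one_le_exp q]) _
            _ = Real.exp ((K : ℝ) * (s * q)) := by
                rw [← Real.exp_nat_mul]
                congr 1
                push_cast
                ring
            _ ≤ Real.exp ((N : ℝ) * K) := by
                refine Real.exp_le_exp.2 ?_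
                rw [mul_comm (N : ℝ)]
                exact mul_le_mul_of_nonneg_left hsN' (Nat.cast_nonneg K)
            _ = Real.exp K ^ N := by rw [← Real.exp_nat_mul]
        · rw [Complex.norm_exp, ← Real.exp_nat_mul, mul_one]
          refine Real.exp_le_exp.2 ?_
          have h4 : (((p.2 : ℕ) : ℂ) * z).re ≤ ‖((p.2 : ℕ) : ℂ) * z‖ := Complex.re_le_norm _
          rw [norm_mul, Complex.norm_natCast, hz] at h4
          have h5 : ((p.2 : ℕ) : ℝ) ≤ s := by exact_mod_cast p.2.2.le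
          exact h4.trans ((mul_le_mul_of_nonneg_right h5 hq0.le).trans hsN')
      refine h3.trans ?_
      rw [Finset.sum_const, Finset.card_univ, hcardκ, nsmul_eq_mul, ← mul_assoc]
      exact mul_le_mul_of_nonneg_right hcardle (by positivity)
  -- the contradiction
  refine num2_27 (c := c) (N := N) (q := q) (E := E3 * (2 * D) ^ ν)
    (x := ‖iteratedDeriv N F ((k0 : ℂ) * θ)‖) hN1 (by linarith) hE4.le ?_ ?_ ?_
  · linarith
  · have h3 : Real.exp (Cl * (3 * N * m : ℕ)) ≤ (q ^ 2) ^ (3 * c * N) := by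
      calc Real.exp (Cl * (3 * N * m : ℕ)) ≤ Real.exp ((c : ℝ) * (3 * N * m : ℕ)) :=
            Real.exp_le_exp.2 (mul_le_mul_of_nonneg_right hc (Nat.cast_nonneg _))
        _ = Real.exp m ^ (3 * c * N) := by
            rw [← Real.exp_nat_mul]
            congr 1
            push_cast
            ring
        _ ≤ (q ^ 2) ^ (3 * c * N) := pow_le_pow_left₀ (Real.exp_pos _).le hmq _
    calc (1 : ℝ) = Real.exp (Cl * (3 * N * m : ℕ)) * Real.exp (-(Cl * (3 * N * m : ℕ))) := by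
          rw [← Real.exp_add]
          simp
      _ ≤ _ := mul_le_mul h3 hlow (Real.exp_pos _).le (by positivity)
  · refine hup.trans ?_
    have h3 : (N.factorial : ℝ) ≤ (q ^ 2) ^ N := by
      rw [hqq]
      exact_mod_cast Nat.factorial_le_pow N
    rw [hE3, ← hν]
    exact num3_27 h3 hq0 (Nat.cast_nonneg K) hE10.le (by linarith)

end Pool.Agent.Helper18.RC
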