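import Mathlib

set_option linter.unusedVariables false

/-!
# Project RC, block RC3: the interpolation inequality

`interp`: proof in words in `Pool/Agent/Helper18/RC/Interp.lean`.
-/

namespace Pool.Agent.Helper18.RC

open Finset in
/-- an entire function vanishing at the distinct points `z k`, `k ∈ s`, is divisible by
`∏ (x - z k)` -/
theorem exists_div {κ : Type} [DecidableEq κ] (z : κ → ℂ) (s : Finset κ) :
    ∀ F : ℂ → ℂ, Differentiable ℂ F → (∀ k ∈ s, F (z k) = 0) →
      (∀ k ∈ s, ∀ l ∈ s, k ≠ l → z k ≠ z l) →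
      ∃ g : ℂ → ℂ, Differentiable ℂ g ∧ ∀ x, F x = (∏ k ∈ s, (x - z k)) * g x := by
  induction s using Finset.induction_on with
  | empty =>
    intro F hF _ _
    exact ⟨F, hF, fun x => by simp⟩
  | insert a s ha ih =>
    intro F hF h0 hne
    have hFa : F (z a) = 0 := h0 a (mem_insert_self a s)
    have hd : Differentiable ℂ (dslope F (z a)) := by
      rw [← differentiableOn_univ]
      rw [Complex.differentiableOn_dslope Filter.univ_mem]
      exact hF.differentiableOn
    have hfac : ∀ x, F x = (x - z a) * dslope F (z a) x := by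
      intro x
      have := sub_smul_dslope F (z a) x
      rw [hFa, sub_zero, smul_eq_mul] at this
      exact this.symm
    have h1 : ∀ k ∈ s, dslope F (z a) (z k) = 0 := by
      intro k hk
      have hka : z k ≠ z a := by
        apply hne k (mem_insert_of_mem hk) a (mem_insert_self a s)
        rintro rfl
        exact ha hk
      have h2 := hfac (z k)
      rw [h0 k (mem_insert_of_mem hk)] at h2
      rcases mul_eq_zero.1 h2.symm with h3 | h3
      · exact absurd (sub_eq_zero.1 h3) hka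
      · exact h3
    obtain ⟨g, hg, hgx⟩ := ih (dslope F (z a)) hd h1
      (fun k hk l hl => hne k (mem_insert_of_mem hk) l (mem_insert_of_mem hl))
    refine ⟨g, hg, fun x => ?_⟩
    rw [prod_insert ha, hfac x, hgx x, mul_assoc]

open Finset in
theorem interp {f : ℂ → ℂ} (hf : Differentiable ℂ f) {κ : Type} [Fintype κ] (z : κ → ℂ)
    {r δ B MR : ℝ} (hr : 0 < r) (hδ : 0 < δ) (hδr : δ ≤ r) (hB0 : 0 ≤ B) (hMR0 : 0 ≤ MR)
    (hzr : ∀ k, ‖z k‖ ≤ r)
    (hsep : ∀ k l, k ≠ l → δ ≤ ‖z k - z l‖) (hB : ∀ k, ‖f (z k)‖ ≤ B)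
    (hMR : ∀ x, ‖x‖ = 7 * r → ‖f x‖ ≤ MR) (x : ℂ) (hx : ‖x‖ ≤ r) :
    ‖f x‖ ≤ MR * (1 / 3) ^ Fintype.card κ +
      2 * Fintype.card κ * B * (8 * r / δ) ^ Fintype.card κ := by
  classical
  set q := Fintype.card κ with hq
  -- the interpolant
  let L : ℂ → ℂ := fun y => ∑ k, f (z k) * ∏ l ∈ univ.erase k, ((y - z l) / (z k - z l))
  have hLd : Differentiable ℂ L := by
    intro y
    refine DifferentiableAt.fun_sum (fun k _ => ?_)
    refine DifferentiableAt.const_mul ?_ _
    refine DifferentiableAt.fun_finsetProd (fun l _ => ?_)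
    exact (differentiableAt_id.sub_const _).div_const _
  have hzne : ∀ k l, k ≠ l → z k ≠ z l := by
    intro k l hkl h
    have := hsep k l hkl
    rw [h, sub_self, norm_zero] at this
    linarith
  have hLz : ∀ k, L (z k) = f (z k) := by
    intro k
    show ∑ j, f (z j) * ∏ l ∈ univ.erase j, ((z k - z l) / (z j - z l)) = f (z k)
    rw [Finset.sum_eq_single k]
    · rw [Finset.prod_eq_one, mul_one]
      intro l hl
      have : z k - z l ≠ 0 := sub_ne_zero.2 (hzne k l (Finset.ne_of_mem_erase hl).symm)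
      exact div_self this
    · intro j _ hjk
      rw [Finset.prod_eq_zero (i := k), mul_zero]
      · exact Finset.mem_erase.2 ⟨hjk.symm, mem_univ _⟩
      · rw [sub_self, zero_div]
    · intro h; exact absurd (mem_univ k) h
  -- bound of the interpolant
  have hLb : ∀ (y : ℂ) (ρ : ℝ), ‖y‖ ≤ ρ → ‖L y‖ ≤ q * B * ((ρ + r) / δ) ^ (q - 1) := by
    intro y ρ hy
    have hρ : 0 ≤ ρ := (norm_nonneg y).trans hy
    have h1 : ‖L y‖ ≤ ∑ k : κ, B * ((ρ + r) / δ) ^ (q - 1) := by
      refine (norm_sum_le _ _).trans (Finset.sum_le_sum fun k _ => ?_)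
      rw [norm_mul]
      refine mul_le_mul (hB k) ?_ (norm_nonneg _) hB0
      rw [norm_prod]
      have h2 : ∏ l ∈ univ.erase k, ‖(y - z l) / (z k - z l)‖ ≤
          ∏ _l ∈ univ.erase k, ((ρ + r) / δ) := by
        refine Finset.prod_le_prod (fun l _ => norm_nonneg _) (fun l hl => ?_)
        rw [norm_div]
        have h3 : ‖y - z l‖ ≤ ρ + r := (norm_sub_le _ _).trans (add_le_add hy (hzr l))
        have h4 : δ ≤ ‖z k - z l‖ := hsep k l (Finset.ne_of_mem_erase hl).symm
        exact div_le_div₀ (by positivity) h3 hδ h4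
      refine h2.trans ?_
      rw [Finset.prod_const, Finset.card_erase_of_mem (mem_univ k), Finset.card_univ]
    refine h1.trans (le_of_eq ?_)
    rw [Finset.sum_const, Finset.card_univ, nsmul_eq_mul, mul_assoc]
  -- division
  obtain ⟨g, hg, hgx⟩ := exists_div z univ (fun y => f y - L y) (hf.sub hLd)
    (fun k _ => by simp [hLz k]) (fun k _ l _ h => hzne k l h)
  have hgx' : ∀ y, f y - L y = (∏ k, (y - z k)) * g y := hgx
  -- bound of `g` on the big circle
  have h6 : 0 < 6 * r := by positivity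
  have hgS : ∀ y : ℂ, ‖y‖ = 7 * r →
      ‖g y‖ ≤ (MR + q * B * (8 * r / δ) ^ (q - 1)) / (6 * r) ^ q := by
    intro y hy
    rw [le_div_iff₀ (pow_pos h6 q)]
    have hP : (6 * r) ^ q ≤ ‖∏ k, (y - z k)‖ := by
      rw [norm_prod]
      calc (6 * r) ^ q = ∏ _k : κ, (6 * r) := by rw [Finset.prod_const, Finset.card_univ]
        _ ≤ ∏ k, ‖y - z k‖ := by
            refine Finset.prod_le_prod (fun _ _ => h6.le) (fun k _ => ?_)
            have := norm_sub_norm_le y (z k)
            have h8 := hzr k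
            rw [hy] at this
            linarith
    calc ‖g y‖ * (6 * r) ^ q ≤ ‖g y‖ * ‖∏ k, (y - z k)‖ := by gcongr
      _ = ‖f y - L y‖ := by rw [hgx' y, norm_mul, mul_comm]
      _ ≤ ‖f y‖ + ‖L y‖ := norm_sub_le _ _
      _ ≤ MR + q * B * (8 * r / δ) ^ (q - 1) := by
          refine add_le_add (hMR y hy) ?_
          have := hLb y (7 * r) hy.le
          rwa [show 7 * r + r = 8 * r by ring] at this
  have hgB : ‖g x‖ ≤ (MR + q * B * (8 * r / δ) ^ (q - 1)) / (6 * r) ^ q := by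
    refine Complex.norm_le_of_forall_mem_frontier_norm_le (U := Metric.ball (0 : ℂ) (7 * r))
      Metric.isBounded_ball hg.diffContOnCl ?_ ?_
    · intro y hy
      rw [frontier_ball _ (by positivity : (7 * r) ≠ 0), mem_sphere_zero_iff_norm] at hy
      exact hgS y hy
    · apply subset_closure
      rw [mem_ball_zero_iff]
      linarith
  have hP2 : ‖∏ k, (x - z k)‖ ≤ (2 * r) ^ q := by
    rw [norm_prod]
    calc ∏ k, ‖x - z k‖ ≤ ∏ _k : κ, (2 * r) := by
            refine Finset.prod_le_prod (fun _ _ => norm_nonneg _) (fun k _ => ?_)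
            have := (norm_sub_le x (z k)).trans (add_le_add hx (hzr k))
            linarith
      _ = (2 * r) ^ q := by rw [Finset.prod_const, Finset.card_univ]
  have hLx := hLb x r hx
  have hE : 1 ≤ 8 * r / δ := by
    rw [le_div_iff₀ hδ]; linarith
  have hA : ((r + r) / δ) ^ (q - 1) ≤ (8 * r / δ) ^ q := by
    calc ((r + r) / δ) ^ (q - 1) ≤ (8 * r / δ) ^ (q - 1) := by
            refine pow_le_pow_left₀ (by positivity) ?_ _
            exact div_le_div_of_nonneg_right (by linarith) hδ.le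
      _ ≤ (8 * r / δ) ^ q := pow_le_pow_right₀ hE (Nat.sub_le q 1)
  have hA' : (8 * r / δ) ^ (q - 1) ≤ (8 * r / δ) ^ q := pow_le_pow_right₀ hE (Nat.sub_le q 1)
  have hqB : 0 ≤ (q : ℝ) * B := by positivity
  have h36 : (2 * r) ^ q / (6 * r) ^ q = (1 / 3 : ℝ) ^ q := by
    rw [← div_pow]
    congr 1
    field_simp
    norm_num
  have hthird : (1 / 3 : ℝ) ^ q ≤ 1 := pow_le_one₀ (by norm_num) (by norm_num)
  have hfin : ‖f x‖ ≤ ‖∏ k, (x - z k)‖ * ‖g x‖ + ‖L x‖ := by
    have h9 : f x = (∏ k, (x - z k)) * g x + L x := by rw [← hgx' x]; ring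
    calc ‖f x‖ = ‖(∏ k, (x - z k)) * g x + L x‖ := by rw [← h9]
      _ ≤ ‖(∏ k, (x - z k)) * g x‖ + ‖L x‖ := norm_add_le _ _
      _ = _ := by rw [norm_mul]
  have hPg : ‖∏ k, (x - z k)‖ * ‖g x‖ ≤
      (1 / 3 : ℝ) ^ q * (MR + q * B * (8 * r / δ) ^ (q - 1)) := by
    calc ‖∏ k, (x - z k)‖ * ‖g x‖ ≤
          (2 * r) ^ q * ((MR + q * B * (8 * r / δ) ^ (q - 1)) / (6 * r) ^ q) :=
            mul_le_mul hP2 hgB (norm_nonneg _) (by positivity)
      _ = (2 * r) ^ q / (6 * r) ^ q * (MR + q * B * (8 * r / δ) ^ (q - 1)) := by ring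
      _ = _ := by rw [h36]
  calc ‖f x‖ ≤ ‖∏ k, (x - z k)‖ * ‖g x‖ + ‖L x‖ := hfin
    _ ≤ (1 / 3 : ℝ) ^ q * (MR + q * B * (8 * r / δ) ^ (q - 1)) +
          q * B * ((r + r) / δ) ^ (q - 1) := add_le_add hPg hLx
    _ = MR * (1 / 3) ^ q + (1 / 3 : ℝ) ^ q * (q * B * (8 * r / δ) ^ (q - 1)) +
          q * B * ((r + r) / δ) ^ (q - 1) := by ring
    _ ≤ MR * (1 / 3) ^ q + 1 * (q * B * (8 * r / δ) ^ q) + q * B * (8 * r / δ) ^ q := by
        gcongr
    _ = MR * (1 / 3) ^ q + 2 * q * B * (8 * r / δ) ^ q := by ring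

end Pool.Agent.Helper18.RC
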