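import Mathlib

/-!
# Project RC, block RC11: the theorem of Kővári, Sós and Turán

Proof in words. Let `deg f = # {a | (a, f) ∈ G} ≤ q`, `e = G.card = ∑_f deg f`. By the power mean inequality
`e ^ m ≤ q ^ (m - 1) ∑_f (deg f) ^ m`. The sum `∑_f (deg f) ^ m` is the number of pairs `(f, a)`, `a : Fin m → E`
with `(a i, f) ∈ G` for all `i`. The non-injective `a` give at most `q * m ^ 2 * q ^ (m - 1)` pairs; for
each of the at most `q ^ m` injective `a` there are at most `m - 1` such `f` (hypothesis). So
`e ^ m ≤ q ^ (m - 1) * (m ^ 2 + m) * q ^ m`.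
-/

namespace Pool.Agent.Helper18.RC

private theorem noninj_card {E : Type*} [Fintype E] [DecidableEq E] (m : ℕ) :
    (Finset.univ.filter (fun a : Fin m → E => ¬ Function.Injective a)).card ≤
      m ^ 2 * Fintype.card E ^ (m - 1) := by
  classical
  have hsub : (Finset.univ.filter (fun a : Fin m → E => ¬ Function.Injective a)) ⊆
      (Finset.univ.filter (fun p : Fin m × Fin m => p.1 ≠ p.2)).biUnion
        (fun p => Finset.univ.filter (fun a : Fin m → E => a p.1 = a p.2)) := by
    intro a ha
    rw [Finset.mem_filter] at ha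
    have h := ha.2
    unfold Function.Injective at h
    push Not at h
    obtain ⟨i, j, hij, hne⟩ := h
    rw [Finset.mem_biUnion]
    exact ⟨(i, j), by simpa using hne, by simpa using hij⟩
  refine (Finset.card_le_card hsub).trans ?_
  refine Finset.card_biUnion_le.trans ?_
  have hone : ∀ p ∈ Finset.univ.filter (fun p : Fin m × Fin m => p.1 ≠ p.2),
      (Finset.univ.filter (fun a : Fin m → E => a p.1 = a p.2)).card ≤
        Fintype.card E ^ (m - 1) := by
    rintro ⟨i, j⟩ hp
    have hne : i ≠ j := by simpa using hp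
    have hcard : Fintype.card ({k : Fin m // k ≠ i} → E) = Fintype.card E ^ (m - 1) := by
      rw [Fintype.card_fun, Fintype.card_subtype_compl, Fintype.card_fin]
      simp
    rw [← hcard, ← Finset.card_univ]
    refine Finset.card_le_card_of_injOn (fun a k => a k.1) (fun _ _ => Finset.mem_coe.2 (Finset.mem_univ _)) ?_
    intro a ha b hb hab
    have ha' : a i = a j := by simpa using ha
    have hb' : b i = b j := by simpa using hb
    have hk : ∀ k, k ≠ i → a k = b k := fun k hk => congrFun hab ⟨k, hk⟩
    funext k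
    by_cases h : k = i
    · rw [h, ha', hb']
      exact hk j hne.symm
    · exact hk k h
  refine (Finset.sum_le_card_nsmul _ _ _ hone).trans ?_
  rw [smul_eq_mul]
  refine Nat.mul_le_mul_right _ ?_
  refine (Finset.card_filter_le _ _).trans ?_
  simp [sq]

theorem kst {E F : Type*} [Fintype E] [Fintype F] (m q : ℕ) (hm : 1 ≤ m)
    (hE : Fintype.card E ≤ q) (hF : Fintype.card F ≤ q) (G : Finset (E × F))
    (hfree : ∀ (a : Fin m → E) (b : Fin m → F), Function.Injective a → Function.Injective b →
      ¬ ∀ i j, (a i, b j) ∈ G) :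
    G.card ^ m ≤ (m ^ 2 + m) * q ^ (2 * m - 1) := by
  classical
  obtain ⟨k, rfl⟩ : ∃ k, m = k + 1 := ⟨m - 1, by omega⟩
  -- degrees
  have he : G.card = ∑ f : F, (Finset.univ.filter (fun a : E => (a, f) ∈ G)).card := by
    rw [← Finset.card_sigma]
    refine Finset.card_bij' (fun p _ => ⟨p.2, p.1⟩) (fun p _ => (p.2, p.1)) ?_ ?_ ?_ ?_
    · intro p hp; simpa using hp
    · intro p hp; simpa using hp
    · intro p hp; rfl
    · intro p hp; rfl
  have hpm : G.card ^ (k + 1) ≤ q ^ k *
      ∑ f : F, (Finset.univ.filter (fun a : E => (a, f) ∈ G)).card ^ (k + 1) := by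
    have h1 : (G.card : ℝ) ^ (k + 1) ≤ (Fintype.card F : ℝ) ^ k *
        ∑ f : F, ((Finset.univ.filter (fun a : E => (a, f) ∈ G)).card : ℝ) ^ (k + 1) := by
      rw [he]
      push_cast
      have := pow_sum_le_card_mul_sum_pow (s := (Finset.univ : Finset F))
        (f := fun f => ((Finset.univ.filter (fun a : E => (a, f) ∈ G)).card : ℝ))
        (fun _ _ => Nat.cast_nonneg _) k
      simpa using this
    have h2 : G.card ^ (k + 1) ≤ Fintype.card F ^ k *
        ∑ f : F, (Finset.univ.filter (fun a : E => (a, f) ∈ G)).card ^ (k + 1) := by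
      exact_mod_cast h1
    exact h2.trans (Nat.mul_le_mul_right _ (Nat.pow_le_pow_left hF k))
  have hcount : ∑ f : F, (Finset.univ.filter (fun a : E => (a, f) ∈ G)).card ^ (k + 1) =
      ∑ a : Fin (k + 1) → E, (Finset.univ.filter (fun f : F => ∀ i, (a i, f) ∈ G)).card := by
    have h1 : ∀ f : F, (Finset.univ.filter (fun a : E => (a, f) ∈ G)).card ^ (k + 1) =
        (Finset.univ.filter (fun a : Fin (k + 1) → E => ∀ i, (a i, f) ∈ G)).card := by
      intro f
      rw [← Fintype.card_piFinset_const]
      congr 1
      ext a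
      simp
    simp_rw [h1, Finset.card_filter]
    exact Finset.sum_comm
  have hbound : ∀ a : Fin (k + 1) → E,
      (Finset.univ.filter (fun f : F => ∀ i, (a i, f) ∈ G)).card ≤
        k + (if Function.Injective a then 0 else q) := by
    intro a
    by_cases ha : Function.Injective a
    · rw [if_pos ha, add_zero]
      by_contra hcon
      push Not at hcon
      obtain ⟨t, ht, htc⟩ := Finset.exists_subset_card_eq (Nat.succ_le_of_lt hcon)
      have hb := t.equivFinOfCardEq htc
      refine hfree a (fun j => (hb.symm j : F)) ha ?_ ?_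
      · intro i j hij
        exact hb.symm.injective (Subtype.ext hij)
      · intro i j
        have := ht (hb.symm j).2
        rw [Finset.mem_filter] at this
        exact this.2 i
    · rw [if_neg ha]
      have := Finset.card_filter_le (Finset.univ : Finset F) (fun f : F => ∀ i, (a i, f) ∈ G)
      rw [Finset.card_univ] at this
      omega
  have hsum : ∑ a : Fin (k + 1) → E, (Finset.univ.filter (fun f : F => ∀ i, (a i, f) ∈ G)).card ≤
      k * q ^ (k + 1) + (k + 1) ^ 2 * q ^ k * q := by
    refine (Finset.sum_le_sum fun a _ => hbound a).trans ?_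
    rw [Finset.sum_add_distrib]
    have h1 : ∑ _a : Fin (k + 1) → E, k ≤ k * q ^ (k + 1) := by
      rw [Finset.sum_const, Finset.card_univ, Fintype.card_fun, Fintype.card_fin, smul_eq_mul,
        mul_comm]
      exact Nat.mul_le_mul_left _ (Nat.pow_le_pow_left hE _)
    have h2 : ∑ a : Fin (k + 1) → E, (if Function.Injective a then 0 else q) ≤
        (k + 1) ^ 2 * q ^ k * q := by
      have h3 : ∑ a : Fin (k + 1) → E, (if Function.Injective a then 0 else q) =
          (Finset.univ.filter (fun a : Fin (k + 1) → E => ¬ Function.Injective a)).card * q := by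
        rw [Finset.card_filter, Finset.sum_mul]
        refine Finset.sum_congr rfl fun a _ => ?_
        by_cases ha : Function.Injective a <;> simp [ha]
      rw [h3]
      refine Nat.mul_le_mul_right _ ((noninj_card (k + 1)).trans ?_)
      exact Nat.mul_le_mul_left _ (Nat.pow_le_pow_left hE _)
    exact Nat.add_le_add h1 h2
  calc G.card ^ (k + 1) ≤ q ^ k * (k * q ^ (k + 1) + (k + 1) ^ 2 * q ^ k * q) := by
        refine hpm.trans (Nat.mul_le_mul_left _ ?_)
        rw [hcount]
        exact hsum
    _ ≤ ((k + 1) ^ 2 + (k + 1)) * q ^ (2 * (k + 1) - 1) := by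
        have h4 : 2 * (k + 1) - 1 = k + (k + 1) := by omega
        rw [h4]
        have h5 : q ^ k * (k * q ^ (k + 1) + (k + 1) ^ 2 * q ^ k * q) =
          ((k + 1) ^ 2 + k) * q ^ (k + (k + 1)) := by ring
        rw [h5]
        exact Nat.mul_le_mul_right _ (by omega)

end Pool.Agent.Helper18.RC
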