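import Pool.Agent.Helper18.RC.Defs

/-!
# Project RC, block RC1: the sum of the absolute values of the coefficients

Nine elementary lemmas on the norm `L1` of an integer polynomial.
-/

open MvPolynomial

namespace Pool.Agent.Helper18.RC

theorem L1_nonneg {σ : Type*} (P : MvPolynomial σ ℤ) : 0 ≤ L1 P :=
  Finset.sum_nonneg fun _ _ => abs_nonneg _

private theorem L1_eq_of_subset {σ : Type*} (P : MvPolynomial σ ℤ) {s : Finset (σ →₀ ℕ)} (h : P.support ⊆ s) :
    L1 P = ∑ m ∈ s, |((MvPolynomial.coeff m P : ℤ) : ℝ)| := by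
  refine Finset.sum_subset h fun m _ hm => ?_
  rw [MvPolynomial.notMem_support_iff.1 hm]
  simp

theorem L1_add {σ : Type*} (P Q : MvPolynomial σ ℤ) : L1 (P + Q) ≤ L1 P + L1 Q := by
  classical
  rw [L1_eq_of_subset (P + Q) MvPolynomial.support_add, L1_eq_of_subset P (Finset.subset_union_left (s₂ := Q.support)),
    L1_eq_of_subset Q (Finset.subset_union_right (s₁ := P.support)), ← Finset.sum_add_distrib]
  refine Finset.sum_le_sum fun m _ => ?_
  rw [MvPolynomial.coeff_add, Int.cast_add]
  exact abs_add_le _ _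

private theorem L1_zero {σ : Type*} : L1 (0 : MvPolynomial σ ℤ) = 0 := by
  simp [L1]

private theorem L1_monomial {σ : Type*} (m : σ →₀ ℕ) (a : ℤ) : L1 (monomial m a) = |(a : ℝ)| := by
  classical
  rw [L1_eq_of_subset (monomial m a) (s := {m}) MvPolynomial.support_monomial_subset, Finset.sum_singleton, MvPolynomial.coeff_monomial,
    if_pos rfl]

theorem L1_sum {σ κ : Type*} (s : Finset κ) (P : κ → MvPolynomial σ ℤ) :
    L1 (∑ i ∈ s, P i) ≤ ∑ i ∈ s, L1 (P i) := by
  classical
  induction s using Finset.induction_on with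
  | empty => simp [L1_zero]
  | insert i s hi ih =>
    rw [Finset.sum_insert hi, Finset.sum_insert hi]
    exact (L1_add _ _).trans (by linarith)

theorem L1_mul {σ : Type*} (P Q : MvPolynomial σ ℤ) : L1 (P * Q) ≤ L1 P * L1 Q := by
  have h1 : P * Q = ∑ m ∈ P.support, ∑ m' ∈ Q.support, monomial (m + m') (coeff m P * coeff m' Q) := by
    conv_lhs => rw [P.as_sum, Q.as_sum]
    rw [Finset.sum_mul_sum]
    refine Finset.sum_congr rfl fun m _ => Finset.sum_congr rfl fun m' _ => ?_
    rw [MvPolynomial.monomial_mul]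
  rw [h1]
  refine (L1_sum _ _).trans ?_
  unfold L1
  rw [Finset.sum_mul_sum]
  refine Finset.sum_le_sum fun m _ => ?_
  refine (L1_sum _ _).trans (le_of_eq ?_)
  refine Finset.sum_congr rfl fun m' _ => ?_
  rw [L1_monomial, Int.cast_mul, abs_mul]

theorem L1_C {σ : Type*} (a : ℤ) : L1 (C a : MvPolynomial σ ℤ) = |(a : ℝ)| :=
  L1_monomial 0 a

theorem L1_X {σ : Type*} (i : σ) : L1 (X i : MvPolynomial σ ℤ) = 1 := by
  have h := L1_monomial (Finsupp.single i 1) 1
  rw [Int.cast_one, abs_one] at h
  exact h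

private theorem L1_one {σ : Type*} : L1 (1 : MvPolynomial σ ℤ) = 1 := by
  have h := L1_C (σ := σ) 1
  rw [Int.cast_one, abs_one, map_one] at h
  exact h

theorem L1_pow {σ : Type*} (P : MvPolynomial σ ℤ) (n : ℕ) : L1 (P ^ n) ≤ L1 P ^ n := by
  induction n with
  | zero => rw [pow_zero, pow_zero, L1_one]
  | succ n ih =>
    rw [pow_succ, pow_succ]
    exact (L1_mul _ _).trans (mul_le_mul_of_nonneg_right ih (L1_nonneg P))

theorem L1_prod {σ κ : Type*} (s : Finset κ) (P : κ → MvPolynomial σ ℤ) :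
    L1 (∏ i ∈ s, P i) ≤ ∏ i ∈ s, L1 (P i) := by
  classical
  induction s using Finset.induction_on with
  | empty => simp [L1_one]
  | insert i s hi ih =>
    rw [Finset.prod_insert hi, Finset.prod_insert hi]
    exact (L1_mul _ _).trans (mul_le_mul_of_nonneg_left ih (L1_nonneg _))

theorem L1_rename {σ τ : Type*} (f : σ → τ) (hf : Function.Injective f) (P : MvPolynomial σ ℤ) :
    L1 (rename f P) = L1 P := by
  classical
  unfold L1
  rw [MvPolynomial.support_rename_of_injective hf, Finset.sum_image (fun a _ b _ h => Finsupp.mapDomain_injective hf h)]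
  refine Finset.sum_congr rfl fun m _ => ?_
  rw [MvPolynomial.coeff_rename_mapDomain f hf]

end Pool.Agent.Helper18.RC
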