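import Pool.Agent.Helper18.RC.Rank

/-!
# Project RC, block RC6: Liouville's inequality and linear forms in algebraic numbers

Both follow from the case `t = 0` of `rank_lemma`.
-/

open MvPolynomial

namespace Pool.Agent.Helper18.RC

/-- Liouville's inequality: the case `t = 0` of the rank lemma. -/
theorem liouville {ι : Type} [Fintype ι] (y : ι → ℂ) (hy : ∀ i, IsAlgebraic ℚ (y i)) :
    ∃ C : ℝ, 0 < C ∧ ∀ (M : ℕ) (P : MvPolynomial ι ℤ), 1 ≤ M → P.totalDegree ≤ M →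
      L1 P ≤ Real.exp M → aeval y P ≠ 0 → Real.exp (-(C * M)) ≤ ‖aeval y P‖ := by
  have h0 : ∀ i, AlgOver (fun j : Fin 0 => (j.elim0 : ℂ)) (y i) := fun i =>
    (hy i).extendScalars (algebraMap ℚ _).injective
  obtain ⟨C, hC, h⟩ := rank_lemma y (fun j : Fin 0 => (j.elim0 : ℂ)) h0
  refine ⟨C, hC, fun M P hM hd hL hne => ?_⟩
  by_contra hlt
  have hlt : ‖aeval y P‖ < Real.exp (-(C * M)) := lt_of_not_ge hlt
  have hpos : 0 < ‖aeval y P‖ := norm_pos_iff.2 hne
  refine h M (fun _ => P) hM (fun _ => hd) (fun _ => hL) (fun _ => hne) ?_ (fun j => j.elim0)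
  have h1 : Real.log ‖aeval y P‖ < -(C * M) := (Real.log_lt_iff_lt_exp hpos).2 hlt
  rw [zero_add, pow_one]
  linarith

/-- A lower bound for linear forms in linearly independent algebraic numbers (from `liouville` with the
polynomial `∑ a_i X_i`, `M = ⌈log (m H)⌉ + 1`). -/
theorem linear_form {m : ℕ} (β : Fin m → ℂ) (hβ : ∀ i, IsAlgebraic ℚ (β i))
    (hli : LinearIndependent ℚ β) :
    ∃ C : ℝ, 0 < C ∧ ∃ κ : ℕ, ∀ (a : Fin m → ℤ) (H : ℝ), a ≠ 0 → 1 ≤ H →
      (∀ i, |(a i : ℝ)| ≤ H) → 1 ≤ C * H ^ κ * ‖∑ i, (a i : ℂ) * β i‖ := by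
  obtain ⟨C, hC, h⟩ := liouville β hβ
  obtain ⟨κ, hκ⟩ : ∃ κ : ℕ, C ≤ κ := ⟨⌈C⌉₊, Nat.le_ceil C⟩
  have hm1 : (0 : ℝ) < (m : ℝ) + 1 := by positivity
  refine ⟨Real.exp (2 * κ) * ((m : ℝ) + 1) ^ κ, by positivity, κ, ?_⟩
  intro a H ha hH haH
  have hH0 : 0 < H := by linarith
  have hX : 1 ≤ ((m : ℝ) + 1) * H := by nlinarith [Nat.cast_nonneg (α := ℝ) m]
  have hX0 : 0 < ((m : ℝ) + 1) * H := by linarith
  have hlog : 0 ≤ Real.log (((m : ℝ) + 1) * H) := Real.log_nonneg hX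
  -- the polynomial
  set P : MvPolynomial (Fin m) ℤ := ∑ i, MvPolynomial.C (a i) * X i with hP
  have hev : aeval β P = ∑ i, (a i : ℂ) * β i := by
    rw [hP, map_sum]
    refine Finset.sum_congr rfl fun i _ => ?_
    rw [map_mul, aeval_X, aeval_C]
    simp
  have hne : aeval β P ≠ 0 := by
    rw [hev]
    intro h0
    apply ha
    have h1 : ∑ i, (a i : ℚ) • β i = 0 := by
      rw [← h0]
      refine Finset.sum_congr rfl fun i _ => ?_
      rw [Algebra.smul_def]
      simp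
    have h2 := Fintype.linearIndependent_iff.1 hli (fun i => (a i : ℚ)) h1
    funext i
    exact_mod_cast h2 i
  set M : ℕ := ⌈Real.log (((m : ℝ) + 1) * H)⌉₊ + 1 with hM
  have hM1 : 1 ≤ M := by omega
  have hMle : (M : ℝ) ≤ Real.log (((m : ℝ) + 1) * H) + 2 := by
    rw [hM]
    push_cast
    linarith [Nat.ceil_lt_add_one hlog]
  have hMge : Real.log (((m : ℝ) + 1) * H) ≤ M := by
    rw [hM]
    push_cast
    linarith [Nat.le_ceil (Real.log (((m : ℝ) + 1) * H))]
  have hdeg : P.totalDegree ≤ M := by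
    refine (totalDegree_finsetSum _ _).trans (Finset.sup_le fun i _ => ?_)
    refine (totalDegree_mul _ _).trans ?_
    rw [totalDegree_C, totalDegree_X]
    omega
  have hL : L1 P ≤ Real.exp M := by
    have h1 : L1 P ≤ ∑ i : Fin m, H := by
      refine (L1_sum _ _).trans (Finset.sum_le_sum fun i _ => ?_)
      refine (L1_mul _ _).trans ?_
      rw [L1_C, L1_X, mul_one]
      exact haH i
    have h2 : ∑ i : Fin m, H = (m : ℝ) * H := by simp
    have h3 : (m : ℝ) * H ≤ ((m : ℝ) + 1) * H := by nlinarith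
    have h4 : ((m : ℝ) + 1) * H ≤ Real.exp M := (Real.log_le_iff_le_exp hX0).1 hMge
    linarith
  have key := h M P hM1 hdeg hL hne
  rw [hev] at key
  have h5 : Real.exp (C * M) ≤ Real.exp (2 * κ) * ((m : ℝ) + 1) ^ κ * H ^ κ := by
    have h6 : Real.exp (2 * κ) * ((m : ℝ) + 1) ^ κ * H ^ κ =
        Real.exp ((Real.log (((m : ℝ) + 1) * H) + 2) * κ) := by
      rw [add_mul, Real.exp_add, mul_comm (Real.log _) (κ : ℝ), ← Real.log_pow, Real.exp_log (by positivity),
        mul_pow]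
      ring
    rw [h6, Real.exp_le_exp, mul_comm]
    have hκ0 : (0 : ℝ) ≤ κ := Nat.cast_nonneg κ
    exact mul_le_mul hMle hκ hC.le (by linarith)
  have h7 : 1 = Real.exp (C * M) * Real.exp (-(C * M)) := by
    rw [← Real.exp_add]
    simp
  calc (1 : ℝ) = Real.exp (C * M) * Real.exp (-(C * M)) := h7
    _ ≤ _ := mul_le_mul h5 key (Real.exp_pos _).le (by positivity)

end Pool.Agent.Helper18.RC
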