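import Pool.Agent.Helper18.RC.Rank
import Pool.Agent.Helper18.RC.Lio
import Pool.Agent.Helper18.RC.Interp

/-!
# Project RC, block RC4: small values with two-sided control, and the rectangle theorem

Proof of `exists_poly` in words. `L = N ^ 2`; unknown integers `φ_λ`, `λ ∈ {0..L-1} ^ m` (`n = N ^ (2 m)`);
`f(z) = ∑ φ_λ exp (θ (λ · β) z)`; points `z_k = k · γ`;
`f(z_k) = ∑ φ_λ ∏_(i,j) y_(i,j) ^ (λ_i k_j) = aeval y P_k`. `siegel` for the `N ^ m` equations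
`f(z_k) = 0`, `k ∈ {0..N-1} ^ m`, degree `M = m² N ^ 3` (each `L1 = 1`): `N ^ (2 m) ≥ C N ^ m (M + 1) ^ t` for
`m ≥ 3 t + 1` and `N` large; so `log |φ| ≤ C' N ^ 3`. With `r = c N ^ 3` containing all `z_k`,
`k ∈ {0..N^3-1} ^ m`, and `Ω ≤ c N ^ 2`: on `‖x‖ = 7 r`, `‖f‖ ≤ exp (C' N ^ 5)`. `interp` with the `N ^ m`
zeros gives `‖f‖ ≤ exp (C' N ^ 5) 3 ^ (- N ^ m) ≤ exp (- N ^ m)` on `‖x‖ ≤ r` (`m ≥ 6`). `coeff_bound`:
`sup_(‖x‖ ≤ 1) ‖f‖ ≥ exp (- N ^ (2 m + 1))`. `interp` with the `N ^ (3 m)` points `z_k`,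
`k ∈ {0..N^3-1} ^ m`: some `‖f(z_k)‖ ≥ exp (- N ^ (3 m + 1))`. Differences of the `z_k` and of the
frequencies are bounded below by `linear_form`.

`rectangle` from `exists_poly` and `rank_lemma`: `m_0 = 6 t + 13`, `m_(j+1) = 3 m_j + 6 t + 2`,
`m = m_t`, sub-rectangles `m_j × m_j`, all at the same `N`, `M = N ^ 6`.
-/

open MvPolynomial Filter Asymptotics

namespace Pool.Agent.Helper18.RC

/-- logarithmic growth is eventually dominated by linear growth -/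
theorem ev_log (a b : ℝ) : ∀ᶠ N : ℕ in atTop, a * Real.log N + b ≤ N := by
  have h1 : (fun x : ℝ => a * Real.log x + b) =o[atTop] (fun x : ℝ => x) := by
    refine IsLittleO.add ?_ ?_
    · exact (Real.isLittleO_log_id_atTop).const_mul_left a
    · exact isLittleO_const_left.2 (Or.inr (tendsto_norm_atTop_atTop.comp tendsto_id))
  have h2 := (h1.comp_tendsto tendsto_natCast_atTop_atTop).bound (c := 1) one_pos
  filter_upwards [h2] with N hN
  simp only [Function.comp_apply, Real.norm_eq_abs, one_mul, Nat.abs_cast] at hN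
  exact (le_abs_self _).trans hN

/-- The monomial `∏ X_(i,j) ^ (l_i k_j)`. -/
noncomputable def QQ {m : ℕ} (l k : Fin m → ℕ) : MvPolynomial (Fin m × Fin m) ℤ :=
  ∏ p : Fin m × Fin m, X p ^ (l p.1 * k p.2)

theorem QQ_deg {m : ℕ} (l k : Fin m → ℕ) {a b : ℕ} (hl : ∀ i, l i ≤ a) (hk : ∀ i, k i ≤ b) :
    (QQ l k).totalDegree ≤ m * m * (a * b) := by
  unfold QQ
  refine (totalDegree_finsetProd _ _).trans ?_
  calc ∑ p : Fin m × Fin m, (X p ^ (l p.1 * k p.2) : MvPolynomial (Fin m × Fin m) ℤ).totalDegree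
      ≤ ∑ p : Fin m × Fin m, a * b := by
        refine Finset.sum_le_sum fun p _ => ?_
        refine (totalDegree_pow _ _).trans ?_
        rw [totalDegree_X, mul_one]
        exact Nat.mul_le_mul (hl _) (hk _)
    _ = m * m * (a * b) := by
        simp

theorem QQ_L1 {m : ℕ} (l k : Fin m → ℕ) : L1 (QQ l k) ≤ 1 := by
  unfold QQ
  refine (L1_prod _ _).trans ?_
  calc ∏ p : Fin m × Fin m, L1 (X p ^ (l p.1 * k p.2) : MvPolynomial (Fin m × Fin m) ℤ)
      ≤ ∏ p : Fin m × Fin m, (1 : ℝ) := by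
        refine Finset.prod_le_prod (fun p _ => L1_nonneg _) fun p _ => ?_
        refine (L1_pow _ _).trans ?_
        rw [L1_X, one_pow]
    _ = 1 := by simp

theorem QQ_eval {m : ℕ} (θ : ℂ) (β γ : Fin m → ℂ) (l k : Fin m → ℕ) :
    aeval (fun p : Fin m × Fin m => Complex.exp (θ * β p.1 * γ p.2)) (QQ l k) =
      Complex.exp (θ * (∑ i, (l i : ℂ) * β i) * ∑ j, (k j : ℂ) * γ j) := by
  unfold QQ
  rw [map_prod]
  simp only [map_pow, aeval_X]
  simp only [← Complex.exp_nat_mul]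
  rw [← Complex.exp_sum]
  congr 1
  rw [Fintype.sum_prod_type, mul_assoc, Finset.sum_mul_sum, Finset.mul_sum]
  refine Finset.sum_congr rfl fun i _ => ?_
  rw [Finset.mul_sum]
  refine Finset.sum_congr rfl fun j _ => ?_
  push_cast
  ring


/-- Separation of the values of a linear form. -/
theorem sep_lemma {m : ℕ} {θ : ℂ} (hθ : θ ≠ 0) (β : Fin m → ℂ) (hβ : ∀ i, IsAlgebraic ℚ (β i))
    (hli : LinearIndependent ℚ β) :
    ∃ D : ℝ, 1 ≤ D ∧ ∃ κ : ℕ, ∀ (a b : Fin m → ℕ) (H : ℕ), a ≠ b → 1 ≤ H → (∀ i, a i ≤ H) →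
      (∀ i, b i ≤ H) →
      1 / (D * (H : ℝ) ^ κ) ≤ ‖θ * (∑ i, (a i : ℂ) * β i) - θ * ∑ i, (b i : ℂ) * β i‖ := by
  obtain ⟨C, hC, κ, h⟩ := linear_form β hβ hli
  have hθ' : 0 < ‖θ‖ := norm_pos_iff.2 hθ
  refine ⟨1 + C / ‖θ‖, by have := div_pos hC hθ'; linarith, κ, ?_⟩
  intro a b H hab hH ha hb
  have h1 := h (fun i => (a i : ℤ) - (b i : ℤ)) H (by
    intro h0
    apply hab
    funext i
    have := congrFun h0 i
    simp only [Pi.zero_apply, sub_eq_zero] at this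
    exact_mod_cast this) (by exact_mod_cast hH) (by
    intro i
    have h1 : (a i : ℝ) ≤ H := by exact_mod_cast ha i
    have h2 : (b i : ℝ) ≤ H := by exact_mod_cast hb i
    have h3 : (0 : ℝ) ≤ a i := Nat.cast_nonneg _
    have h4 : (0 : ℝ) ≤ b i := Nat.cast_nonneg _
    push_cast
    rw [abs_le]
    constructor <;> linarith)
  have hHκ : (1 : ℝ) ≤ (H : ℝ) ^ κ := one_le_pow₀ (by exact_mod_cast hH)
  have h2 : θ * (∑ i, (a i : ℂ) * β i) - θ * ∑ i, (b i : ℂ) * β i =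
      θ * ∑ i, (((a i : ℤ) - (b i : ℤ) : ℤ) : ℂ) * β i := by
    rw [← mul_sub, ← Finset.sum_sub_distrib]
    congr 1
    refine Finset.sum_congr rfl fun i _ => ?_
    push_cast
    ring
  rw [h2, norm_mul]
  set V := ‖∑ i, (((a i : ℤ) - (b i : ℤ) : ℤ) : ℂ) * β i‖
  have hV : 0 ≤ V := norm_nonneg _
  rw [div_le_iff₀ (by positivity)]
  have h3 : C * (H : ℝ) ^ κ * V = ‖θ‖ * V * ((C / ‖θ‖) * (H : ℝ) ^ κ) := by
    field_simp
  rw [h3] at h1
  refine h1.trans ?_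
  refine mul_le_mul_of_nonneg_left ?_ (by positivity)
  refine mul_le_mul_of_nonneg_right ?_ (by positivity)
  linarith

theorem ev1 {m t C : ℕ} (hm : 6 ≤ m) (hmt : 3 * t + 1 ≤ m) : ∀ᶠ N : ℕ in atTop,
    C * N ^ m * (m * m * (N ^ 2 * N) + 1) ^ t ≤ (N ^ 2) ^ m := by
  filter_upwards [eventually_ge_atTop (C * (2 * (m * m)) ^ t + 1)] with N hN
  have hN1 : 1 ≤ N := by omega
  have h1 : m * m * (N ^ 2 * N) + 1 ≤ 2 * (m * m) * N ^ 3 := by
    have h2 : 1 ≤ m * m * N ^ 3 := by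
      have : 0 < m * m * N ^ 3 := by positivity
      omega
    have h3 : m * m * (N ^ 2 * N) = m * m * N ^ 3 := by ring
    rw [h3]
    nlinarith
  calc C * N ^ m * (m * m * (N ^ 2 * N) + 1) ^ t
      ≤ C * N ^ m * (2 * (m * m) * N ^ 3) ^ t :=
        Nat.mul_le_mul_left _ (Nat.pow_le_pow_left h1 _)
    _ = (C * (2 * (m * m)) ^ t) * (N ^ m * N ^ (3 * t)) := by
        rw [mul_pow, ← pow_mul]; ring
    _ ≤ N * (N ^ m * N ^ (3 * t)) := Nat.mul_le_mul_right _ (by omega)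
    _ = N ^ (m + (3 * t + 1)) := by ring
    _ ≤ N ^ (m + m) := Nat.pow_le_pow_right hN1 (by omega)
    _ = (N ^ 2) ^ m := by rw [← pow_mul]; congr 1; ring

theorem ev2 {m : ℕ} : ∀ᶠ N : ℕ in atTop, m * m * (N ^ 2 * N ^ 3) ≤ N ^ 6 := by
  filter_upwards [eventually_ge_atTop (m * m)] with N hN
  calc m * m * (N ^ 2 * N ^ 3) ≤ N * (N ^ 2 * N ^ 3) := Nat.mul_le_mul_right _ hN
    _ = N ^ 6 := by ring

theorem ev3 {m C : ℕ} (hC : 0 < C) : ∀ᶠ N : ℕ in atTop,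
    (((N ^ 2) ^ m : ℕ) : ℝ) * ((((N ^ 2) ^ m : ℕ) : ℝ) * 1 * (C : ℝ) ^ (m * m * (N ^ 2 * N) + 1)) ≤
      Real.exp ((N : ℝ) ^ 4) := by
  filter_upwards [ev_log (4 * m) 0, eventually_ge_atTop (1 + C * (m * m) + C)] with N h1 h2
  have hN1 : (1 : ℝ) ≤ N := by
    have : 1 ≤ N := by omega
    exact_mod_cast this
  have hN0 : (0 : ℝ) < N := by linarith
  have hC' : (0 : ℝ) < C := by exact_mod_cast hC
  have h3 : (((N ^ 2) ^ m : ℕ) : ℝ) = Real.exp (2 * m * Real.log N) := by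
    rw [mul_comm (2 * (m : ℝ)), Real.exp_mul, Real.exp_log hN0]
    have : (2 * (m : ℝ)) = ((2 * m : ℕ) : ℝ) := by push_cast; ring
    rw [this, Real.rpow_natCast]
    push_cast
    rw [pow_mul]
  have h4 : (C : ℝ) ^ (m * m * (N ^ 2 * N) + 1) ≤
      Real.exp (C * (m * m * (N ^ 2 * N) + 1)) := by
    have h5 : (C : ℝ) ≤ Real.exp C := by
      have := Real.add_one_le_exp (C : ℝ)
      linarith
    calc (C : ℝ) ^ (m * m * (N ^ 2 * N) + 1) ≤ (Real.exp C) ^ (m * m * (N ^ 2 * N) + 1) :=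
          pow_le_pow_left₀ hC'.le h5 _
      _ = Real.exp (C * (m * m * (N ^ 2 * N) + 1)) := by
          rw [← Real.exp_nat_mul]
          congr 1
          push_cast
          ring
  rw [h3, mul_one]
  calc Real.exp (2 * m * Real.log N) * (Real.exp (2 * m * Real.log N) *
        (C : ℝ) ^ (m * m * (N ^ 2 * N) + 1))
      ≤ Real.exp (2 * m * Real.log N) * (Real.exp (2 * m * Real.log N) *
        Real.exp (C * (m * m * (N ^ 2 * N) + 1))) := by
        gcongr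
    _ = Real.exp (4 * m * Real.log N + 0 + C * (m * m * (N ^ 2 * N) + 1)) := by
        rw [← Real.exp_add, ← Real.exp_add]
        congr 1
        ring
    _ ≤ Real.exp ((N : ℝ) ^ 4) := by
        refine Real.exp_le_exp.2 ?_
        have h6 : (1 : ℝ) + C * (m * m) + C ≤ N := by exact_mod_cast h2
        have h7 : (1 : ℝ) ≤ (N : ℝ) ^ 3 := one_le_pow₀ hN1
        have h8 : (N : ℝ) ≤ (N : ℝ) ^ 3 := by
          calc (N : ℝ) = (N : ℝ) ^ 1 := (pow_one _).symm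
            _ ≤ (N : ℝ) ^ 3 := pow_le_pow_right₀ hN1 (by norm_num)
        have h9 : (1 + C * (m * m) + C) * (N : ℝ) ^ 3 ≤ N * (N : ℝ) ^ 3 :=
          mul_le_mul_of_nonneg_right h6 (by positivity)
        nlinarith [mul_le_mul_of_nonneg_left h7 hC'.le]

theorem ev4 {m : ℕ} (hm : 6 ≤ m) (A : ℝ) : ∀ᶠ N : ℕ in atTop,
    A * (N : ℝ) ^ 5 + (N : ℝ) ^ m ≤ Real.log 3 * (N : ℝ) ^ m := by
  have hc : 0 < Real.log 3 - 1 := by
    have := Real.lt_log_iff_exp_lt (x := 1) (y := 3) (by norm_num)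
    have h2 := this.2 (by have := Real.exp_one_lt_d9; linarith)
    linarith
  filter_upwards [eventually_ge_atTop ⌈|A| / (Real.log 3 - 1)⌉₊, eventually_ge_atTop 1] with N h1 h2
  have h3 : |A| / (Real.log 3 - 1) ≤ N := (Nat.le_ceil _).trans (by exact_mod_cast h1)
  rw [div_le_iff₀ hc] at h3
  have hN1 : (1 : ℝ) ≤ N := by exact_mod_cast h2
  have h4 : (N : ℝ) * (N : ℝ) ^ 5 ≤ (N : ℝ) ^ m := by
    calc (N : ℝ) * (N : ℝ) ^ 5 = (N : ℝ) ^ 6 := by ring
      _ ≤ (N : ℝ) ^ m := pow_le_pow_right₀ hN1 hm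
  have h5 : A ≤ N * (Real.log 3 - 1) := (le_abs_self A).trans h3
  have h6 : A * (N : ℝ) ^ 5 ≤ N * (Real.log 3 - 1) * (N : ℝ) ^ 5 :=
    mul_le_mul_of_nonneg_right h5 (by positivity)
  nlinarith

theorem ev5 (K b : ℝ) (p : ℕ) (hK : 0 < K) : ∀ᶠ N : ℕ in atTop,
    K * (N : ℝ) ^ p < Real.exp (N - b) := by
  filter_upwards [ev_log p (Real.log K + b + 1), eventually_ge_atTop 1] with N h1 h2
  have hN1 : (1 : ℝ) ≤ N := by exact_mod_cast h2
  have hN0 : (0 : ℝ) < N := by linarith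
  have h3 : K * (N : ℝ) ^ p = Real.exp (Real.log K + p * Real.log N) := by
    rw [Real.exp_add, Real.exp_log hK, mul_comm (p : ℝ), Real.exp_mul, Real.exp_log hN0,
      Real.rpow_natCast]
  rw [h3]
  exact Real.exp_lt_exp.2 (by linarith)

theorem ev7 {m : ℕ} (hm : 6 ≤ m) (A : ℝ) (hA : 0 ≤ A) : ∀ᶠ N : ℕ in atTop,
    1 + A * (N : ℝ) ^ 5 + (N : ℝ) ^ (2 * m + 1) < (N : ℝ) ^ (3 * m) := by
  filter_upwards [eventually_gt_atTop ⌈A + 2⌉₊, eventually_ge_atTop 1] with N h1 h2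
  have h3 : A + 2 < N := lt_of_le_of_lt (Nat.le_ceil _) (by exact_mod_cast h1)
  have hN1 : (1 : ℝ) ≤ N := by exact_mod_cast h2
  have h4 : (N : ℝ) ^ 5 ≤ (N : ℝ) ^ (2 * m + 1) := pow_le_pow_right₀ hN1 (by omega)
  have h5 : (1 : ℝ) ≤ (N : ℝ) ^ (2 * m + 1) := one_le_pow₀ hN1
  have h6 : (N : ℝ) * (N : ℝ) ^ (2 * m + 1) ≤ (N : ℝ) ^ (3 * m) := by
    calc (N : ℝ) * (N : ℝ) ^ (2 * m + 1) = (N : ℝ) ^ (2 * m + 2) := by ring
      _ ≤ (N : ℝ) ^ (3 * m) := pow_le_pow_right₀ hN1 (by omega)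
  have h7 : A * (N : ℝ) ^ 5 ≤ A * (N : ℝ) ^ (2 * m + 1) := mul_le_mul_of_nonneg_left h4 hA
  have h8 : (A + 2) * (N : ℝ) ^ (2 * m + 1) < N * (N : ℝ) ^ (2 * m + 1) :=
    mul_lt_mul_of_pos_right h3 (by linarith)
  linarith

/-- The analytic core: an exponential polynomial with integer coefficients which is zero at the points
`z k`, `k < N`, is small but not too small. -/
theorem core {m N : ℕ} {B0 G D₁ D₂ A Hc : ℝ} {κ₁ κ₂ : ℕ} (hN : 1 ≤ N)
    (hB0 : 0 ≤ B0) (hG : 1 ≤ G) (hD₁ : 1 ≤ D₁) (hD₂ : 1 ≤ D₂) (hA : 7 * G * B0 + 1 = A)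
    (ω : (Fin m → ℕ) → ℂ) (z : (Fin m → ℕ) → ℂ)
    (hω : ∀ l : Fin m → Fin (N ^ 2), ‖ω (fun i => l i)‖ ≤ B0 * N ^ 2)
    (hz : ∀ k : Fin m → Fin (N ^ 3), ‖z (fun i => k i)‖ ≤ G * N ^ 3)
    (hωs : ∀ l l' : Fin m → Fin (N ^ 2), l ≠ l' →
      1 / (D₁ * ((N ^ 2 : ℕ) : ℝ) ^ κ₁) ≤ ‖ω (fun i => l i) - ω (fun i => l' i)‖)
    (hzs : ∀ k k' : Fin m → Fin (N ^ 3), k ≠ k' →
      1 / (D₂ * ((N ^ 3 : ℕ) : ℝ) ^ κ₂) ≤ ‖z (fun i => k i) - z (fun i => k' i)‖)
    (c : (Fin m → Fin (N ^ 2)) → ℤ) (hc : c ≠ 0) (hcb : ∀ l, |(c l : ℝ)| ≤ Hc)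
    (hHc : (((N ^ 2) ^ m : ℕ) : ℝ) * Hc ≤ Real.exp ((N : ℝ) ^ 4))
    (h0 : ∀ k : Fin m → Fin N, ∑ l, (c l : ℂ) * Complex.exp (ω (fun i => l i) * z (fun i => k i)) = 0)
    (e4 : A * (N : ℝ) ^ 5 + (N : ℝ) ^ m ≤ Real.log 3 * (N : ℝ) ^ m)
    (e5 : (1 + B0) * D₁ * (N : ℝ) ^ (2 * m + 2 + 2 * κ₁) < Real.exp (N - 0))
    (e6 : 8 * G * D₂ * (N : ℝ) ^ (3 + 3 * κ₂) < Real.exp (N - 2))
    (e7 : 1 + A * (N : ℝ) ^ 5 + (N : ℝ) ^ (2 * m + 1) < (N : ℝ) ^ (3 * m)) :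
    ∃ k : Fin m → Fin (N ^ 3),
      Real.exp (-(N : ℝ) ^ (3 * m + 1)) ≤
        ‖∑ l, (c l : ℂ) * Complex.exp (ω (fun i => l i) * z (fun i => k i))‖ ∧
      ‖∑ l, (c l : ℂ) * Complex.exp (ω (fun i => l i) * z (fun i => k i))‖ ≤
        Real.exp (-(N : ℝ) ^ m) := by
  classical
  have hN1 : (1 : ℝ) ≤ N := by exact_mod_cast hN
  have hN0 : (0 : ℝ) < N := by linarith
  set f : ℂ → ℂ := fun x => ∑ l, (c l : ℂ) * Complex.exp (ω (fun i => l i) * x) with hf
  have hfd : Differentiable ℂ f := by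
    rw [hf]
    fun_prop
  set r : ℝ := G * N ^ 3 with hr
  have hr1 : 1 ≤ r := by
    have : (1 : ℝ) ≤ (N : ℝ) ^ 3 := one_le_pow₀ hN1
    rw [hr]; nlinarith
  have hHc0 : 0 ≤ Hc := by
    obtain ⟨l, -⟩ := Function.ne_iff.1 hc
    exact (abs_nonneg _).trans (hcb l)
  -- the bound on a disc
  have hfb : ∀ x : ℂ, ‖x‖ ≤ 7 * r → ‖f x‖ ≤ Real.exp (A * (N : ℝ) ^ 5) := by
    intro x hx
    have h1 : ‖f x‖ ≤ ∑ l : Fin m → Fin (N ^ 2), Hc * Real.exp (B0 * N ^ 2 * (7 * r)) := by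
      refine (norm_sum_le _ _).trans (Finset.sum_le_sum fun l _ => ?_)
      rw [norm_mul, Complex.norm_intCast]
      refine mul_le_mul (hcb l) ?_ (norm_nonneg _) hHc0
      rw [Complex.norm_exp]
      refine Real.exp_le_exp.2 ((Complex.re_le_norm _).trans ?_)
      rw [norm_mul]
      exact mul_le_mul (hω l) hx (norm_nonneg _) (by positivity)
    refine h1.trans ?_
    rw [Finset.sum_const, nsmul_eq_mul, Finset.card_univ, Fintype.card_fun, Fintype.card_fin,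
      Fintype.card_fin, ← mul_assoc]
    refine (mul_le_mul_of_nonneg_right hHc (Real.exp_pos _).le).trans ?_
    rw [← Real.exp_add]
    refine Real.exp_le_exp.2 ?_
    rw [hr, ← hA]
    have h2 : (N : ℝ) ^ 4 ≤ (N : ℝ) ^ 5 := pow_le_pow_right₀ hN1 (by norm_num)
    nlinarith
  -- upper bound
  have hup : ∀ x : ℂ, ‖x‖ ≤ r → ‖f x‖ ≤ Real.exp (-(N : ℝ) ^ m) := by
    intro x hx
    have hNN : N ≤ N ^ 3 := Nat.le_self_pow (by norm_num) N
    set κe : (Fin m → Fin N) → (Fin m → Fin (N ^ 3)) := fun k i => ⟨(k i : ℕ),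
      lt_of_lt_of_le (k i).2 hNN⟩ with hκe
    have hκinj : ∀ k l : Fin m → Fin N, k ≠ l → κe k ≠ κe l := by
      intro k l hkl h
      apply hkl
      funext i
      have := congrFun h i
      simp only [hκe, Fin.mk.injEq] at this
      exact Fin.ext this
    have hδ2 : 1 / (D₂ * ((N ^ 3 : ℕ) : ℝ) ^ κ₂) ≤ r := by
      refine le_trans ?_ hr1
      rw [div_le_one (by positivity)]
      have : (1 : ℝ) ≤ ((N ^ 3 : ℕ) : ℝ) ^ κ₂ := by
        refine one_le_pow₀ ?_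
        push_cast
        exact one_le_pow₀ hN1
      nlinarith
    have h1 := interp hfd (κ := Fin m → Fin N) (fun k => z (fun i => k i)) (r := r)
      (δ := 1 / (D₂ * ((N ^ 3 : ℕ) : ℝ) ^ κ₂)) (B := 0) (MR := Real.exp (A * (N : ℝ) ^ 5))
      (by linarith) (by positivity) hδ2 le_rfl (Real.exp_pos _).le
      (fun k => hz (κe k)) (fun k l hkl => hzs (κe k) (κe l) (hκinj k l hkl))
      (fun k => by rw [hf]; simp only; rw [h0 k, norm_zero]) (fun x hx => hfb x hx.le) x hx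
    refine h1.trans ?_
    rw [mul_zero, zero_mul, add_zero, Fintype.card_fun, Fintype.card_fin, Fintype.card_fin]
    have h3 : (1 / 3 : ℝ) = Real.exp (-Real.log 3) := by
      rw [Real.exp_neg, Real.exp_log (by norm_num)]
      norm_num
    rw [h3, ← Real.exp_nat_mul, ← Real.exp_add]
    refine Real.exp_le_exp.2 ?_
    push_cast
    linarith
  -- first lower bound
  set n : ℕ := (N ^ 2) ^ m with hn
  have hn1 : 1 ≤ n := Nat.one_le_iff_ne_zero.2 (by positivity)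
  have hnR : (n : ℝ) = (N : ℝ) ^ (2 * m) := by rw [hn]; push_cast; rw [pow_mul]
  have hlow1 : ∃ x₀ : ℂ, ‖x₀‖ ≤ 1 ∧ Real.exp (-(N : ℝ) ^ (2 * m + 1)) < ‖f x₀‖ := by
    by_contra hcon
    push Not at hcon
    obtain ⟨l₀, hl₀⟩ := Function.ne_iff.1 hc
    set δ : ℝ := 1 / (D₁ * ((N ^ 2 : ℕ) : ℝ) ^ κ₁) with hδ
    have hPκ : (1 : ℝ) ≤ ((N ^ 2 : ℕ) : ℝ) ^ κ₁ := by
      refine one_le_pow₀ ?_
      push_cast
      exact one_le_pow₀ hN1
    have hδ1 : δ ≤ 1 := by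
      rw [hδ, div_le_one (by positivity)]
      nlinarith
    have hδ0 : 0 < δ := by positivity
    have h1 := coeff_bound (κ := Fin m → Fin (N ^ 2)) (fun l => ω (fun i => l i)) c
      (Ω := B0 * N ^ 2) (δ := δ) (B := Real.exp (-(N : ℝ) ^ (2 * m + 1))) hδ0 hδ1 hω
      (Real.exp_pos _).le hωs hl₀ (fun x hx => hcon x hx)
    have hcard : Fintype.card (Fin m → Fin (N ^ 2)) = n := by
      rw [Fintype.card_fun, Fintype.card_fin, Fintype.card_fin]
    rw [hcard] at h1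
    have h2 : (n.factorial : ℝ) ≤ (n : ℝ) ^ n := by exact_mod_cast Nat.factorial_le_pow n
    have h3 : Real.exp (-(N : ℝ) ^ (2 * m + 1)) = (Real.exp (-N)) ^ n := by
      rw [← Real.exp_nat_mul]
      congr 1
      rw [hnR]
      ring
    have h4 : δ ^ n ≤ (Real.exp (-N) * n * (1 + B0 * N ^ 2)) ^ n := by
      rw [mul_pow, mul_pow, ← h3]
      refine h1.trans ?_
      gcongr
    have h5 : Real.exp (-N) * n * (1 + B0 * N ^ 2) < δ := by
      rw [hδ, lt_div_iff₀ (by positivity), Real.exp_neg, mul_assoc, mul_assoc,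
        inv_mul_lt_iff₀ (Real.exp_pos _), mul_one]
      rw [sub_zero] at e5
      refine lt_of_le_of_lt ?_ e5
      have h6 : (1 : ℝ) + B0 * N ^ 2 ≤ (1 + B0) * N ^ 2 := by
        have : (1 : ℝ) ≤ (N : ℝ) ^ 2 := one_le_pow₀ hN1
        nlinarith
      calc (n : ℝ) * ((1 + B0 * N ^ 2) * (D₁ * ((N ^ 2 : ℕ) : ℝ) ^ κ₁))
          ≤ (n : ℝ) * (((1 + B0) * N ^ 2) * (D₁ * ((N ^ 2 : ℕ) : ℝ) ^ κ₁)) := by
            gcongr
        _ = (1 + B0) * D₁ * (N : ℝ) ^ (2 * m + 2 + 2 * κ₁) := by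
            rw [hnR]
            push_cast
            rw [← pow_mul, pow_add, pow_add]
            ring
    have h6 : (Real.exp (-N) * n * (1 + B0 * N ^ 2)) ^ n < δ ^ n :=
      pow_lt_pow_left₀ h5 (by positivity) (by omega)
    linarith
  obtain ⟨x₀, hx₀, hfx₀⟩ := hlow1
  -- second lower bound
  have hlow2 : ∃ k : Fin m → Fin (N ^ 3), Real.exp (-(N : ℝ) ^ (3 * m + 1)) ≤
      ‖f (z (fun i => k i))‖ := by
    by_contra hcon
    push Not at hcon
    set q : ℕ := (N ^ 3) ^ m with hq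
    have hqR : (q : ℝ) = (N : ℝ) ^ (3 * m) := by rw [hq]; push_cast; rw [pow_mul]
    have hPκ : (1 : ℝ) ≤ ((N ^ 3 : ℕ) : ℝ) ^ κ₂ := by
      refine one_le_pow₀ ?_
      push_cast
      exact one_le_pow₀ hN1
    set δ : ℝ := 1 / (D₂ * ((N ^ 3 : ℕ) : ℝ) ^ κ₂) with hδ
    have hδ0 : 0 < δ := by positivity
    have hδ1 : δ ≤ r := by
      refine le_trans ?_ hr1
      rw [hδ, div_le_one (by positivity)]
      nlinarith
    have h1 := interp hfd (κ := Fin m → Fin (N ^ 3)) (fun k => z (fun i => k i)) (r := r)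
      (δ := δ) (B := Real.exp (-(N : ℝ) ^ (3 * m + 1))) (MR := Real.exp (A * (N : ℝ) ^ 5))
      (by linarith) hδ0 hδ1 (Real.exp_pos _).le (Real.exp_pos _).le
      hz hzs (fun k => (hcon k).le) (fun x hx => hfb x hx.le) x₀ (hx₀.trans hr1)
    have hcard : Fintype.card (Fin m → Fin (N ^ 3)) = q := by
      rw [Fintype.card_fun, Fintype.card_fin, Fintype.card_fin]
    rw [hcard] at h1
    have h3 : Real.exp (-(N : ℝ) ^ (3 * m + 1)) = (Real.exp (-N)) ^ q := by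
      rw [← Real.exp_nat_mul]
      congr 1
      rw [hqR]
      ring
    have h4 : Real.exp (-N) * (8 * r / δ) ≤ Real.exp (-2) := by
      have h5 : 8 * r / δ = 8 * G * D₂ * (N : ℝ) ^ (3 + 3 * κ₂) := by
        rw [hδ, hr]
        push_cast
        rw [← pow_mul, pow_add]
        field_simp
      rw [h5]
      have h6 : Real.exp (-N) * Real.exp (N - 2) = Real.exp (-2) := by
        rw [← Real.exp_add]; congr 1; ring
      rw [← h6]
      gcongr
    have h7 : 2 * (q : ℝ) * Real.exp (-(N : ℝ) ^ (3 * m + 1)) * (8 * r / δ) ^ q ≤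
        Real.exp (-(q : ℝ)) := by
      rw [h3, mul_assoc, ← mul_pow]
      have h8 : 2 * (q : ℝ) ≤ Real.exp q := by
        have h9 := Real.add_one_le_exp ((q : ℝ) / 2)
        have h10 : (q : ℝ) / 2 + 1 ≥ 0 := by positivity
        have h11 : ((q : ℝ) / 2 + 1) ^ 2 ≤ Real.exp ((q : ℝ) / 2) ^ 2 :=
          pow_le_pow_left₀ h10 h9 2
        rw [← Real.exp_nat_mul] at h11
        have h12 : ((2 : ℕ) : ℝ) * ((q : ℝ) / 2) = q := by push_cast; ring
        rw [h12] at h11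
        nlinarith [sq_nonneg ((q : ℝ) / 2 - 1)]
      have h9 : (Real.exp (-N) * (8 * r / δ)) ^ q ≤ Real.exp (-2) ^ q :=
        pow_le_pow_left₀ (by positivity) h4 q
      calc 2 * (q : ℝ) * (Real.exp (-N) * (8 * r / δ)) ^ q
          ≤ Real.exp q * Real.exp (-2) ^ q := by gcongr
        _ = Real.exp (-(q : ℝ)) := by
            rw [← Real.exp_nat_mul, ← Real.exp_add]
            congr 1
            ring
    have h8 : Real.exp (A * (N : ℝ) ^ 5) * (1 / 3) ^ q ≤ Real.exp (A * (N : ℝ) ^ 5 - q) := by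
      rw [sub_eq_add_neg, Real.exp_add]
      refine mul_le_mul_of_nonneg_left ?_ (Real.exp_pos _).le
      have h9 : Real.exp (-(q : ℝ)) = Real.exp (-1) ^ q := by
        rw [← Real.exp_nat_mul]; congr 1; ring
      rw [h9]
      refine pow_le_pow_left₀ (by norm_num) ?_ q
      rw [Real.exp_neg, one_div]
      exact inv_anti₀ (Real.exp_pos _) (by have := Real.exp_one_lt_d9; linarith)
    have h9 : Real.exp (-(q : ℝ)) ≤ Real.exp (A * (N : ℝ) ^ 5 - q) := by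
      refine Real.exp_le_exp.2 ?_
      have : 0 ≤ A * (N : ℝ) ^ 5 := by
        rw [← hA]; positivity
      linarith
    have h10 : ‖f x₀‖ ≤ 2 * Real.exp (A * (N : ℝ) ^ 5 - q) := by
      refine h1.trans ?_
      linarith
    have h11 : 2 * Real.exp (A * (N : ℝ) ^ 5 - q) ≤ Real.exp (1 + A * (N : ℝ) ^ 5 - q) := by
      have h12 : (2 : ℝ) ≤ Real.exp 1 := by have := Real.add_one_le_exp (1 : ℝ); linarith
      calc 2 * Real.exp (A * (N : ℝ) ^ 5 - q) ≤ Real.exp 1 * Real.exp (A * (N : ℝ) ^ 5 - q) := by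
            gcongr
        _ = Real.exp (1 + A * (N : ℝ) ^ 5 - q) := by rw [← Real.exp_add]; congr 1; ring
    have h12 : Real.exp (1 + A * (N : ℝ) ^ 5 - q) < Real.exp (-(N : ℝ) ^ (2 * m + 1)) := by
      refine Real.exp_lt_exp.2 ?_
      rw [hqR]
      linarith
    linarith
  obtain ⟨k, hk⟩ := hlow2
  exact ⟨k, hk, hup _ (hz k)⟩

theorem exists_poly {t m : ℕ} (hm : 6 ≤ m) (hmt : 3 * t + 1 ≤ m) {θ : ℂ} (hθ : θ ≠ 0)
    (β γ : Fin m → ℂ) (hβ : ∀ i, IsAlgebraic ℚ (β i)) (hγ : ∀ i, IsAlgebraic ℚ (γ i))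
    (hβl : LinearIndependent ℚ β) (hγl : LinearIndependent ℚ γ) (w : Fin t → ℂ)
    (hy : ∀ i j, AlgOver w (Complex.exp (θ * β i * γ j))) :
    ∃ N₀ : ℕ, ∀ N ≥ N₀, ∃ P : MvPolynomial (Fin m × Fin m) ℤ,
      P.totalDegree ≤ N ^ 6 ∧ L1 P ≤ Real.exp ((N : ℝ) ^ 6) ∧
      Real.exp (-(N : ℝ) ^ (3 * m + 1)) ≤
        ‖aeval (fun p : Fin m × Fin m => Complex.exp (θ * β p.1 * γ p.2)) P‖ ∧
      ‖aeval (fun p : Fin m × Fin m => Complex.exp (θ * β p.1 * γ p.2)) P‖ ≤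
        Real.exp (-(N : ℝ) ^ m) := by
  classical
  obtain ⟨C, hC, hS⟩ := siegel (fun p : Fin m × Fin m => Complex.exp (θ * β p.1 * γ p.2)) w
    (fun p => hy p.1 p.2)
  obtain ⟨D₁, hD₁, κ₁, hsep₁⟩ := sep_lemma hθ β hβ hβl
  obtain ⟨D₂, hD₂, κ₂, hsep₂⟩ := sep_lemma one_ne_zero γ hγ hγl
  set B0 : ℝ := ‖θ‖ * ∑ i, ‖β i‖ with hB0
  set G : ℝ := 1 + ∑ i, ‖γ i‖ with hG
  have hB0' : 0 ≤ B0 := by positivity
  have hG' : 1 ≤ G := by
    have : 0 ≤ ∑ i, ‖γ i‖ := by positivity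
    linarith
  have e5 := ev5 ((1 + B0) * D₁) 0 (2 * m + 2 + 2 * κ₁) (by positivity)
  have e6 := ev5 (8 * G * D₂) 2 (3 + 3 * κ₂) (by positivity)
  refine eventually_atTop.1 ?_
  filter_upwards [ev1 (C := C) hm hmt, ev2 (m := m), ev3 (m := m) hC, ev4 hm (7 * G * B0 + 1), e5, e6,
    ev7 hm (7 * G * B0 + 1) (by positivity), eventually_ge_atTop 1] with N e1 e2 e3 e4 e5 e6 e7 hN
  have hN1 : (1 : ℝ) ≤ N := by exact_mod_cast hN
  have hNpos : 0 < N := hN
  have hκpos : 0 < Fintype.card (Fin m → Fin (N ^ 2)) := by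
    rw [Fintype.card_fun, Fintype.card_fin, Fintype.card_fin]
    positivity
  obtain ⟨c, hc0, hcb, hcz⟩ := hS (κ := Fin m → Fin (N ^ 2)) (η := Fin m → Fin N)
    (m * m * (N ^ 2 * N)) 1 (fun l k => QQ (fun i => (l i : ℕ)) (fun j => (k j : ℕ))) le_rfl
    (fun l k => QQ_deg _ _ (fun i => (l i).2.le) (fun j => (k j).2.le)) (fun l k => QQ_L1 _ _)
    hκpos (by
      rw [Fintype.card_fun, Fintype.card_fin, Fintype.card_fin, Fintype.card_fun, Fintype.card_fin,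
        Fintype.card_fin]
      exact e1)
  rw [Fintype.card_fun, Fintype.card_fin, Fintype.card_fin] at hcb
  have hHc := e3
  obtain ⟨k, hk1, hk2⟩ := core (m := m) (N := N) (B0 := B0) (G := G) (D₁ := D₁) (D₂ := D₂)
    (A := 7 * G * B0 + 1)
    (Hc := (((N ^ 2) ^ m : ℕ) : ℝ) * 1 * (C : ℝ) ^ (m * m * (N ^ 2 * N) + 1))
    (κ₁ := κ₁) (κ₂ := κ₂) hN hB0' hG' hD₁ hD₂ rfl
    (fun l => θ * ∑ i, (l i : ℂ) * β i) (fun k => ∑ j, (k j : ℂ) * γ j)
    (by
      intro l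
      simp only
      rw [norm_mul, hB0, mul_assoc]
      refine mul_le_mul_of_nonneg_left ?_ (norm_nonneg _)
      refine (norm_sum_le _ _).trans ?_
      rw [Finset.sum_mul]
      refine Finset.sum_le_sum fun i _ => ?_
      rw [norm_mul, Complex.norm_natCast, mul_comm]
      refine mul_le_mul_of_nonneg_left ?_ (norm_nonneg _)
      exact_mod_cast (l i).2.le)
    (by
      intro k
      simp only
      refine (norm_sum_le _ _).trans ?_
      have h1 : ∑ j, ‖((k j : ℕ) : ℂ) * γ j‖ ≤ ∑ j, ‖γ j‖ * (N : ℝ) ^ 3 := by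
        refine Finset.sum_le_sum fun i _ => ?_
        rw [norm_mul, Complex.norm_natCast, mul_comm]
        refine mul_le_mul_of_nonneg_left ?_ (norm_nonneg _)
        exact_mod_cast (k i).2.le
      refine h1.trans ?_
      rw [← Finset.sum_mul]
      refine mul_le_mul_of_nonneg_right ?_ (by positivity)
      rw [hG]
      linarith)
    (by
      intro l l' hll
      refine hsep₁ _ _ (N ^ 2) ?_ (Nat.one_le_pow _ _ hN) (fun i => (l i).2.le)
        (fun i => (l' i).2.le)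
      intro h
      apply hll
      funext i
      exact Fin.ext (congrFun h i))
    (by
      intro l l' hll
      have := hsep₂ (fun i => (l i : ℕ)) (fun i => (l' i : ℕ)) (N ^ 3) (by
        intro h
        apply hll
        funext i
        exact Fin.ext (congrFun h i)) (Nat.one_le_pow _ _ hN) (fun i => (l i).2.le)
        (fun i => (l' i).2.le)
      simpa only [one_mul] using this)
    c hc0 hcb hHc
    (by
      intro k
      have := hcz k
      simpa only [QQ_eval] using this)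
    e4 e5 e6 e7
  refine ⟨∑ l, MvPolynomial.C (c l) * QQ (fun i => (l i : ℕ)) (fun j => (k j : ℕ)), ?_, ?_, ?_⟩
  · refine totalDegree_finsetSum_le fun l _ => ?_
    refine (totalDegree_mul _ _).trans ?_
    rw [totalDegree_C, zero_add]
    exact (QQ_deg _ _ (fun i => (l i).2.le) (fun j => (k j).2.le)).trans e2
  · refine (L1_sum _ _).trans ?_
    have h1 : ∀ l : Fin m → Fin (N ^ 2),
        L1 (MvPolynomial.C (c l) * QQ (fun i => (l i : ℕ)) (fun j => (k j : ℕ))) ≤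
        (((N ^ 2) ^ m : ℕ) : ℝ) * 1 * (C : ℝ) ^ (m * m * (N ^ 2 * N) + 1) := by
      intro l
      refine (L1_mul _ _).trans ?_
      rw [L1_C]
      calc |(c l : ℝ)| * L1 (QQ (fun i => (l i : ℕ)) (fun j => (k j : ℕ)))
          ≤ |(c l : ℝ)| * 1 := mul_le_mul_of_nonneg_left (QQ_L1 _ _) (abs_nonneg _)
        _ = |(c l : ℝ)| := mul_one _
        _ ≤ _ := hcb l
    refine (Finset.sum_le_sum fun l _ => h1 l).trans ?_
    rw [Finset.sum_const, nsmul_eq_mul, Finset.card_univ, Fintype.card_fun, Fintype.card_fin,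
      Fintype.card_fin]
    refine hHc.trans (Real.exp_le_exp.2 ?_)
    exact pow_le_pow_right₀ hN1 (by norm_num)
  · have h1 : aeval (fun p : Fin m × Fin m => Complex.exp (θ * β p.1 * γ p.2))
        (∑ l : Fin m → Fin (N ^ 2), MvPolynomial.C (c l) *
          QQ (fun i => (l i : ℕ)) (fun j => (k j : ℕ))) =
        ∑ l : Fin m → Fin (N ^ 2), (c l : ℂ) * Complex.exp ((θ * ∑ i, ((l i : ℕ) : ℂ) * β i) *
          ∑ j, ((k j : ℕ) : ℂ) * γ j) := by
      rw [map_sum]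
      refine Finset.sum_congr rfl fun l _ => ?_
      rw [map_mul, QQ_eval]
      congr 1
      simp
    rw [h1]
    exact ⟨hk1, hk2⟩

/-- The sizes of the sub-rectangles. -/
def mm (t : ℕ) : ℕ → ℕ
  | 0 => 6 * t + 13
  | j + 1 => 3 * mm t j + 6 * t + 2

theorem mm_le_succ (t j : ℕ) : mm t j ≤ mm t (j + 1) := by
  simp only [mm]
  omega

theorem mm_mono (t : ℕ) : Monotone (mm t) := monotone_nat_of_le_succ (mm_le_succ t)

theorem mm_ge (t j : ℕ) : 6 * t + 13 ≤ mm t j := mm_mono t (Nat.zero_le j)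

/-- **The rectangle theorem.** -/
theorem rectangle (t : ℕ) : ∃ m : ℕ, ∀ (θ : ℂ), θ ≠ 0 → ∀ (β γ : Fin m → ℂ),
    (∀ i, IsAlgebraic ℚ (β i)) → (∀ i, IsAlgebraic ℚ (γ i)) →
    LinearIndependent ℚ β → LinearIndependent ℚ γ → ∀ w : Fin t → ℂ,
    ¬ ∀ i j, AlgOver w (Complex.exp (θ * β i * γ j)) := by
  refine ⟨mm t t, ?_⟩
  intro θ hθ β γ hβ hγ hβl hγl w hall
  have hle : ∀ j : Fin (t + 1), mm t j ≤ mm t t := fun j => mm_mono t (Nat.lt_succ_iff.1 j.2)
  have hex := fun j : Fin (t + 1) => exists_poly (t := t) (m := mm t j)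
    (by have := mm_ge t j; omega) (by have := mm_ge t j; omega) hθ
    (fun i => β (Fin.castLE (hle j) i)) (fun i => γ (Fin.castLE (hle j) i))
    (fun i => hβ _) (fun i => hγ _)
    (hβl.comp _ (Fin.castLE_injective (hle j))) (hγl.comp _ (Fin.castLE_injective (hle j))) w
    (fun i k => hall _ _)
  choose N₀ hN₀ using hex
  obtain ⟨C, hC, hR⟩ := rank_lemma (fun p : Fin (mm t t) × Fin (mm t t) =>
    Complex.exp (θ * β p.1 * γ p.2)) w (fun p => hall p.1 p.2)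
  set N : ℕ := (∑ j, N₀ j) + ⌈C⌉₊ + 1 with hN
  have hNj : ∀ j, N₀ j ≤ N := by
    intro j
    have := Finset.single_le_sum (f := N₀) (fun i _ => Nat.zero_le _) (Finset.mem_univ j)
    omega
  have hN1 : (1 : ℝ) ≤ N := by
    have : 1 ≤ N := by omega
    exact_mod_cast this
  have hN0 : (0 : ℝ) < N := by linarith
  have hCN : C ≤ N := (Nat.le_ceil C).trans (by
    have : ⌈C⌉₊ ≤ N := by omega
    exact_mod_cast this)
  choose P hP1 hP2 hP3 hP4 using fun j : Fin (t + 1) => hN₀ j N (hNj j)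
  have hinj : ∀ j : Fin (t + 1), Function.Injective
      (Prod.map (Fin.castLE (hle j)) (Fin.castLE (hle j))) := fun j =>
    Function.Injective.prodMap (Fin.castLE_injective (hle j)) (Fin.castLE_injective (hle j))
  have hval : ∀ j : Fin (t + 1), aeval (fun p : Fin (mm t t) × Fin (mm t t) =>
      Complex.exp (θ * β p.1 * γ p.2))
      (rename (Prod.map (Fin.castLE (hle j)) (Fin.castLE (hle j))) (P j)) =
      aeval (fun p : Fin (mm t j) × Fin (mm t j) => Complex.exp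
        (θ * β (Fin.castLE (hle j) p.1) * γ (Fin.castLE (hle j) p.2))) (P j) := by
    intro j
    rw [aeval_rename]
    rfl
  have hpos : ∀ j : Fin (t + 1), 0 < ‖aeval (fun p : Fin (mm t j) × Fin (mm t j) => Complex.exp
        (θ * β (Fin.castLE (hle j) p.1) * γ (Fin.castLE (hle j) p.2))) (P j)‖ := fun j =>
    lt_of_lt_of_le (Real.exp_pos _) (hP3 j)
  have hup : ∀ j : Fin (t + 1), (N : ℝ) ^ (mm t j) ≤ -Real.log ‖aeval (fun p : Fin (mm t j) ×
      Fin (mm t j) => Complex.exp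
        (θ * β (Fin.castLE (hle j) p.1) * γ (Fin.castLE (hle j) p.2))) (P j)‖ := by
    intro j
    have h1 := Real.log_le_log (hpos j) (hP4 j)
    rw [Real.log_exp] at h1
    linarith
  have hlow : ∀ j : Fin (t + 1), -Real.log ‖aeval (fun p : Fin (mm t j) ×
      Fin (mm t j) => Complex.exp
        (θ * β (Fin.castLE (hle j) p.1) * γ (Fin.castLE (hle j) p.2))) (P j)‖ ≤
        (N : ℝ) ^ (3 * mm t j + 1) := by
    intro j
    have h1 := Real.log_le_log (Real.exp_pos _) (hP3 j)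
    rw [Real.log_exp] at h1
    linarith
  refine hR (N ^ 6) (fun j => rename (Prod.map (Fin.castLE (hle j)) (Fin.castLE (hle j))) (P j))
    (Nat.one_le_pow _ _ (by omega)) ?_ ?_ ?_ ?_ ?_
  · intro j
    exact (totalDegree_rename_le _ _).trans (hP1 j)
  · intro j
    rw [L1_rename _ (hinj j)]
    push_cast
    exact hP2 j
  · intro j
    rw [hval j]
    exact norm_pos_iff.1 (hpos j)
  · rw [hval 0]
    refine le_trans ?_ (hup 0)
    push_cast
    calc C * ((N : ℝ) ^ 6) ^ (t + 1) ≤ N * ((N : ℝ) ^ 6) ^ (t + 1) := by gcongr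
      _ = (N : ℝ) ^ (6 * t + 7) := by rw [← pow_mul]; ring
      _ ≤ (N : ℝ) ^ (mm t (0 : Fin (t + 1))) := pow_le_pow_right₀ hN1 (by
          have := mm_ge t ((0 : Fin (t + 1)) : ℕ)
          omega)
  · intro j
    rw [hval, hval]
    refine le_trans ?_ (hup j.succ)
    push_cast
    have h1 := hlow j.castSucc
    calc C * ((N : ℝ) ^ 6) ^ t * (-Real.log ‖_‖)
        ≤ N * ((N : ℝ) ^ 6) ^ t * (N : ℝ) ^ (3 * mm t (j.castSucc : Fin (t + 1)) + 1) := by
          have h2 : 0 ≤ -Real.log ‖aeval (fun p : Fin (mm t (j.castSucc : Fin (t + 1))) ×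
            Fin (mm t (j.castSucc : Fin (t + 1))) => Complex.exp
            (θ * β (Fin.castLE (hle j.castSucc) p.1) * γ (Fin.castLE (hle j.castSucc) p.2)))
              (P j.castSucc)‖ := le_trans (by positivity) (hup j.castSucc)
          exact mul_le_mul (by gcongr) h1 h2 (by positivity)
      _ = (N : ℝ) ^ (3 * mm t (j.castSucc : Fin (t + 1)) + 6 * t + 2) := by
          rw [← pow_mul]; ring
      _ = (N : ℝ) ^ (mm t (j.succ : Fin (t + 1))) := by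
          congr 1

end Pool.Agent.Helper18.RC
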