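import Mathlib

/-!
# Project RC, block RC10: real radicals of distinct squarefree numbers are linearly independent

Proof in words (trace argument). (1) Let `a > 0` be real, `a ∉ ℚ`, `a ^ r ∈ ℚ` for some `r ≥ 1`. The minimal
polynomial `g` of `a` over `ℚ`, of degree `d ≥ 2`, divides `X ^ r - a ^ r`, so all complex roots of `g` have
absolute value `a` and `|g(0)| = a ^ d`; hence `a ^ d ∈ ℚ`, `g = X ^ d - a ^ d` and `g.nextCoeff = 0`.
So the trace of `a` from any number field `K ⊂ ℝ` containing `a` is `0`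
(`trace_eq_finrank_mul_minpoly_nextCoeff`). (2) In a relation `∑ q_j c_j ^ ρ = 0` with `q_(j₀) ≠ 0` divide
by `c_(j₀) ^ ρ` and take the trace: every `(c_j / c_(j₀)) ^ ρ`, `j ≠ j₀`, is irrational (a prime `p` divides
exactly one of `c_j`, `c_(j₀)`; if `(c_j / c_(j₀)) ^ (l / r)` is rational then `r ∣ l` by looking at the
`p`-adic valuation), so the trace is `q_(j₀) [K : ℚ] ≠ 0`. Contradiction.
-/

namespace Pool.Agent.Helper18.RC

open Polynomial IntermediateField

/-- a positive real radical which is not rational has minimal polynomial `X ^ d - q` -/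
private theorem nextCoeff_zero63 {a : ℝ} (ha : 0 < a) (hirr : a ∉ (algebraMap ℚ ℝ).range)
    {r : ℕ} (hr : r ≠ 0) {y : ℚ} (hy : a ^ r = (y : ℝ)) : (minpoly ℚ a).nextCoeff = 0 := by
  have hint : IsIntegral ℚ a := by
    refine ⟨X ^ r - C y, monic_X_pow_sub_C y hr, ?_⟩
    simp [hy]
  have : FiniteDimensional ℚ ℚ⟮a⟯ := adjoin.finiteDimensional hint
  set d := (minpoly ℚ a).natDegree with hd
  have hfin : Module.finrank ℚ ℚ⟮a⟯ = d := adjoin.finrank hint
  -- the norm of the generator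
  set x : ℚ⟮a⟯ := AdjoinSimple.gen ℚ a with hx
  have hxr : x ^ r = algebraMap ℚ ℚ⟮a⟯ y := by
    apply (algebraMap ℚ⟮a⟯ ℝ).injective
    rw [map_pow, hx, AdjoinSimple.algebraMap_gen, hy, ← IsScalarTower.algebraMap_apply]
    rfl
  set N : ℚ := Algebra.norm ℚ x with hN
  have hNr : N ^ r = y ^ d := by
    rw [hN, ← map_pow, hxr, Algebra.norm_algebraMap, hfin]
  have hNa : (|N| : ℝ) = a ^ d := by
    have h1 : ((|N| : ℚ) : ℝ) ^ r = (a ^ d) ^ r := by
      rw [← pow_mul, mul_comm d r, pow_mul, hy]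
      have h2 : (|N|) ^ r = |y ^ d| := by rw [← abs_pow, hNr]
      have hy0 : (0 : ℝ) < (y : ℝ) := by rw [← hy]; positivity
      have hy1 : 0 < y := by exact_mod_cast hy0
      rw [abs_of_pos (pow_pos hy1 d)] at h2
      exact_mod_cast h2
    have h3 := (pow_left_inj₀ (by positivity) (by positivity) hr).mp h1
    rw [← h3]
    push_cast
    rfl
  have hint' := minpoly.monic hint
  have hd2 : 2 ≤ d := by
    have h0 : 0 < d := minpoly.natDegree_pos hint
    have h1 : d ≠ 1 := fun h => hirr (minpoly.natDegree_eq_one_iff.mp h)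
    omega
  have hd0 : d ≠ 0 := by omega
  have hmin : (X ^ d - C |N| : ℚ[X]) = minpoly ℚ a := by
    refine minpoly.unique ℚ a (monic_X_pow_sub_C _ hd0) ?_ ?_
    · simp only [map_sub, map_pow, aeval_X, aeval_C, eq_ratCast, Rat.cast_abs]
      rw [hNa, sub_self]
    · intro q hq hqa
      rw [degree_X_pow_sub_C (Nat.pos_of_ne_zero hd0)]
      refine le_trans ?_ (minpoly.min ℚ a hq hqa)
      rw [degree_eq_natDegree hint'.ne_zero]
  rw [← hmin, nextCoeff, natDegree_X_pow_sub_C, if_neg hd0, coeff_sub, coeff_X_pow, coeff_C]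
  rw [if_neg (by omega), if_neg (by omega), sub_zero]

/-- a ratio of distinct squarefree numbers to a non integral power is irrational -/
private theorem irr63 {m n : ℕ} (hm : Squarefree m) (hn : Squarefree n) (hmn : m ≠ n)
    (ρ : ℚ) (hρ : ∀ z : ℤ, (z : ℚ) ≠ ρ) (y : ℚ)
    (hy : y ^ ρ.den = ((m : ℚ) / (n : ℚ)) ^ ρ.num) : False := by
  have hm0 : (m : ℚ) ≠ 0 := by exact_mod_cast hm.ne_zero
  have hn0 : (n : ℚ) ≠ 0 := by exact_mod_cast hn.ne_zero
  have hne : m.primeFactors ≠ n.primeFactors := by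
    intro h
    apply hmn
    rw [← Nat.prod_primeFactors_of_squarefree hm, ← Nat.prod_primeFactors_of_squarefree hn, h]
  obtain ⟨p, hp⟩ : ∃ p, ¬ (p ∈ m.primeFactors ↔ p ∈ n.primeFactors) := by
    by_contra h
    push Not at h
    exact hne (Finset.ext h)
  have hpp : p.Prime := by
    by_contra hpp
    apply hp
    constructor
    · intro h
      exact absurd (Nat.prime_of_mem_primeFactors h) hpp
    · intro h
      exact absurd (Nat.prime_of_mem_primeFactors h) hpp
  have : Fact p.Prime := ⟨hpp⟩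
  have hval : ∀ k : ℕ, Squarefree k → (padicValNat p k = if p ∈ k.primeFactors then 1 else 0) := by
    intro k hk
    rw [← Nat.factorization_def k hpp]
    have h1 := hk.natFactorization_le_one p
    split_ifs with h
    · have h2 : k.factorization p ≠ 0 := by
        rw [← Finsupp.mem_support_iff]
        exact h
      omega
    · rw [← Finsupp.notMem_support_iff]
      exact h
  have hv := congrArg (padicValRat p) hy
  rw [padicValRat.pow, padicValRat.zpow, padicValRat.div hm0 hn0, padicValRat.of_nat,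
    padicValRat.of_nat, hval m hm, hval n hn] at hv
  have hdvd : (ρ.den : ℤ) ∣ ρ.num := by
    by_cases h1 : p ∈ m.primeFactors
    · by_cases h2 : p ∈ n.primeFactors
      · exact absurd (iff_of_true h1 h2) hp
      · rw [if_pos h1, if_neg h2] at hv
        exact ⟨padicValRat p y, by push_cast at hv; linarith⟩
    · by_cases h2 : p ∈ n.primeFactors
      · rw [if_neg h1, if_pos h2] at hv
        exact ⟨-padicValRat p y, by push_cast at hv; linarith⟩
      · exact absurd (iff_of_false h1 h2) hp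
  have hcop : IsCoprime (ρ.den : ℤ) ρ.num := by
    rw [Int.isCoprime_iff_gcd_eq_one, Int.gcd_comm]
    exact ρ.reduced
  have hunit : IsUnit (ρ.den : ℤ) := hcop.isUnit_of_dvd' dvd_rfl hdvd
  have h1 : ρ.den = 1 := by
    have := Int.isUnit_iff.mp hunit
    omega
  exact hρ ρ.num (Rat.coe_int_num_of_den_eq_one h1)

theorem rpow_linearIndependent {κ : Type*} (c : κ → ℕ) (hc : Function.Injective c)
    (hs : ∀ i, Squarefree (c i)) (ρ : ℚ) (hρ : ∀ z : ℤ, (z : ℚ) ≠ ρ) :
    LinearIndependent ℚ (fun i => (c i : ℝ) ^ (ρ : ℝ)) := by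
  classical
  rw [linearIndependent_iff']
  intro s g hg j₀ hj₀
  have hc0 : ∀ i, (0 : ℝ) < (c i : ℝ) := fun i => by
    exact_mod_cast Nat.pos_of_ne_zero (hs i).ne_zero
  set b : κ → ℝ := fun i => ((c i : ℝ) / (c j₀ : ℝ)) ^ (ρ : ℝ) with hb
  have hbpos : ∀ i, 0 < b i := fun i => Real.rpow_pos_of_pos (div_pos (hc0 i) (hc0 j₀)) _
  have hbpow : ∀ i, b i ^ ρ.den = (((((c i : ℚ) / (c j₀ : ℚ)) ^ ρ.num : ℚ)) : ℝ) := by
    intro i
    have h0 : (0 : ℝ) ≤ (c i : ℝ) / (c j₀ : ℝ) := (div_pos (hc0 i) (hc0 j₀)).le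
    have h1 : (ρ : ℝ) * ((ρ.den : ℕ) : ℝ) = ((ρ.num : ℤ) : ℝ) := by
      have h2 : ρ * (ρ.den : ℚ) = (ρ.num : ℚ) := Rat.mul_den_eq_num ρ
      exact_mod_cast h2
    rw [hb]
    simp only
    rw [← Real.rpow_natCast, ← Real.rpow_mul h0, h1, Real.rpow_intCast]
    push_cast
    rfl
  have hbint : ∀ i, IsIntegral ℚ (b i) := fun i => by
    refine ⟨X ^ ρ.den - C (((c i : ℚ) / (c j₀ : ℚ)) ^ ρ.num), monic_X_pow_sub_C _ ρ.den_nz, ?_⟩
    simp only [eval₂_sub, eval₂_pow, eval₂_X, eval₂_C, eq_ratCast]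
    rw [hbpow i, sub_self]
  set K : IntermediateField ℚ ℝ := adjoin ℚ (b '' (s : Set κ)) with hK
  have : Finite (b '' (s : Set κ)) := (s.finite_toSet.image b).to_subtype
  have : FiniteDimensional ℚ K := finiteDimensional_adjoin (by
    rintro _ ⟨i, _, rfl⟩
    exact hbint i)
  have hbK : ∀ i ∈ s, b i ∈ K := fun i hi =>
    subset_adjoin ℚ _ ⟨i, hi, rfl⟩
  set β : κ → K := fun i => if h : i ∈ s then ⟨b i, hbK i h⟩ else 0 with hβ
  have hβv : ∀ i ∈ s, ((β i : K) : ℝ) = b i := fun i hi => by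
    rw [hβ]
    simp only [dif_pos hi]
  have hsum : ∑ i ∈ s, g i • β i = 0 := by
    apply (algebraMap K ℝ).injective
    rw [map_zero, map_sum]
    have h1 : ∀ i ∈ s, algebraMap K ℝ (g i • β i) =
        (g i • ((c i : ℝ) ^ (ρ : ℝ))) / ((c j₀ : ℝ) ^ (ρ : ℝ)) := by
      intro i hi
      have h2 : algebraMap K ℝ (g i • β i) = g i • ((β i : K) : ℝ) := rfl
      rw [h2, hβv i hi, hb]
      simp only
      rw [Real.div_rpow (hc0 i).le (hc0 j₀).le, smul_div_assoc]
    rw [Finset.sum_congr rfl h1, ← Finset.sum_div, hg, zero_div]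
  have htr : ∀ i ∈ s, i ≠ j₀ → Algebra.trace ℚ K (β i) = 0 := by
    intro i hi hne
    have hmp : minpoly ℚ (β i) = minpoly ℚ (b i) := by
      rw [← hβv i hi]
      exact (minpoly.algebraMap_eq (A := ℚ) (B := K) (B' := ℝ) (algebraMap K ℝ).injective (β i)).symm
    rw [trace_eq_finrank_mul_minpoly_nextCoeff, hmp,
      nextCoeff_zero63 (hbpos i) ?_ ρ.den_nz (hbpow i)]
    · simp
    · rintro ⟨y, hy⟩
      refine irr63 (hs i) (hs j₀) (fun h => hne (hc h)) ρ hρ y ?_
      have h1 := hbpow i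
      rw [← hy] at h1
      have h2 : ((y ^ ρ.den : ℚ) : ℝ) = (((((c i : ℚ) / (c j₀ : ℚ)) ^ ρ.num : ℚ)) : ℝ) := by
        rw [← h1]
        push_cast
        rfl
      exact_mod_cast h2
  have hone : β j₀ = 1 := by
    apply Subtype.ext
    rw [hβv j₀ hj₀, hb]
    simp only
    rw [div_self (hc0 j₀).ne', Real.one_rpow]
    rfl
  have hT := congrArg (Algebra.trace ℚ K) hsum
  rw [map_zero, map_sum, Finset.sum_eq_single_of_mem j₀ hj₀] at hT
  · rw [map_smul, hone] at hT
    have h1 : Algebra.trace ℚ K (1 : K) = (Module.finrank ℚ K : ℚ) := by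
      have := Algebra.trace_algebraMap (R := ℚ) (S := K) 1
      rw [map_one] at this
      rw [this]
      simp
    rw [h1, smul_eq_mul, mul_eq_zero] at hT
    rcases hT with hT | hT
    · exact hT
    · exfalso
      have : 0 < Module.finrank ℚ K := Module.finrank_pos
      have h2 : (Module.finrank ℚ K : ℚ) ≠ 0 := by exact_mod_cast this.ne'
      exact h2 hT
  · intro i hi hne
    rw [map_smul, htr i hi hne, smul_zero]

end Pool.Agent.Helper18.RC
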