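import Pool.Agent.Helper18.RC.Siegel

/-!
# Project RC, block RC3: the rank lemma

Proof in words. Let `C_s` be the constant of `siegel`, `K = C_s ((t + 1) M + 1) ^ t`. The polynomials
`∏_j P_j ^ (i_j)`, `i ∈ {0, ..., K} ^ (t + 1)`, have degree `≤ (t + 1) K M` and
`L1 ≤ exp ((t + 1) K M)`. Since
`C_s ((t + 1) K M + 1) ^ t ≤ C_s ((K + 1) ((t + 1) M + 1)) ^ t ≤ (K + 1) ^ (t + 1)`, `siegel` with one
equation gives integers `c_i`, not all zero, `|c_i| ≤ exp (C' M ^ (t + 1))`, with
`∑ c_i ∏ P_j(y) ^ (i_j) = 0`. Put `λ_j = - log ‖P_j(y)‖`. By the growth hypothesis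
`λ_j ≥ 2 K (λ_0 + ... + λ_(j-1))`, so for `i ≠ i'` the numbers `∑ i_j λ_j` and `∑ i'_j λ_j` differ by at least
`λ_0 / 2` (look at the largest `j` with `i_j ≠ i'_j`). The term with the smallest `∑ i_j λ_j` among those
with `c_i ≠ 0` is larger in absolute value than the sum of all others, because
`λ_0 / 2 > log ((K + 1) ^ (t + 1) max |c|)`. Contradiction.
-/

open MvPolynomial

namespace Pool.Agent.Helper18.RC

/-- separation of the exponents -/
private lemma rank_sep {K : ℕ} (hK : 1 ≤ K) : ∀ (t : ℕ) (l : Fin (t + 1) → ℝ), 0 < l 0 →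
    (∀ j : Fin t, 4 * K * l j.castSucc ≤ l j.succ) →
    (∀ d : Fin (t + 1) → ℤ, (∀ j, |d j| ≤ K) → |∑ j, (d j : ℝ) * l j| ≤ 2 * K * l (Fin.last t)) ∧
    (∀ d : Fin (t + 1) → ℤ, (∀ j, |d j| ≤ K) → d ≠ 0 → l 0 / 2 ≤ |∑ j, (d j : ℝ) * l j|) ∧
    l 0 ≤ l (Fin.last t) := by
  have hK' : (1 : ℝ) ≤ K := by exact_mod_cast hK
  have cast_le : ∀ z : ℤ, |z| ≤ K → |(z : ℝ)| ≤ K := by
    intro z hz
    rw [← Int.cast_abs]
    exact_mod_cast hz
  have one_le : ∀ z : ℤ, z ≠ 0 → 1 ≤ |(z : ℝ)| := by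
    intro z hz
    rw [← Int.cast_abs]
    exact_mod_cast Int.one_le_abs hz
  intro t
  induction t with
  | zero =>
    intro l h0 _
    refine ⟨fun d hd => ?_, fun d hd hne => ?_, le_refl _⟩
    · rw [Fin.sum_univ_succ]
      simp only [Finset.univ_eq_empty, Finset.sum_empty, add_zero]
      rw [abs_mul, abs_of_pos h0]
      have := cast_le _ (hd 0)
      show |(d 0 : ℝ)| * l 0 ≤ 2 * K * l 0
      nlinarith
    · rw [Fin.sum_univ_succ]
      simp only [Finset.univ_eq_empty, Finset.sum_empty, add_zero]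
      rw [abs_mul, abs_of_pos h0]
      have hd0 : d 0 ≠ 0 := by
        intro h
        apply hne
        funext j
        obtain rfl : j = 0 := Fin.ext (Nat.lt_one_iff.1 j.2)
        exact h
      have := one_le _ hd0
      nlinarith
  | succ t ih =>
    intro l h0 hg
    obtain ⟨ha, hb, hc⟩ := ih (fun j => l j.castSucc) h0 (fun j => by
      have := hg j.castSucc
      simpa using this)
    simp only [Fin.castSucc_zero] at hb hc
    have hgl := hg (Fin.last t)
    rw [Fin.succ_last] at hgl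
    have hlt : 0 < l (Fin.last t).castSucc := lt_of_lt_of_le h0 hc
    have hll : l (Fin.last t).castSucc ≤ l (Fin.last (t + 1)) := by nlinarith
    have hlpos : 0 < l (Fin.last (t + 1)) := lt_of_lt_of_le hlt hll
    refine ⟨fun d hd => ?_, fun d hd hne => ?_, hc.trans hll⟩
    · rw [Fin.sum_univ_castSucc]
      have e1 := ha (fun j => d j.castSucc) (fun j => hd _)
      have e2 : |(d (Fin.last (t + 1)) : ℝ) * l (Fin.last (t + 1))| ≤ K * l (Fin.last (t + 1)) := by
        rw [abs_mul, abs_of_pos hlpos]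
        exact mul_le_mul_of_nonneg_right (cast_le _ (hd _)) hlpos.le
      have e3 := abs_add_le (∑ j : Fin (t + 1), (d j.castSucc : ℝ) * l j.castSucc)
        ((d (Fin.last (t + 1)) : ℝ) * l (Fin.last (t + 1)))
      nlinarith
    · rw [Fin.sum_univ_castSucc]
      have e1 := ha (fun j => d j.castSucc) (fun j => hd _)
      by_cases hl0 : d (Fin.last (t + 1)) = 0
      · rw [hl0]
        simp only [Int.cast_zero, zero_mul, add_zero]
        apply hb (fun j => d j.castSucc) (fun j => hd _)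
        intro h
        apply hne
        funext j
        refine Fin.lastCases ?_ (fun j => ?_) j
        · exact hl0
        · exact congrFun h j
      · have e2 : l (Fin.last (t + 1)) ≤ |(d (Fin.last (t + 1)) : ℝ) * l (Fin.last (t + 1))| := by
          rw [abs_mul, abs_of_pos hlpos]
          have := one_le _ hl0
          nlinarith
        have e3 := abs_sub_abs_le_abs_sub ((d (Fin.last (t + 1)) : ℝ) * l (Fin.last (t + 1)))
          (-(∑ j : Fin (t + 1), (d j.castSucc : ℝ) * l j.castSucc))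
        rw [abs_neg, sub_neg_eq_add, add_comm ((d (Fin.last (t + 1)) : ℝ) * l (Fin.last (t + 1)))] at e3
        have e4 : 2 * (K : ℝ) * l (Fin.last t).castSucc ≤ l (Fin.last (t + 1)) / 2 := by linarith
        have e5 : l 0 / 2 ≤ l (Fin.last (t + 1)) / 2 := by linarith
        linarith

/-- the logarithmic size of the box and of the coefficients -/
private lemma rank_size {t M Cs K : ℕ} (hM : 1 ≤ M) (hC : 1 ≤ Cs) (hKdef : K = Cs * ((t + 1) * M + 1) ^ t) :
    (K : ℝ) ≤ Cs * (t + 2) ^ t * (M : ℝ) ^ t ∧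
    2 * (t + 1) * Real.log (K + 1) + (t + 1) * K * M + ((t + 1) * K * M + 1) * Real.log Cs ≤
      (Cs * (t + 2) ^ t * (3 * (t + 1) + (t + 2) * Cs)) * (M : ℝ) ^ (t + 1) := by
  have hM' : (1 : ℝ) ≤ M := by exact_mod_cast hM
  have hC' : (1 : ℝ) ≤ Cs := by exact_mod_cast hC
  have ht0 : (0 : ℝ) ≤ t := Nat.cast_nonneg t
  have h1 : (K : ℝ) ≤ Cs * (t + 2) ^ t * (M : ℝ) ^ t := by
    rw [hKdef]
    push_cast
    rw [mul_assoc, ← mul_pow]
    refine mul_le_mul_of_nonneg_left ?_ (by linarith)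
    refine pow_le_pow_left₀ (by positivity) ?_ t
    nlinarith
  have hK1 : (1 : ℝ) ≤ K := by
    have : 1 ≤ K := by
      rw [hKdef]
      exact Nat.mul_pos hC (Nat.pow_pos (Nat.succ_pos _))
    exact_mod_cast this
  refine ⟨h1, ?_⟩
  have h2 : Real.log (K + 1) ≤ K := by
    have := Real.log_le_sub_one_of_pos (show (0 : ℝ) < K + 1 by linarith)
    linarith
  have h3 : Real.log Cs ≤ Cs := by
    have := Real.log_le_sub_one_of_pos (show (0 : ℝ) < Cs by linarith)
    linarith
  have hKM : (1 : ℝ) ≤ K * M := by nlinarith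
  have h4 : 2 * (t + 1) * Real.log (K + 1) ≤ 2 * (t + 1) * (K * M) := by
    apply mul_le_mul_of_nonneg_left _ (by positivity)
    nlinarith
  have h5 : ((t + 1) * K * M + 1) * Real.log Cs ≤ ((t + 2) * (K * M)) * Cs := by
    have e1 : ((t + 1) * K * M + 1) * Real.log Cs ≤ ((t + 1) * K * M + 1) * Cs :=
      mul_le_mul_of_nonneg_left h3 (by positivity)
    have e2 : ((t : ℝ) + 1) * K * M + 1 ≤ (t + 2) * (K * M) := by nlinarith
    exact e1.trans (mul_le_mul_of_nonneg_right e2 (by linarith))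
  have h6 : (K : ℝ) * M ≤ Cs * (t + 2) ^ t * (M : ℝ) ^ (t + 1) := by
    rw [pow_succ, ← mul_assoc]
    exact mul_le_mul_of_nonneg_right h1 (by linarith)
  calc 2 * (t + 1) * Real.log (K + 1) + (t + 1) * K * M + ((t + 1) * K * M + 1) * Real.log Cs
      ≤ 2 * (t + 1) * (K * M) + (t + 1) * K * M + ((t + 2) * (K * M)) * Cs := by linarith
    _ = (3 * (t + 1) + (t + 2) * Cs) * (K * M) := by ring
    _ ≤ (3 * (t + 1) + (t + 2) * Cs) * (Cs * (t + 2) ^ t * (M : ℝ) ^ (t + 1)) :=
        mul_le_mul_of_nonneg_left h6 (by positivity)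
    _ = _ := by ring

/-- **The rank lemma.** In transcendence degree `≤ t` there are no `t + 1` small values of widely
different orders of magnitude at one scale `M`. -/
theorem rank_lemma {ι : Type} [Fintype ι] (y : ι → ℂ) {t : ℕ} (w : Fin t → ℂ)
    (hy : ∀ i, AlgOver w (y i)) :
    ∃ C : ℝ, 0 < C ∧ ∀ (M : ℕ) (P : Fin (t + 1) → MvPolynomial ι ℤ), 1 ≤ M →
      (∀ j, (P j).totalDegree ≤ M) → (∀ j, L1 (P j) ≤ Real.exp M) →
      (∀ j, aeval y (P j) ≠ 0) →
      C * (M : ℝ) ^ (t + 1) ≤ -Real.log ‖aeval y (P 0)‖ →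
      (∀ j : Fin t, C * (M : ℝ) ^ t * (-Real.log ‖aeval y (P j.castSucc)‖) ≤
        -Real.log ‖aeval y (P j.succ)‖) → False := by
  classical
  obtain ⟨Cs, hCs, hS⟩ := siegel y w hy
  set C2 : ℝ := Cs * (t + 2) ^ t * (3 * (t + 1) + (t + 2) * Cs) with hC2
  have hCs' : (1 : ℝ) ≤ Cs := by exact_mod_cast hCs
  have hA : (1 : ℝ) ≤ Cs * (t + 2) ^ t := by
    have : (1 : ℝ) ≤ (t + 2) ^ t := one_le_pow₀ (by linarith [Nat.cast_nonneg (α := ℝ) t])
    nlinarith
  have hC2p : (0 : ℝ) < C2 := by positivity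
  refine ⟨2 * C2 + 1 + 4 * (Cs * (t + 2) ^ t), by positivity, ?_⟩
  intro M P hM hdeg hL hne h0 hgr
  have hM' : (1 : ℝ) ≤ M := by exact_mod_cast hM
  set K : ℕ := Cs * ((t + 1) * M + 1) ^ t with hKdef
  have hK : 1 ≤ K := Nat.mul_pos hCs (Nat.pow_pos (Nat.succ_pos _))
  obtain ⟨hKle, hsize⟩ := rank_size (t := t) hM hCs hKdef
  set l : Fin (t + 1) → ℝ := fun j => -Real.log ‖aeval y (P j)‖ with hl
  have hMt : (1 : ℝ) ≤ (M : ℝ) ^ t := one_le_pow₀ hM'
  have hMt1 : (1 : ℝ) ≤ (M : ℝ) ^ (t + 1) := one_le_pow₀ hM'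
  have hl0 : (2 * C2 + 1 + 4 * (Cs * (t + 2) ^ t)) * (M : ℝ) ^ (t + 1) ≤ l 0 := h0
  have hl0p : 0 < l 0 := lt_of_lt_of_le (by positivity) hl0
  -- positivity and growth
  have hpos : ∀ j : Fin (t + 1), 0 < l j := by
    intro j
    induction j using Fin.induction with
    | zero => exact hl0p
    | succ j ih =>
      refine lt_of_lt_of_le ?_ (hgr j)
      exact mul_pos (by positivity) ih
  have hg : ∀ j : Fin t, 4 * K * l j.castSucc ≤ l j.succ := by
    intro j
    refine le_trans (mul_le_mul_of_nonneg_right ?_ (hpos _).le) (hgr j)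
    have : 4 * (K : ℝ) ≤ 4 * (Cs * (t + 2) ^ t) * (M : ℝ) ^ t := by linarith
    refine this.trans (mul_le_mul_of_nonneg_right ?_ (by positivity))
    linarith
  obtain ⟨-, hsep, -⟩ := rank_sep hK t l hl0p hg
  -- Siegel
  let Q : (Fin (t + 1) → Fin (K + 1)) → Unit → MvPolynomial ι ℤ := fun i _ => ∏ j, P j ^ (i j : ℕ)
  have hcard : Fintype.card (Fin (t + 1) → Fin (K + 1)) = (K + 1) ^ (t + 1) := by
    rw [Fintype.card_fun, Fintype.card_fin, Fintype.card_fin]
  have hQd : ∀ i k, (Q i k).totalDegree ≤ (t + 1) * K * M := by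
    intro i k
    refine (MvPolynomial.totalDegree_finsetProd _ _).trans ?_
    calc ∑ j, (P j ^ (i j : ℕ)).totalDegree ≤ ∑ _j : Fin (t + 1), K * M := by
          refine Finset.sum_le_sum fun j _ => ?_
          refine (MvPolynomial.totalDegree_pow _ _).trans ?_
          exact Nat.mul_le_mul (Nat.lt_succ_iff.1 (i j).2) (hdeg j)
      _ = (t + 1) * K * M := by
          rw [Finset.sum_const, Finset.card_univ, Fintype.card_fin, smul_eq_mul]
          exact (mul_assoc _ _ _).symm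
  have hQL : ∀ i k, L1 (Q i k) ≤ Real.exp ((t + 1) * K * M) := by
    intro i k
    refine (L1_prod _ _).trans ?_
    calc ∏ j, L1 (P j ^ (i j : ℕ)) ≤ ∏ _j : Fin (t + 1), Real.exp (K * M) := by
          refine Finset.prod_le_prod (fun j _ => L1_nonneg _) fun j _ => ?_
          refine (L1_pow _ _).trans ?_
          refine (pow_le_pow_left₀ (L1_nonneg _) (hL j) _).trans ?_
          rw [← Real.exp_nat_mul]
          apply Real.exp_le_exp.2
          have : ((i j : ℕ) : ℝ) ≤ K := by exact_mod_cast Nat.lt_succ_iff.1 (i j).2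
          exact mul_le_mul_of_nonneg_right this (by linarith)
      _ = Real.exp ((t + 1) * K * M) := by
          rw [Finset.prod_const, Finset.card_univ, Fintype.card_fin, ← Real.exp_nat_mul]
          congr 1
          push_cast
          ring
  have hH : (1 : ℝ) ≤ Real.exp ((t + 1) * K * M) := Real.one_le_exp (by positivity)
  obtain ⟨c, hc0, hcb, hcs⟩ := hS ((t + 1) * K * M) (Real.exp ((t + 1) * K * M)) Q hH hQd hQL
    (by rw [hcard]; exact Nat.pow_pos (Nat.succ_pos _))
    (by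
      rw [hcard, Fintype.card_unit, mul_one]
      have e1 : (t + 1) * K * M + 1 ≤ (K + 1) * ((t + 1) * M + 1) := by nlinarith
      calc Cs * ((t + 1) * K * M + 1) ^ t ≤ Cs * ((K + 1) * ((t + 1) * M + 1)) ^ t :=
            Nat.mul_le_mul_left _ (Nat.pow_le_pow_left e1 t)
        _ = (K + 1) ^ t * K := by rw [mul_pow, hKdef]; ring
        _ ≤ (K + 1) ^ (t + 1) := by rw [pow_succ]; exact Nat.mul_le_mul_left _ (Nat.le_succ K))
  set B : ℝ := ((K + 1 : ℕ) : ℝ) ^ (t + 1) * Real.exp ((t + 1) * K * M) * (Cs : ℝ) ^ ((t + 1) * K * M + 1)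
    with hB
  have hcb' : ∀ i, |(c i : ℝ)| ≤ B := by
    intro i
    have := hcb i
    rw [hcard] at this
    rw [hB]
    push_cast at this ⊢
    exact this
  -- the exponents
  let E : (Fin (t + 1) → Fin (K + 1)) → ℝ := fun i => ∑ j, ((i j : ℕ) : ℝ) * l j
  have hnorm : ∀ i, ‖aeval y (Q i ())‖ = Real.exp (-E i) := by
    intro i
    show ‖aeval y (∏ j, P j ^ (i j : ℕ))‖ = _
    rw [map_prod, norm_prod, ← Finset.sum_neg_distrib, Real.exp_sum]
    refine Finset.prod_congr rfl fun j _ => ?_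
    rw [map_pow, norm_pow]
    have hp : 0 < ‖aeval y (P j)‖ := norm_pos_iff.2 (hne j)
    rw [show -(((i j : ℕ) : ℝ) * l j) = ((i j : ℕ) : ℝ) * Real.log ‖aeval y (P j)‖ by rw [hl]; ring,
      Real.exp_nat_mul, Real.exp_log hp]
  have hex : (Finset.univ.filter fun i => c i ≠ 0).Nonempty := by
    obtain ⟨i, hi⟩ := Function.ne_iff.1 hc0
    exact ⟨i, by simpa using hi⟩
  obtain ⟨i0, hi0, hmin⟩ := Finset.exists_min_image _ E hex
  have hi0' : c i0 ≠ 0 := by simpa using hi0
  have hE : ∀ i, c i ≠ 0 → i ≠ i0 → E i0 + l 0 / 2 ≤ E i := by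
    intro i hi hne'
    have h1 := hmin i (by simpa using hi)
    have h2 := hsep (fun j => ((i j : ℕ) : ℤ) - ((i0 j : ℕ) : ℤ)) (fun j => by
      have := (i j).2
      have := (i0 j).2
      rw [abs_le]
      constructor <;> omega) (by
      intro h
      apply hne'
      funext j
      have := congrFun h j
      simp only [Pi.zero_apply] at this
      apply Fin.ext
      omega)
    have h3 : (∑ j, ((((i j : ℕ) : ℤ) - ((i0 j : ℕ) : ℤ) : ℤ) : ℝ) * l j) = E i - E i0 := by
      show _ = (∑ j, ((i j : ℕ) : ℝ) * l j) - ∑ j, ((i0 j : ℕ) : ℝ) * l j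
      rw [← Finset.sum_sub_distrib]
      refine Finset.sum_congr rfl fun j _ => ?_
      push_cast
      ring
    rw [h3, abs_of_nonneg (by linarith)] at h2
    linarith
  have hBpos : 0 < B := by
    rw [hB]
    positivity
  have hkey : Real.exp (-E i0) ≤ ((K + 1 : ℕ) : ℝ) ^ (t + 1) * (B * Real.exp (-(E i0 + l 0 / 2))) := by
    have h1 := hcs ()
    rw [← Finset.add_sum_erase _ _ (Finset.mem_univ i0)] at h1
    have h2 : ‖(c i0 : ℂ) * aeval y (Q i0 ())‖ ≤
        ∑ i ∈ Finset.univ.erase i0, ‖(c i : ℂ) * aeval y (Q i ())‖ := by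
      rw [eq_neg_of_add_eq_zero_left h1, norm_neg]
      exact norm_sum_le _ _
    have h3 : Real.exp (-E i0) ≤ ‖(c i0 : ℂ) * aeval y (Q i0 ())‖ := by
      rw [norm_mul, hnorm]
      have : (1 : ℝ) ≤ ‖(c i0 : ℂ)‖ := by
        rw [Complex.norm_intCast, ← Int.cast_abs]
        exact_mod_cast Int.one_le_abs hi0'
      have h4 := Real.exp_pos (-E i0)
      nlinarith
    refine h3.trans (h2.trans ?_)
    calc ∑ i ∈ Finset.univ.erase i0, ‖(c i : ℂ) * aeval y (Q i ())‖
        ≤ ∑ _i ∈ Finset.univ.erase i0, B * Real.exp (-(E i0 + l 0 / 2)) := by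
          refine Finset.sum_le_sum fun i hi => ?_
          rw [norm_mul, hnorm, Complex.norm_intCast]
          by_cases hci : c i = 0
          · rw [hci]
            simp only [Int.cast_zero, abs_zero, zero_mul]
            positivity
          · have h4 := hE i hci (Finset.ne_of_mem_erase hi)
            exact mul_le_mul (hcb' i) (Real.exp_le_exp.2 (by linarith)) (Real.exp_pos _).le hBpos.le
      _ ≤ ∑ _i : (Fin (t + 1) → Fin (K + 1)), B * Real.exp (-(E i0 + l 0 / 2)) :=
          Finset.sum_le_sum_of_subset_of_nonneg (Finset.erase_subset _ _) fun _ _ _ => by positivity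
      _ = ((K + 1 : ℕ) : ℝ) ^ (t + 1) * (B * Real.exp (-(E i0 + l 0 / 2))) := by
          rw [Finset.sum_const, Finset.card_univ, hcard, nsmul_eq_mul]
          push_cast
          ring
  -- conclusion
  have hK1pos : (0 : ℝ) < ((K + 1 : ℕ) : ℝ) := by positivity
  have hfin : Real.exp (l 0 / 2) ≤ ((K + 1 : ℕ) : ℝ) ^ (t + 1) * B := by
    have h1 : Real.exp (-E i0) * Real.exp (E i0 + l 0 / 2) ≤
        ((K + 1 : ℕ) : ℝ) ^ (t + 1) * (B * Real.exp (-(E i0 + l 0 / 2))) * Real.exp (E i0 + l 0 / 2) :=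
      mul_le_mul_of_nonneg_right hkey (Real.exp_pos _).le
    rw [← Real.exp_add, show -E i0 + (E i0 + l 0 / 2) = l 0 / 2 by ring] at h1
    rw [show ((K + 1 : ℕ) : ℝ) ^ (t + 1) * (B * Real.exp (-(E i0 + l 0 / 2))) * Real.exp (E i0 + l 0 / 2) =
      ((K + 1 : ℕ) : ℝ) ^ (t + 1) * B * (Real.exp (-(E i0 + l 0 / 2)) * Real.exp (E i0 + l 0 / 2)) by ring,
      ← Real.exp_add, neg_add_cancel, Real.exp_zero, mul_one] at h1
    exact h1
  have hlog : l 0 / 2 ≤ 2 * (t + 1) * Real.log (K + 1) + (t + 1) * K * M +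
      ((t + 1) * K * M + 1) * Real.log Cs := by
    have h1 := Real.log_le_log (Real.exp_pos _) hfin
    rw [Real.log_exp, Real.log_mul (by positivity) hBpos.ne', hB,
      Real.log_mul (by positivity) (by positivity), Real.log_mul (by positivity) (Real.exp_pos _).ne',
      Real.log_exp, Real.log_pow, Real.log_pow] at h1
    push_cast at h1
    linarith
  have : l 0 / 2 ≤ C2 * (M : ℝ) ^ (t + 1) := hlog.trans hsize
  nlinarith

end Pool.Agent.Helper18.RC
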