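import Pool.Agent.Helper18.RC.Count

/-!
# Project RC: the exponents whose exponential is algebraic over `ℚ(w)` form a vector space
-/

namespace Pool.Agent.Helper18.RC

theorem AlgOver.of_mem {ι : Type*} {w : ι → ℂ} (i : ι) : AlgOver w (w i) := by
  unfold AlgOver
  exact isAlgebraic_algebraMap (⟨w i, IntermediateField.subset_adjoin ℚ _ ⟨i, rfl⟩⟩ :
    IntermediateField.adjoin ℚ (Set.range w))

theorem AlgOver.of_alg {ι : Type*} {w : ι → ℂ} {z : ℂ} (hz : IsAlgebraic ℚ z) : AlgOver w z :=
  hz.tower_top _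

theorem AlgOver.mul {ι : Type*} {w : ι → ℂ} {z z' : ℂ} (h : AlgOver w z) (h' : AlgOver w z') :
    AlgOver w (z * z') := IsAlgebraic.mul h h'

theorem AlgOver.inv {ι : Type*} {w : ι → ℂ} {z : ℂ} (h : AlgOver w z) :
    AlgOver w z⁻¹ := IsAlgebraic.inv h

theorem AlgOver.pow {ι : Type*} {w : ι → ℂ} {z : ℂ} (h : AlgOver w z) (n : ℕ) :
    AlgOver w (z ^ n) := IsAlgebraic.pow h n

theorem AlgOver.zpow {ι : Type*} {w : ι → ℂ} {z : ℂ} (h : AlgOver w z) (n : ℤ) :
    AlgOver w (z ^ n) := by
  obtain ⟨k, rfl | rfl⟩ := n.eq_nat_or_neg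
  · rw [zpow_natCast]
    exact h.pow k
  · rw [zpow_neg, zpow_natCast]
    exact (h.pow k).inv

/-- transitivity -/
theorem AlgOver.trans {ι κ : Type*} {w : ι → ℂ} {x : κ → ℂ} {z : ℂ} (h : ∀ j, AlgOver w (x j))
    (hz : AlgOver x z) : AlgOver w z := by
  unfold AlgOver at *
  set F := IntermediateField.adjoin ℚ (Set.range w) with hF
  set A : IntermediateField F ℂ := algebraicClosure F ℂ with hA
  have hle : IntermediateField.adjoin ℚ (Set.range x) ≤ A.restrictScalars ℚ := by
    rw [IntermediateField.adjoin_le_iff]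
    rintro _ ⟨j, rfl⟩
    exact (mem_algebraicClosure_iff).2 (h j)
  have h1 : IsAlgebraic A z := by
    obtain ⟨p, hp, hpz⟩ := hz
    let φ : IntermediateField.adjoin ℚ (Set.range x) →+* A :=
      { toFun := fun t => ⟨t.1, hle t.2⟩
        map_one' := rfl
        map_mul' := fun _ _ => rfl
        map_zero' := rfl
        map_add' := fun _ _ => rfl }
    refine ⟨p.map φ, ?_, ?_⟩
    · rw [Ne, Polynomial.map_eq_zero]
      exact hp
    · rw [Polynomial.aeval_def] at hpz ⊢
      rw [Polynomial.eval₂_map]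
      exact hpz
  exact h1.restrictScalars F

/-- The exponents `β` with `exp (θ β)` algebraic over `ℚ(w)` form a `ℚ`-vector space. -/
theorem exp_lin {ι : Type*} {w : ι → ℂ} {θ u v : ℂ} (hu : AlgOver w (Complex.exp (θ * u)))
    (hv : AlgOver w (Complex.exp (θ * v))) (a b : ℚ) :
    AlgOver w (Complex.exp (θ * (a * u + b * v))) := by
  have hsmul : ∀ (c : ℚ) (s : ℂ), AlgOver w (Complex.exp (θ * s)) →
      AlgOver w (Complex.exp (θ * (c * s))) := by
    intro c s hs
    have hd : 0 < c.den := c.den_pos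
    refine IsAlgebraic.of_pow hd ?_
    have h1 : Complex.exp (θ * (c * s)) ^ c.den = Complex.exp (θ * s) ^ c.num := by
      rw [← Complex.exp_nat_mul, ← Complex.exp_int_mul]
      congr 1
      have h2 : ((c.den : ℚ) : ℂ) * (c : ℂ) = ((c.num : ℚ) : ℂ) := by
        rw [← Rat.cast_mul, Rat.den_mul_eq_num]
      push_cast at h2
      calc (c.den : ℂ) * (θ * (c * s)) = (c.den * c) * (θ * s) := by ring
        _ = _ := by rw [h2]
    rw [h1]
    exact hs.zpow _
  have h1 : Complex.exp (θ * (a * u + b * v)) =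
      Complex.exp (θ * (a * u)) * Complex.exp (θ * (b * v)) := by
    rw [← Complex.exp_add]
    congr 1
    ring
  rw [h1]
  exact (hsmul a u hu).mul (hsmul b v hv)

theorem snoc_init_last {n : ℕ} (x : Fin (n + 1) → ℂ) :
    (Fin.snoc (fun i : Fin n => x i.castSucc) (x (Fin.last n)) : Fin (n + 1) → ℂ) = x := by
  funext i
  refine Fin.lastCases ?_ (fun j => ?_) i
  · simp
  · simp

open scoped IntermediateField.algebraAdjoinAdjoin in
theorem algInd_init {n : ℕ} (x : Fin (n + 1) → ℂ) (h : AlgebraicIndependent ℚ x) :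
    AlgebraicIndependent ℚ (fun i : Fin n => x i.castSucc) ∧
      ¬ AlgOver (fun i : Fin n => x i.castSucc) (x (Fin.last n)) := by
  have h1 : AlgebraicIndependent ℚ (fun o : Option (Fin n) =>
      o.elim (x (Fin.last n)) (fun i : Fin n => x i.castSucc)) := by
    have h2 := h.comp (finSuccEquivLast (n := n)).symm (Equiv.injective _)
    convert h2 using 1
    funext o
    cases o with
    | none => simp
    | some j => simp
  rw [AlgebraicIndependent.option_iff] at h1
  refine ⟨h1.1, fun h3 => h1.2 ?_⟩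
  unfold AlgOver at h3
  have h4 := (IsFractionRing.isAlgebraic_iff
    (Algebra.adjoin ℚ (Set.range (fun i : Fin n => x i.castSucc)))
    (IntermediateField.adjoin ℚ (Set.range (fun i : Fin n => x i.castSucc))) ℂ
    (x := x (Fin.last n)))
  exact h4.2 h3

theorem AlgOver.of_single {ι : Type*} {w : ι → ℂ} {x z : ℂ} (hx : AlgOver w x)
    (hz : AlgOver ![x] z) : AlgOver w z := by
  refine AlgOver.trans (x := ![x]) (fun j => ?_) hz
  have : j = 0 := Subsingleton.elim _ _
  subst this
  exact hx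

/-- Algebraic independence of `w₀, y 0, ..., y (n-1)` passes to `w₀, x 0, ..., x (n-1)` if each `x i` is
algebraic over `ℚ(y i)` and conversely. -/
theorem transfer : ∀ {n : ℕ} (w₀ : ℂ) (x y : Fin n → ℂ),
    AlgebraicIndependent ℚ (Fin.cons w₀ y : Fin (n + 1) → ℂ) →
    (∀ i, AlgOver ![y i] (x i)) → (∀ i, AlgOver ![x i] (y i)) →
    AlgebraicIndependent ℚ (Fin.cons w₀ x : Fin (n + 1) → ℂ) := by
  intro n
  induction n with
  | zero =>
    intro w₀ x y h _ _
    have : x = y := by
      funext i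
      exact i.elim0
    rw [this]
    exact h
  | succ n ih =>
    intro w₀ x y h hxy hyx
    obtain ⟨h1, h2⟩ := algInd_init _ h
    have e : ∀ z : Fin (n + 1) → ℂ, (fun i : Fin (n + 1) =>
        (Fin.cons w₀ z : Fin (n + 1 + 1) → ℂ) i.castSucc) =
        Fin.cons w₀ (fun i : Fin n => z i.castSucc) := by
      intro z
      funext i
      refine Fin.cases ?_ (fun j => ?_) i
      · rfl
      · rfl
    have el : ∀ z : Fin (n + 1) → ℂ, (Fin.cons w₀ z : Fin (n + 1 + 1) → ℂ) (Fin.last (n + 1)) =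
        z (Fin.last n) := fun z => rfl
    rw [e] at h1 h2
    rw [el] at h2
    have h3 := ih w₀ (fun i => x i.castSucc) (fun i => y i.castSucc) h1 (fun i => hxy i.castSucc)
      (fun i => hyx i.castSucc)
    have h4 : ¬ AlgOver (Fin.cons w₀ (fun i : Fin n => x i.castSucc) : Fin (n + 1) → ℂ)
        (x (Fin.last n)) := by
      intro h5
      apply h2
      refine AlgOver.of_single (x := x (Fin.last n)) ?_ (hyx (Fin.last n))
      refine AlgOver.trans (fun j => ?_) h5
      refine Fin.cases ?_ (fun k => ?_) j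
      · exact AlgOver.of_mem (w := (Fin.cons w₀ (fun i : Fin n => y i.castSucc) :
          Fin (n + 1) → ℂ)) 0
      · refine AlgOver.of_single (x := y k.castSucc) ?_ (hxy k.castSucc)
        exact AlgOver.of_mem (w := (Fin.cons w₀ (fun i : Fin n => y i.castSucc) :
          Fin (n + 1) → ℂ)) k.succ
    have h6 := algInd_snoc _ _ h3 h4
    rw [← e x, ← el x, snoc_init_last] at h6
    exact h6

/-- The case used: `x i = exp (θ (a i + b i s i))`, `y i = exp (θ s i)`, with `exp θ` algebraic. -/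
theorem transfer_exp {n : ℕ} (θ : ℂ) (hθ : IsAlgebraic ℚ (Complex.exp θ)) (s : Fin n → ℂ)
    (a b : Fin n → ℚ) (hb : ∀ i, b i ≠ 0)
    (h : AlgebraicIndependent ℚ (Fin.cons θ (fun i => Complex.exp (θ * s i)) : Fin (n + 1) → ℂ)) :
    AlgebraicIndependent ℚ
      (Fin.cons θ (fun i => Complex.exp (θ * (a i + b i * s i))) : Fin (n + 1) → ℂ) := by
  refine transfer θ _ _ h (fun i => ?_) (fun i => ?_)
  · have h1 : AlgOver ![Complex.exp (θ * s i)] (Complex.exp (θ * 1)) := by
      rw [mul_one]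
      exact AlgOver.of_alg hθ
    have h2 := exp_lin h1 (AlgOver.of_mem (w := ![Complex.exp (θ * s i)]) 0) (a i) (b i)
    rw [mul_one] at h2
    exact h2
  · have h1 : AlgOver ![Complex.exp (θ * (a i + b i * s i))] (Complex.exp (θ * 1)) := by
      rw [mul_one]
      exact AlgOver.of_alg hθ
    have h2 := exp_lin h1 (AlgOver.of_mem (w := ![Complex.exp (θ * (a i + b i * s i))]) 0)
      (-(a i / b i)) ((b i)⁻¹)
    have hb' : ((b i : ℚ) : ℂ) ≠ 0 := by exact_mod_cast hb i
    have h3 : θ * ((-(a i / b i) : ℚ) * 1 + ((b i)⁻¹ : ℚ) * (a i + b i * s i)) = θ * s i := by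
      push_cast
      field_simp
      ring
    rw [h3] at h2
    exact h2

end Pool.Agent.Helper18.RC
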