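import Pool.Agent.Helper18.RC.Poly
import Pool.Agent.Helper18.RC.KST
import Pool.Agent.Helper18.RC.VSpace

/-!
# Project RC: few pairs `(e, f)` of a rectangle have `exp (θ e f)` in a field of small transcendence degree
-/

namespace Pool.Agent.Helper18.RC

/-- The exponent `m` of the rectangle theorem in transcendence degree `t`. -/
noncomputable def mr (t : ℕ) : ℕ := (rectangle t).choose

theorem mr_spec (t : ℕ) : ∀ (θ : ℂ), θ ≠ 0 → ∀ (β γ : Fin (mr t) → ℂ),
    (∀ i, IsAlgebraic ℚ (β i)) → (∀ i, IsAlgebraic ℚ (γ i)) →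
    LinearIndependent ℚ β → LinearIndependent ℚ γ → ∀ w : Fin t → ℂ,
    ¬ ∀ i j, AlgOver w (Complex.exp (θ * β i * γ j)) := (rectangle t).choose_spec

theorem mr_pos (t : ℕ) : 1 ≤ mr t := by
  by_contra h
  have h0 : mr t = 0 := by omega
  have he : IsEmpty (Fin (mr t)) := by rw [h0]; infer_instance
  exact mr_spec t 1 one_ne_zero (fun i => he.elim i) (fun i => he.elim i) (fun i => he.elim i)
    (fun i => he.elim i) (linearIndependent_empty_type) (linearIndependent_empty_type)
    (fun _ => 0) (fun i => he.elim i)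

open scoped Classical in
theorem rect_count (t q : ℕ) (e f : Fin q → ℂ) (he : ∀ i, IsAlgebraic ℚ (e i))
    (hf : ∀ i, IsAlgebraic ℚ (f i)) (hel : LinearIndependent ℚ e) (hfl : LinearIndependent ℚ f)
    (θ : ℂ) (hθ : θ ≠ 0) (w : Fin t → ℂ) :
    ((Finset.univ.filter (fun p : Fin q × Fin q =>
      AlgOver w (Complex.exp (θ * (e p.1 * f p.2))))).card : ℝ) ≤
      ((mr t : ℝ) ^ 2 + mr t) * (q : ℝ) ^ (2 - 1 / (mr t : ℝ)) := by
  have hm := mr_pos t
  have h1 := kst (mr t) q hm (by simp) (by simp) (Finset.univ.filter (fun p : Fin q × Fin q =>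
      AlgOver w (Complex.exp (θ * (e p.1 * f p.2))))) (by
    intro a b ha hb hall
    refine mr_spec t θ hθ (fun i => e (a i)) (fun i => f (b i)) (fun i => he _) (fun i => hf _)
      (hel.comp a ha) (hfl.comp b hb) w ?_
    intro i j
    have h2 := (Finset.mem_filter.1 (hall i j)).2
    rw [mul_assoc]
    exact h2)
  set G := (Finset.univ.filter (fun p : Fin q × Fin q =>
      AlgOver w (Complex.exp (θ * (e p.1 * f p.2))))) with hG
  have hmR : (0 : ℝ) < mr t := by exact_mod_cast hm
  rcases Nat.eq_zero_or_pos q with hq | hq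
  · have : G.card = 0 := by
      rw [Finset.card_eq_zero]
      rw [Finset.eq_empty_iff_forall_notMem]
      rintro ⟨a, b⟩ -
      subst hq
      exact a.elim0
    rw [this]
    push_cast
    positivity
  · have hqR : (0 : ℝ) < q := by exact_mod_cast hq
    have h2 : ((G.card : ℝ)) ^ (mr t) ≤ ((mr t : ℝ) ^ 2 + mr t) * (q : ℝ) ^ (2 * mr t - 1) := by
      exact_mod_cast h1
    have hA : (1 : ℝ) ≤ (mr t : ℝ) ^ 2 + mr t := by
      have : (1 : ℝ) ≤ mr t := by exact_mod_cast hm
      nlinarith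
    have h3 : (((mr t : ℝ) ^ 2 + mr t) * (q : ℝ) ^ (2 - 1 / (mr t : ℝ))) ^ (mr t) ≥
        ((mr t : ℝ) ^ 2 + mr t) * (q : ℝ) ^ (2 * mr t - 1) := by
      rw [mul_pow]
      have h4 : ((q : ℝ) ^ (2 - 1 / (mr t : ℝ))) ^ (mr t) = (q : ℝ) ^ (2 * mr t - 1) := by
        rw [← Real.rpow_natCast, ← Real.rpow_mul hqR.le, ← Real.rpow_natCast]
        congr 1
        rw [Nat.cast_sub (by omega)]
        push_cast
        field_simp
      rw [h4]
      refine mul_le_mul_of_nonneg_right ?_ (by positivity)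
      exact le_self_pow₀ hA (by omega)
    have h5 := h2.trans h3
    exact le_of_pow_le_pow_left₀ (by omega) (by positivity) h5

open scoped Classical in
/-- Powers: in an interval of `d` exponents `s`, few have `exp (θ γ β ^ s)` algebraic over `ℚ(w)`. -/
theorem power_count (t d : ℕ) (hd : 1 ≤ d) (β γ : ℂ) (hβ0 : β ≠ 0) (hγ0 : γ ≠ 0)
    (hβ : IsAlgebraic ℚ β) (hγ : IsAlgebraic ℚ γ)
    (hli : LinearIndependent ℚ (fun i : Fin d => β ^ (i : ℕ)))
    (s₀ : ℤ) (θ : ℂ) (hθ : θ ≠ 0) (w : Fin t → ℂ) :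
    (((Finset.Ico s₀ (s₀ + d)).filter (fun s : ℤ =>
      AlgOver w (Complex.exp (θ * (γ * β ^ s))))).card : ℝ) ≤
      3 * ((mr t : ℝ) ^ 2 + mr t) * (d : ℝ) ^ (1 - 1 / (mr t : ℝ)) := by
  have hm := mr_pos t
  have hmR : (1 : ℝ) ≤ mr t := by exact_mod_cast hm
  have hdR : (1 : ℝ) ≤ d := by exact_mod_cast hd
  set S := (Finset.Ico s₀ (s₀ + d)).filter (fun s : ℤ =>
      AlgOver w (Complex.exp (θ * (γ * β ^ s)))) with hS
  have hSd : S.card ≤ d := by
    refine (Finset.card_filter_le _ _).trans ?_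
    rw [Int.card_Ico]
    omega
  rcases Nat.lt_or_ge d 2 with h | h
  · have hd1 : d = 1 := by omega
    have h1 : (S.card : ℝ) ≤ 1 := by
      have : S.card ≤ 1 := by omega
      exact_mod_cast this
    rw [hd1]
    rw [Nat.cast_one, Real.one_rpow]
    nlinarith
  · set h₂ : ℕ := d / 2 with hh2
    have h₂pos : 1 ≤ h₂ := by omega
    set e : Fin d → ℂ := fun a => β ^ (a : ℕ) with he
    set f : Fin d → ℂ := fun b => γ * β ^ (s₀ - h₂ + (b : ℕ) : ℤ) with hf
    have hfl : LinearIndependent ℚ f := by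
      have h1 := hli.map' (LinearMap.mulRight ℚ (γ * β ^ (s₀ - h₂))) (LinearMap.ker_eq_bot.2 (by
        intro a b hab
        simp only [LinearMap.mulRight_apply] at hab
        exact mul_right_cancel₀ (mul_ne_zero hγ0 (zpow_ne_zero _ hβ0)) hab))
      have h2 : f = (LinearMap.mulRight ℚ (γ * β ^ (s₀ - h₂))) ∘ e := by
        funext b
        simp only [hf, he, Function.comp_apply, LinearMap.mulRight_apply]
        rw [zpow_add₀ hβ0, zpow_natCast]
        ring
      rw [h2]
      exact h1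
    have hzalg : ∀ z : ℤ, IsAlgebraic ℚ (β ^ z) := by
      intro z
      obtain ⟨k, rfl | rfl⟩ := z.eq_nat_or_neg
      · rw [zpow_natCast]; exact hβ.pow k
      · rw [zpow_neg, zpow_natCast]; exact (hβ.pow k).inv
    have hG := rect_count t d e f (fun i => hβ.pow _) (fun i => hγ.mul (hzalg _)) hli hfl θ hθ w
    set G := (Finset.univ.filter (fun p : Fin d × Fin d =>
      AlgOver w (Complex.exp (θ * (e p.1 * f p.2))))) with hGdef
    -- the injection
    have hinj : S.card * h₂ ≤ G.card := by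
      have h1 : (S ×ˢ (Finset.range h₂)).card = S.card * h₂ := by
        rw [Finset.card_product, Finset.card_range]
      rw [← h1]
      set g : ℤ × ℕ → ℕ × ℕ := fun p =>
        if (p.1 - s₀).toNat + h₂ ≤ d - 1 then (p.2, (p.1 - s₀).toNat + h₂ - p.2)
        else (d - 1 - p.2, (p.1 - s₀).toNat + h₂ - (d - 1) + p.2) with hg
      have hgb : ∀ p ∈ S ×ˢ (Finset.range h₂), (g p).1 < d ∧ (g p).2 < d ∧
          (g p).1 + (g p).2 = (p.1 - s₀).toNat + h₂ ∧ 0 ≤ p.1 - s₀ := by
        rintro ⟨s, j⟩ hp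
        rw [Finset.mem_product, Finset.mem_range, hS, Finset.mem_filter, Finset.mem_Ico] at hp
        obtain ⟨⟨⟨h3, h4⟩, -⟩, h5⟩ := hp
        simp only at h3 h4 h5
        simp only [hg]
        split_ifs with h6
        · simp only
          omega
        · simp only
          omega
      have hmem : ∀ p ∈ S ×ˢ (Finset.range h₂), ∀ (h1 : (g p).1 < d) (h2 : (g p).2 < d),
          ((⟨(g p).1, h1⟩, ⟨(g p).2, h2⟩) : Fin d × Fin d) ∈ G := by
        intro p hp h1 h2
        have h3 := hgb p hp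
        have h4 := (Finset.mem_filter.1 (Finset.mem_product.1 hp).1).2
        rw [hGdef, Finset.mem_filter]
        refine ⟨Finset.mem_univ _, ?_⟩
        have h5 : e ⟨(g p).1, h1⟩ * f ⟨(g p).2, h2⟩ = γ * β ^ p.1 := by
          simp only [he, hf]
          have h6 : ((g p).1 : ℤ) + (s₀ - h₂ + ((g p).2 : ℕ)) = p.1 := by omega
          rw [← zpow_natCast, mul_left_comm, ← zpow_add₀ hβ0, h6]
        rw [h5]
        exact h4
      refine Finset.card_le_card_of_injOn (fun p => if h : (g p).1 < d ∧ (g p).2 < d then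
        ((⟨(g p).1, h.1⟩, ⟨(g p).2, h.2⟩) : Fin d × Fin d) else (⟨0, by omega⟩, ⟨0, by omega⟩)) ?_ ?_
      · intro p hp
        have h3 := hgb p hp
        simp only
        rw [dif_pos ⟨h3.1, h3.2.1⟩]
        exact hmem p hp h3.1 h3.2.1
      · intro p hp p' hp' hpp
        have h3 := hgb p hp
        have h3' := hgb p' hp'
        simp only at hpp
        rw [dif_pos ⟨h3.1, h3.2.1⟩, dif_pos ⟨h3'.1, h3'.2.1⟩] at hpp
        have h4 : (g p).1 = (g p').1 := by
          have := congrArg (fun x : Fin d × Fin d => (x.1 : ℕ)) hpp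
          exact this
        have h5 : (g p).2 = (g p').2 := by
          have := congrArg (fun x : Fin d × Fin d => (x.2 : ℕ)) hpp
          exact this
        have h6 : p.1 = p'.1 := by omega
        have h7 : p.2 = p'.2 := by
          have h8 : p.2 < h₂ := Finset.mem_range.1 (Finset.mem_product.1 hp).2
          have h9 : p'.2 < h₂ := Finset.mem_range.1 (Finset.mem_product.1 hp').2
          simp only [hg, h6] at h4
          split_ifs at h4 with h10
          · exact h4
          · simp only at h4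
            omega
        exact Prod.ext h6 h7
    have h3 : (S.card : ℝ) * ((d : ℝ) / 3) ≤ G.card := by
      have h4 : (d : ℝ) / 3 ≤ h₂ := by
        rw [div_le_iff₀ (by norm_num)]
        have : d ≤ h₂ * 3 := by omega
        exact_mod_cast this
      have h5 : (S.card : ℝ) * h₂ ≤ G.card := by exact_mod_cast hinj
      refine le_trans ?_ h5
      exact mul_le_mul_of_nonneg_left h4 (Nat.cast_nonneg _)
    have hd0 : (0 : ℝ) < d := by linarith
    have h6 : (d : ℝ) ^ (2 - 1 / (mr t : ℝ)) = d * (d : ℝ) ^ (1 - 1 / (mr t : ℝ)) := by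
      have : (2 - 1 / (mr t : ℝ)) = 1 + (1 - 1 / (mr t : ℝ)) := by ring
      rw [this, Real.rpow_add hd0, Real.rpow_one]
    rw [h6] at hG
    have h7 := h3.trans hG
    have h8 : (S.card : ℝ) * ((d : ℝ) / 3) ≤
        (3 * ((mr t : ℝ) ^ 2 + mr t) * (d : ℝ) ^ (1 - 1 / (mr t : ℝ))) * ((d : ℝ) / 3) := by
      refine h7.trans (le_of_eq ?_)
      ring
    exact le_of_mul_le_mul_right h8 (by positivity)

end Pool.Agent.Helper18.RC
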