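import Pool.Agent.Helper18.RC.L1

/-!
# Project RC, block RC1: Siegel's lemma over a field of transcendence degree at most `t`

Proof in words. Let `F = ℚ(w_1, ..., w_t)` (the `w_i` need not be independent). Every element of `F` is
`aeval w p / aeval w q` with `p, q : MvPolynomial (Fin t) ℤ`, `aeval w q ≠ 0`
(`IntermediateField.mem_adjoin_range_iff`, then clear denominators). The ring `F[y]` is a finite
`F`-module: let `b_1, ..., b_d` span it. Then `y_i b_v = ∑_u f_(i,u,v) b_u` and `1 = ∑_u g_u b_u` with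
coefficients in `F`; with a common denominator `D` (`aeval w D ≠ 0`), `aeval w D * f = aeval w p`,
`aeval w D * g = aeval w p'`, all polynomials of degree `≤ c₀`, `L1 ≤ c₁`, and also `D`.
By induction on `|μ|`: `(aeval w D) ^ (|μ| + 1) * y ^ μ = ∑_u aeval w (R_(μ,u)) b_u` with
`totalDegree R ≤ c₀ (|μ| + 1)`, `L1 R ≤ (d c₁) ^ (|μ| + 1)`. Hence for `Q` with `totalDegree Q ≤ M`:
`(aeval w D) ^ (M + 1) * aeval y Q = ∑_u aeval w (R_(Q,u)) b_u`,
`R_(Q,u) = ∑_μ coeff μ Q • D ^ (M - |μ|) R_(μ,u)`, degree `≤ c₀ (M + 1)`, `L1 ≤ L1 Q * c₂ ^ (M + 1)`.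
The conditions `∑_i c_i coeff ν (R_(Q_(i,k),u)) = 0` for all `k`, `u` and all `ν` with `|ν| ≤ c₀ (M + 1)` are
at most `card η * d * (c₀ (M + 1) + 1) ^ t` linear equations with integer coefficients bounded by
`H * c₂ ^ (M + 1)`; if `card κ` is at least twice that number, Mathlib's
`Int.Matrix.exists_ne_zero_int_vec_norm_le` gives `c ≠ 0` with `|c_i| ≤ card κ * H * c₂ ^ (M + 1)`
(exponent `m / (n - m) ≤ 1`).
-/

open MvPolynomial

namespace Pool.Agent.Helper18.RC

/-- elements of the field are quotients of integer polynomials in the `w i` -/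
private theorem frac52 {t : ℕ} (w : Fin t → ℂ) {x : ℂ}
    (hx : x ∈ IntermediateField.adjoin ℚ (Set.range w)) :
    ∃ p q : MvPolynomial (Fin t) ℤ, aeval w q ≠ 0 ∧ aeval w q * x = aeval w p := by
  induction hx using IntermediateField.adjoin_induction with
  | mem x hx =>
    obtain ⟨i, rfl⟩ := hx
    exact ⟨X i, 1, by simp, by simp⟩
  | algebraMap x =>
    refine ⟨C x.num, C (x.den : ℤ), ?_, ?_⟩
    · rw [MvPolynomial.aeval_C]
      simp
    · rw [MvPolynomial.aeval_C, MvPolynomial.aeval_C]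
      simp only [algebraMap_int_eq, eq_intCast, Int.cast_natCast, eq_ratCast]
      have h1 : (x.den : ℚ) * x = x.num := Rat.den_mul_eq_num x
      exact_mod_cast h1
  | add x y hx hy h1 h2 =>
    obtain ⟨p, q, hq, hp⟩ := h1
    obtain ⟨p', q', hq', hp'⟩ := h2
    refine ⟨p * q' + p' * q, q * q', ?_, ?_⟩
    · rw [map_mul]
      exact mul_ne_zero hq hq'
    · rw [map_mul, map_add, map_mul, map_mul, ← hp, ← hp']
      ring
  | inv x hx h =>
    obtain ⟨p, q, hq, hp⟩ := h
    by_cases hx0 : x = 0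
    · exact ⟨0, 1, by simp, by simp [hx0]⟩
    · refine ⟨q, p, ?_, ?_⟩
      · rw [← hp]
        exact mul_ne_zero hq hx0
      · rw [← hp, mul_assoc, mul_inv_cancel₀ hx0, mul_one]
  | mul x y hx hy h1 h2 =>
    obtain ⟨p, q, hq, hp⟩ := h1
    obtain ⟨p', q', hq', hp'⟩ := h2
    refine ⟨p * p', q * q', ?_, ?_⟩
    · rw [map_mul]
      exact mul_ne_zero hq hq'
    · rw [map_mul, map_mul, ← hp, ← hp']
      ring

/-- a common denominator -/
private theorem common52 {t : ℕ} (w : Fin t → ℂ) {α : Type*} [Fintype α] (x : α → ℂ)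
    (hx : ∀ a, x a ∈ IntermediateField.adjoin ℚ (Set.range w)) :
    ∃ (D : MvPolynomial (Fin t) ℤ) (p : α → MvPolynomial (Fin t) ℤ), aeval w D ≠ 0 ∧
      ∀ a, aeval w D * x a = aeval w (p a) := by
  classical
  choose p q hq hp using fun a => frac52 w (hx a)
  refine ⟨∏ a, q a, fun a => p a * ∏ b ∈ Finset.univ.erase a, q b, ?_, fun a => ?_⟩
  · rw [map_prod]
    exact Finset.prod_ne_zero_iff.2 fun a _ => hq a
  · rw [← Finset.mul_prod_erase _ _ (Finset.mem_univ a), map_mul, map_mul, ← hp a]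
    ring

/-- The data: a finite set of generators with a multiplication table. -/
private theorem table52 {ι : Type} [Fintype ι] (y : ι → ℂ) {t : ℕ} (w : Fin t → ℂ)
    (hy : ∀ i, AlgOver w (y i)) :
    ∃ (d : ℕ) (b : Fin d → ℂ) (D : MvPolynomial (Fin t) ℤ)
      (P : ι → Fin d → Fin d → MvPolynomial (Fin t) ℤ) (G : Fin d → MvPolynomial (Fin t) ℤ),
      aeval w D ≠ 0 ∧ (∀ i v, aeval w D * (y i * b v) = ∑ u, aeval w (P i u v) * b u) ∧
      aeval w D = ∑ u, aeval w (G u) * b u := by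
  classical
  let F := IntermediateField.adjoin ℚ (Set.range w)
  let K : Subalgebra F ℂ := Algebra.adjoin F (Set.range y)
  have hfg : (Subalgebra.toSubmodule K).FG := fg_adjoin_of_finite (Set.finite_range y) (by
    rintro _ ⟨i, rfl⟩
    exact (hy i).isIntegral)
  obtain ⟨d, b, hb⟩ := Submodule.fg_iff_exists_fin_generating_family.1 hfg
  have hbK : ∀ v, b v ∈ K := fun v => by
    have h1 : b v ∈ Subalgebra.toSubmodule K := by
      rw [← hb]
      exact Submodule.subset_span ⟨v, rfl⟩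
    exact h1
  have hrep : ∀ z ∈ K, ∃ f : Fin d → F, ∑ u, f u • b u = z := by
    intro z hz
    have h1 : z ∈ Submodule.span F (Set.range b) := by
      rw [hb]
      exact hz
    exact (Submodule.mem_span_range_iff_exists_fun F).1 h1
  have h1 : ∀ i v, ∃ f : Fin d → F, ∑ u, f u • b u = y i * b v := fun i v =>
    hrep _ (K.mul_mem (Algebra.subset_adjoin ⟨i, rfl⟩) (hbK v))
  choose f hf using h1
  obtain ⟨g, hg⟩ := hrep 1 K.one_mem
  obtain ⟨D, p, hD, hp⟩ := common52 w (fun a : (ι × Fin d × Fin d) ⊕ Fin d =>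
    Sum.elim (fun a => ((f a.1 a.2.2 a.2.1 : F) : ℂ)) (fun u => ((g u : F) : ℂ)) a) (by
      rintro (a | u)
      · exact (f a.1 a.2.2 a.2.1).2
      · exact (g u).2)
  refine ⟨d, b, D, fun i u v => p (Sum.inl (i, u, v)), fun u => p (Sum.inr u), hD, ?_, ?_⟩
  · intro i v
    rw [← hf i v, Finset.mul_sum]
    refine Finset.sum_congr rfl fun u _ => ?_
    rw [← hp (Sum.inl (i, u, v)), mul_assoc]
    rfl
  · rw [← mul_one (aeval w D), ← hg, Finset.mul_sum]
    refine Finset.sum_congr rfl fun u _ => ?_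
    rw [← hp (Sum.inr u), mul_assoc]
    rfl


/-- representations of the monomials -/
private theorem mono52 {ι : Type} [Fintype ι] (y : ι → ℂ) {t : ℕ} (w : Fin t → ℂ) {d : ℕ}
    (b : Fin d → ℂ) (D : MvPolynomial (Fin t) ℤ)
    (P : ι → Fin d → Fin d → MvPolynomial (Fin t) ℤ) (G : Fin d → MvPolynomial (Fin t) ℤ)
    (hP : ∀ i v, aeval w D * (y i * b v) = ∑ u, aeval w (P i u v) * b u)
    (hG : aeval w D = ∑ u, aeval w (G u) * b u) {c₀ : ℕ} {B : ℝ} (hB1 : 1 ≤ B)
    (hD1 : D.totalDegree ≤ c₀) (hD2 : L1 D ≤ B)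
    (hP1 : ∀ i u v, (P i u v).totalDegree ≤ c₀) (hP2 : ∀ i u, ∑ v, L1 (P i u v) ≤ B)
    (hG1 : ∀ u, (G u).totalDegree ≤ c₀) (hG2 : ∀ u, L1 (G u) ≤ B) (M : ℕ) :
    ∀ μ : ι →₀ ℕ, ∑ i, μ i ≤ M → ∃ R : Fin d → MvPolynomial (Fin t) ℤ,
      aeval w D ^ (M + 1) * aeval y (monomial μ (1 : ℤ)) = ∑ u, aeval w (R u) * b u ∧
      (∀ u, (R u).totalDegree ≤ c₀ * (M + 1)) ∧ ∀ u, L1 (R u) ≤ B ^ (M + 1) := by
  classical
  have hB0 : (0 : ℝ) ≤ B := by linarith
  induction M with
  | zero =>
    intro μ hμ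
    have h0 : μ = 0 := by
      ext i
      have h1 := Finset.single_le_sum (f := fun i => μ i) (fun i _ => Nat.zero_le _)
        (Finset.mem_univ i)
      simp only [Finsupp.coe_zero, Pi.zero_apply]
      omega
    refine ⟨G, ?_, fun u => ?_, fun u => ?_⟩
    · rw [h0, zero_add, pow_one]
      simp only [monomial_zero', map_one, mul_one]
      exact hG
    · simpa using hG1 u
    · simpa using hG2 u
  | succ M ih =>
    intro μ hμ
    rcases Nat.lt_or_ge M (∑ i, μ i) with h1 | h1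
    · have h2 : ∃ i, μ i ≠ 0 := by
        by_contra hcon
        push Not at hcon
        rw [Finset.sum_eq_zero fun i _ => hcon i] at h1
        omega
      obtain ⟨i, hi⟩ := h2
      have h3 : μ = (μ - Finsupp.single i 1) + Finsupp.single i 1 := by
        rw [tsub_add_cancel_of_le]
        rw [Finsupp.single_le_iff]
        omega
      have h4 : ∑ j, (μ - Finsupp.single i 1 : ι →₀ ℕ) j ≤ M := by
        have h5 : ∑ j, μ j = ∑ j, (μ - Finsupp.single i 1 : ι →₀ ℕ) j +
            ∑ j, (Finsupp.single i 1 : ι →₀ ℕ) j := by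
          rw [← Finset.sum_add_distrib]
          refine Finset.sum_congr rfl fun j _ => ?_
          conv_lhs => rw [h3]
          rfl
        have h6 : ∑ j, (Finsupp.single i 1 : ι →₀ ℕ) j = 1 := by
          rw [Finset.sum_eq_single i]
          · simp
          · intro j _ hj
            simp [Ne.symm hj]
          · simp
        omega
      obtain ⟨R, hR, hR1, hR2⟩ := ih _ h4
      refine ⟨fun u => ∑ v, R v * P i u v, ?_, fun u => ?_, fun u => ?_⟩
      · have h7 : aeval y (monomial μ (1 : ℤ)) =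
            aeval y (monomial (μ - Finsupp.single i 1) (1 : ℤ)) * y i := by
          conv_lhs => rw [h3]
          rw [← mul_one (1 : ℤ), ← monomial_mul, map_mul, mul_one]
          congr 1
          exact aeval_X y i
        rw [h7, pow_succ]
        have h8 : aeval w D ^ (M + 1) * aeval w D *
            (aeval y (monomial (μ - Finsupp.single i 1) (1 : ℤ)) * y i) =
            (aeval w D ^ (M + 1) * aeval y (monomial (μ - Finsupp.single i 1) (1 : ℤ))) *
              (aeval w D * y i) := by ring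
        rw [h8, hR, Finset.sum_mul]
        have h9 : ∀ v, aeval w (R v) * b v * (aeval w D * y i) =
            ∑ u, aeval w (R v * P i u v) * b u := by
          intro v
          have h10 : aeval w (R v) * b v * (aeval w D * y i) =
              aeval w (R v) * (aeval w D * (y i * b v)) := by ring
          rw [h10, hP i v, Finset.mul_sum]
          refine Finset.sum_congr rfl fun u _ => ?_
          rw [map_mul]
          ring
        rw [Finset.sum_congr rfl fun v _ => h9 v, Finset.sum_comm]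
        refine Finset.sum_congr rfl fun u _ => ?_
        rw [map_sum, Finset.sum_mul]
      · refine totalDegree_finsetSum_le fun v _ => ?_
        refine (totalDegree_mul _ _).trans ?_
        have := hR1 v
        have := hP1 i u v
        have h11 : c₀ * (M + 1 + 1) = c₀ * (M + 1) + c₀ := by ring
        omega
      · refine (L1_sum _ _).trans ?_
        calc ∑ v, L1 (R v * P i u v) ≤ ∑ v, B ^ (M + 1) * L1 (P i u v) :=
              Finset.sum_le_sum fun v _ => (L1_mul _ _).trans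
                (mul_le_mul_of_nonneg_right (hR2 v) (L1_nonneg _))
          _ = B ^ (M + 1) * ∑ v, L1 (P i u v) := by rw [Finset.mul_sum]
          _ ≤ B ^ (M + 1) * B := mul_le_mul_of_nonneg_left (hP2 i u) (by positivity)
          _ = B ^ (M + 1 + 1) := by ring
    · obtain ⟨R, hR, hR1, hR2⟩ := ih μ h1
      refine ⟨fun u => D * R u, ?_, fun u => ?_, fun u => ?_⟩
      · rw [pow_succ', mul_assoc, hR, Finset.mul_sum]
        refine Finset.sum_congr rfl fun u _ => ?_
        rw [map_mul]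
        ring
      · refine (totalDegree_mul _ _).trans ?_
        have := hR1 u
        have h11 : c₀ * (M + 1 + 1) = c₀ * (M + 1) + c₀ := by ring
        omega
      · refine (L1_mul _ _).trans ?_
        calc L1 D * L1 (R u) ≤ B * B ^ (M + 1) :=
              mul_le_mul hD2 (hR2 u) (L1_nonneg _) hB0
          _ = B ^ (M + 1 + 1) := by ring

/-- representations of the polynomials -/
private theorem poly52 {ι : Type} [Fintype ι] (y : ι → ℂ) {t : ℕ} (w : Fin t → ℂ) {d : ℕ}
    (b : Fin d → ℂ) (D : MvPolynomial (Fin t) ℤ) {c₀ : ℕ} {B : ℝ} (M : ℕ)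
    (hmono : ∀ μ : ι →₀ ℕ, ∑ i, μ i ≤ M → ∃ R : Fin d → MvPolynomial (Fin t) ℤ,
      aeval w D ^ (M + 1) * aeval y (monomial μ (1 : ℤ)) = ∑ u, aeval w (R u) * b u ∧
      (∀ u, (R u).totalDegree ≤ c₀ * (M + 1)) ∧ ∀ u, L1 (R u) ≤ B ^ (M + 1))
    (Q : MvPolynomial ι ℤ) (hQ : Q.totalDegree ≤ M) :
    ∃ R : Fin d → MvPolynomial (Fin t) ℤ,
      aeval w D ^ (M + 1) * aeval y Q = ∑ u, aeval w (R u) * b u ∧
      (∀ u, (R u).totalDegree ≤ c₀ * (M + 1)) ∧ ∀ u, L1 (R u) ≤ L1 Q * B ^ (M + 1) := by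
  classical
  have h1 : ∀ μ ∈ Q.support, ∑ i, μ i ≤ M := by
    intro μ hμ
    have h2 := le_totalDegree hμ
    rw [Finsupp.sum_fintype _ _ fun _ => rfl] at h2
    exact h2.trans hQ
  choose! R hR hR1 hR2 using fun (μ : ι →₀ ℕ) (hμ : μ ∈ Q.support) => hmono μ (h1 μ hμ)
  refine ⟨fun u => ∑ μ ∈ Q.support, C (coeff μ Q) * R μ u, ?_, fun u => ?_, fun u => ?_⟩
  · conv_lhs => rw [Q.as_sum]
    rw [map_sum, Finset.mul_sum]
    have h3 : ∀ μ ∈ Q.support, aeval w D ^ (M + 1) * aeval y (monomial μ (coeff μ Q)) =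
        ∑ u, aeval w (C (coeff μ Q) * R μ u) * b u := by
      intro μ hμ
      have h4 : aeval y (monomial μ (coeff μ Q)) =
          ((coeff μ Q : ℤ) : ℂ) * aeval y (monomial μ (1 : ℤ)) := by
        rw [← mul_one (coeff μ Q), ← C_mul_monomial, map_mul, aeval_C, mul_one]
        simp
      have h5 : aeval w D ^ (M + 1) * (((coeff μ Q : ℤ) : ℂ) * aeval y (monomial μ (1 : ℤ))) =
          ((coeff μ Q : ℤ) : ℂ) * (aeval w D ^ (M + 1) * aeval y (monomial μ (1 : ℤ))) := by ring
      rw [h4, h5, hR μ hμ, Finset.mul_sum]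
      refine Finset.sum_congr rfl fun u _ => ?_
      rw [map_mul, aeval_C]
      simp only [algebraMap_int_eq, eq_intCast]
      ring
    rw [Finset.sum_congr rfl h3, Finset.sum_comm]
    refine Finset.sum_congr rfl fun u _ => ?_
    rw [map_sum, Finset.sum_mul]
  · refine totalDegree_finsetSum_le fun μ hμ => ?_
    refine (totalDegree_mul _ _).trans ?_
    rw [totalDegree_C, zero_add]
    exact hR1 μ hμ u
  · refine (L1_sum _ _).trans ?_
    unfold L1
    rw [Finset.sum_mul]
    refine Finset.sum_le_sum fun μ hμ => ?_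
    have h6 := L1_mul (C (coeff μ Q)) (R μ u)
    rw [L1_C] at h6
    exact h6.trans (mul_le_mul_of_nonneg_left (hR2 μ hμ u) (abs_nonneg _))

attribute [local instance] Matrix.seminormedAddCommGroup in
/-- Siegel's lemma with at least twice as many unknowns as equations -/
private theorem lin52 {α κ : Type} [Fintype α] [Fintype κ] (A : α → κ → ℤ) {T : ℝ} (hT : 1 ≤ T)
    (hA : ∀ a i, |(A a i : ℝ)| ≤ T) (hκ : 0 < Fintype.card κ)
    (hc : 2 * Fintype.card α ≤ Fintype.card κ) :
    ∃ c : κ → ℤ, c ≠ 0 ∧ (∀ i, |(c i : ℝ)| ≤ Fintype.card κ * T) ∧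
      ∀ a, ∑ i, A a i * c i = 0 := by
  classical
  have hκ1 : (1 : ℝ) ≤ Fintype.card κ := by exact_mod_cast hκ
  have hκT : (1 : ℝ) ≤ Fintype.card κ * T := by nlinarith
  rcases Nat.eq_zero_or_pos (Fintype.card α) with h0 | h0
  · have : IsEmpty α := Fintype.card_eq_zero_iff.1 h0
    have : Nonempty κ := Fintype.card_pos_iff.1 hκ
    refine ⟨fun _ => 1, ?_, fun i => ?_, fun a => isEmptyElim a⟩
    · intro h
      have h1 := congrFun h (Classical.arbitrary κ)
      simp at h1
    · simpa using hκT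
  · obtain ⟨c, hc0, hc1, hc2⟩ := Int.Matrix.exists_ne_zero_int_vec_norm_le (Matrix.of A)
      (by omega) h0
    refine ⟨c, hc0, fun i => ?_, fun a => ?_⟩
    · have h1 : |(c i : ℝ)| ≤ ‖c‖ := by
        rw [← Int.norm_eq_abs]
        exact norm_le_pi_norm c i
      have h2 : ‖Matrix.of A‖ ≤ T := by
        rw [Matrix.norm_le_iff (by linarith)]
        intro a j
        rw [Int.norm_eq_abs]
        exact hA a j
      have h3 : (Fintype.card κ : ℝ) * max 1 ‖Matrix.of A‖ ≤ Fintype.card κ * T :=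
        mul_le_mul_of_nonneg_left (max_le hT h2) (by linarith)
      have h4 : (1 : ℝ) ≤ Fintype.card κ * max 1 ‖Matrix.of A‖ := by
        have := le_max_left (1 : ℝ) ‖Matrix.of A‖
        nlinarith
      have h5 : (Fintype.card α : ℝ) / (Fintype.card κ - Fintype.card α) ≤ 1 := by
        have h6 : (2 : ℝ) * Fintype.card α ≤ Fintype.card κ := by exact_mod_cast hc
        have h7 : (0 : ℝ) < Fintype.card α := by exact_mod_cast h0
        rw [div_le_one (by linarith)]
        linarith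
      calc |(c i : ℝ)| ≤ ‖c‖ := h1
        _ ≤ _ := hc2
        _ ≤ ((Fintype.card κ : ℝ) * max 1 ‖Matrix.of A‖) ^ (1 : ℝ) :=
            Real.rpow_le_rpow_of_exponent_le h4 h5
        _ = (Fintype.card κ : ℝ) * max 1 ‖Matrix.of A‖ := Real.rpow_one _
        _ ≤ _ := h3
    · have h1 := congrFun hc1 a
      exact h1

/-- one coefficient is at most the sum -/
private theorem coeff_le52 {σ : Type*} (P : MvPolynomial σ ℤ) (ν : σ →₀ ℕ) :
    |((coeff ν P : ℤ) : ℝ)| ≤ L1 P := by
  classical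
  by_cases h : ν ∈ P.support
  · exact Finset.single_le_sum (f := fun μ => |((coeff μ P : ℤ) : ℝ)|)
      (fun _ _ => abs_nonneg _) h
  · rw [notMem_support_iff.1 h]
    simpa using L1_nonneg P

/-- **Siegel's lemma** over a field of transcendence degree at most `t`. -/
theorem siegel {ι : Type} [Fintype ι] (y : ι → ℂ) {t : ℕ} (w : Fin t → ℂ)
    (hy : ∀ i, AlgOver w (y i)) :
    ∃ C : ℕ, 0 < C ∧ ∀ {κ η : Type} [Fintype κ] [Fintype η] (M : ℕ) (H : ℝ)
      (Q : κ → η → MvPolynomial ι ℤ), 1 ≤ H → (∀ i k, (Q i k).totalDegree ≤ M) →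
      (∀ i k, L1 (Q i k) ≤ H) → 0 < Fintype.card κ →
      C * Fintype.card η * (M + 1) ^ t ≤ Fintype.card κ →
      ∃ c : κ → ℤ, c ≠ 0 ∧
        (∀ i, |(c i : ℝ)| ≤ Fintype.card κ * H * (C : ℝ) ^ (M + 1)) ∧
        ∀ k, ∑ i, (c i : ℂ) * aeval y (Q i k) = 0 := by
  classical
  obtain ⟨d, b, D, P, G, hD, hP, hG⟩ := table52 y w hy
  obtain ⟨c₀, hD1, hP1, hG1⟩ : ∃ c₀ : ℕ, D.totalDegree ≤ c₀ ∧
      (∀ i u v, (P i u v).totalDegree ≤ c₀) ∧ ∀ u, (G u).totalDegree ≤ c₀ := by
    refine ⟨D.totalDegree + (∑ i, ∑ u, ∑ v, (P i u v).totalDegree) + ∑ u, (G u).totalDegree,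
      by omega, fun i u v => ?_, fun u => ?_⟩
    · have h1 := Finset.single_le_sum (f := fun i => ∑ u, ∑ v, (P i u v).totalDegree)
        (fun _ _ => Nat.zero_le _) (Finset.mem_univ i)
      have h2 := Finset.single_le_sum (f := fun u => ∑ v, (P i u v).totalDegree)
        (fun _ _ => Nat.zero_le _) (Finset.mem_univ u)
      have h3 := Finset.single_le_sum (f := fun v => (P i u v).totalDegree)
        (fun _ _ => Nat.zero_le _) (Finset.mem_univ v)
      omega
    · have h1 := Finset.single_le_sum (f := fun u => (G u).totalDegree)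
        (fun _ _ => Nat.zero_le _) (Finset.mem_univ u)
      omega
  obtain ⟨B, hB1, hD2, hP2, hG2⟩ : ∃ B : ℝ, 1 ≤ B ∧ L1 D ≤ B ∧
      (∀ i u, ∑ v, L1 (P i u v) ≤ B) ∧ ∀ u, L1 (G u) ≤ B := by
    have hs0 : 0 ≤ ∑ i, ∑ u, ∑ v, L1 (P i u v) := Finset.sum_nonneg fun _ _ =>
      Finset.sum_nonneg fun _ _ => Finset.sum_nonneg fun _ _ => L1_nonneg _
    have hg0 : 0 ≤ ∑ u, L1 (G u) := Finset.sum_nonneg fun _ _ => L1_nonneg _
    have hd0 := L1_nonneg D
    refine ⟨1 + L1 D + (∑ i, ∑ u, ∑ v, L1 (P i u v)) + ∑ u, L1 (G u),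
      by linarith, by linarith, fun i u => ?_, fun u => ?_⟩
    · have h1 := Finset.single_le_sum (f := fun i => ∑ u, ∑ v, L1 (P i u v))
        (fun _ _ => Finset.sum_nonneg fun _ _ => Finset.sum_nonneg fun _ _ => L1_nonneg _)
        (Finset.mem_univ i)
      have h2 := Finset.single_le_sum (f := fun u => ∑ v, L1 (P i u v))
        (fun _ _ => Finset.sum_nonneg fun _ _ => L1_nonneg _) (Finset.mem_univ u)
      linarith
    · have h1 := Finset.single_le_sum (f := fun u => L1 (G u))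
        (fun _ _ => L1_nonneg _) (Finset.mem_univ u)
      linarith
  have hB0 : (0 : ℝ) ≤ B := by linarith
  obtain ⟨B', hB'⟩ := exists_nat_ge B
  refine ⟨2 * d * (c₀ + 1) ^ t + B' + 1, by omega, ?_⟩
  intro κ η _ _ M H Q hH hQ1 hQ2 hκ hcard
  have hmono := mono52 y w b D P G hP hG hB1 hD1 hD2 hP1 hP2 hG1 hG2 M
  choose R hR hR1 hR2 using fun (i : κ) (k : η) => poly52 y w b D M hmono (Q i k) (hQ1 i k)
  have hBM : (1 : ℝ) ≤ B ^ (M + 1) := one_le_pow₀ hB1
  have hT : (1 : ℝ) ≤ H * B ^ (M + 1) := by nlinarith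
  have hcα : 2 * Fintype.card (η × Fin d × (Fin t → Fin (c₀ * (M + 1) + 1))) ≤ Fintype.card κ := by
    have h1 : Fintype.card (η × Fin d × (Fin t → Fin (c₀ * (M + 1) + 1))) =
        Fintype.card η * (d * (c₀ * (M + 1) + 1) ^ t) := by
      simp [Fintype.card_prod, Fintype.card_fin]
    have h2 : (c₀ * (M + 1) + 1) ^ t ≤ (c₀ + 1) ^ t * (M + 1) ^ t := by
      rw [← mul_pow]
      refine Nat.pow_le_pow_left ?_ t
      nlinarith [Nat.zero_le c₀, Nat.zero_le M]
    rw [h1]
    calc 2 * (Fintype.card η * (d * (c₀ * (M + 1) + 1) ^ t)) ≤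
          2 * (Fintype.card η * (d * ((c₀ + 1) ^ t * (M + 1) ^ t))) :=
          Nat.mul_le_mul_left _ (Nat.mul_le_mul_left _ (Nat.mul_le_mul_left _ h2))
      _ = (2 * d * (c₀ + 1) ^ t) * Fintype.card η * (M + 1) ^ t := by ring
      _ ≤ (2 * d * (c₀ + 1) ^ t + B' + 1) * Fintype.card η * (M + 1) ^ t :=
          Nat.mul_le_mul_right _ (Nat.mul_le_mul_right _ (by omega))
      _ ≤ _ := hcard
  obtain ⟨c, hc0, hc1, hc2⟩ := lin52
    (fun (a : η × Fin d × (Fin t → Fin (c₀ * (M + 1) + 1))) (i : κ) =>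
      coeff (Finsupp.equivFunOnFinite.symm fun j => (a.2.2 j : ℕ)) (R i a.1 a.2.1)) hT
    (fun a i => by
      refine (coeff_le52 _ _).trans ((hR2 i a.1 a.2.1).trans ?_)
      exact mul_le_mul_of_nonneg_right (hQ2 i a.1) (by positivity)) hκ hcα
  refine ⟨c, hc0, fun i => (hc1 i).trans ?_, fun k => ?_⟩
  · have h1 : B ^ (M + 1) ≤ ((2 * d * (c₀ + 1) ^ t + B' + 1 : ℕ) : ℝ) ^ (M + 1) := by
      refine pow_le_pow_left₀ hB0 ?_ _
      refine hB'.trans ?_
      exact_mod_cast (by omega : B' ≤ 2 * d * (c₀ + 1) ^ t + B' + 1)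
    have h2 : (0 : ℝ) ≤ (Fintype.card κ : ℝ) * H := by positivity
    calc (Fintype.card κ : ℝ) * (H * B ^ (M + 1)) = (Fintype.card κ : ℝ) * H * B ^ (M + 1) := by
          ring
      _ ≤ _ := mul_le_mul_of_nonneg_left h1 h2
  · have h3 : ∀ u, ∑ i, C (c i) * R i k u = 0 := by
      intro u
      ext ν
      rw [coeff_zero, coeff_sum]
      simp only [coeff_C_mul]
      by_cases hν : ∀ j, ν j < c₀ * (M + 1) + 1
      · have h4 := hc2 (k, u, fun j => ⟨ν j, hν j⟩)
        simp only at h4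
        have h5 : (Finsupp.equivFunOnFinite.symm fun j => ν j) = ν := by
          ext j
          rfl
        rw [h5] at h4
        rw [← h4]
        exact Finset.sum_congr rfl fun i _ => mul_comm _ _
      · push Not at hν
        obtain ⟨j, hj⟩ := hν
        refine Finset.sum_eq_zero fun i _ => ?_
        have h6 : coeff ν (R i k u) = 0 := by
          by_contra hne
          have h7 := le_totalDegree (mem_support_iff.2 hne)
          rw [Finsupp.sum_fintype _ _ fun _ => rfl] at h7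
          have h8 := Finset.single_le_sum (f := fun j => ν j) (fun _ _ => Nat.zero_le _)
            (Finset.mem_univ j)
          have h9 := hR1 i k u
          omega
        rw [h6, mul_zero]
    have h10 : aeval w D ^ (M + 1) * ∑ i, (c i : ℂ) * aeval y (Q i k) = 0 := by
      rw [Finset.mul_sum]
      have h11 : ∀ i, aeval w D ^ (M + 1) * ((c i : ℂ) * aeval y (Q i k)) =
          ∑ u, aeval w (C (c i) * R i k u) * b u := by
        intro i
        have h12 : aeval w D ^ (M + 1) * ((c i : ℂ) * aeval y (Q i k)) =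
            (c i : ℂ) * (aeval w D ^ (M + 1) * aeval y (Q i k)) := by ring
        rw [h12, hR i k, Finset.mul_sum]
        refine Finset.sum_congr rfl fun u _ => ?_
        rw [map_mul, aeval_C]
        simp only [algebraMap_int_eq, eq_intCast]
        ring
      rw [Finset.sum_congr rfl fun i _ => h11 i, Finset.sum_comm]
      refine Finset.sum_eq_zero fun u _ => ?_
      rw [← Finset.sum_mul, ← map_sum, h3 u, map_zero, zero_mul]
    rcases mul_eq_zero.1 h10 with h13 | h13
    · exact absurd (eq_zero_of_pow_eq_zero h13) hD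
    · exact h13

end Pool.Agent.Helper18.RC
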