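import Pool.Agent.Helper18.RC.Poly
import Pool.Agent.Helper18.RC.Density
import Pool.Agent.Helper18.RC.Radical
import Pool.Agent.Helper18.RC.VSpace

/-!
# Project RC: few exponents `D ^ ρ` lead into a field of small transcendence degree
-/

namespace Pool.Agent.Helper18.RC

/-- Real radicals are algebraic. -/
theorem rpow_alg (c : ℕ) (ρ : ℚ) : IsAlgebraic ℚ (((c : ℝ) ^ (ρ : ℝ) : ℝ) : ℂ) := by
  refine IsAlgebraic.of_pow ρ.den_pos ?_
  have h1 : (((c : ℝ) ^ (ρ : ℝ) : ℝ) : ℂ) ^ ρ.den = (c : ℂ) ^ ρ.num := by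
    have h2 : ((c : ℝ) ^ (ρ : ℝ)) ^ ρ.den = (c : ℝ) ^ ρ.num := by
      rw [← Real.rpow_natCast, ← Real.rpow_mul (Nat.cast_nonneg c), ← Real.rpow_intCast]
      congr 1
      have : (ρ : ℝ) * (ρ.den : ℝ) = ((ρ * ρ.den : ℚ) : ℝ) := by push_cast; ring
      rw [this, Rat.mul_den_eq_num]
      simp
    rw [← Complex.ofReal_pow, h2]
    push_cast
    ring
  rw [h1]
  have h3 : IsAlgebraic ℚ (c : ℂ) := isAlgebraic_natCast c
  obtain ⟨k, hk | hk⟩ := ρ.num.eq_nat_or_neg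
  · rw [hk, zpow_natCast]
    exact h3.pow k
  · rw [hk, zpow_neg, zpow_natCast]
    exact (h3.pow k).inv

theorem exp_pi_alg (ρ : ℚ) : IsAlgebraic ℚ (Complex.exp (Real.pi * Complex.I * ρ)) := by
  refine IsAlgebraic.of_pow (n := 2 * ρ.den) (by have := ρ.den_pos; omega) ?_
  have h1 : Complex.exp (Real.pi * Complex.I * ρ) ^ (2 * ρ.den) = 1 := by
    rw [← Complex.exp_nat_mul, Complex.exp_eq_one_iff]
    refine ⟨ρ.num, ?_⟩
    have h2 : ((ρ.den : ℚ) : ℂ) * (ρ : ℂ) = ((ρ.num : ℚ) : ℂ) := by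
      rw [← Rat.cast_mul, Rat.den_mul_eq_num]
    push_cast at h2 ⊢
    calc 2 * (ρ.den : ℂ) * (Real.pi * Complex.I * ρ) =
        (ρ.den * ρ) * (2 * Real.pi * Complex.I) := by ring
      _ = _ := by rw [h2]
  rw [h1]
  exact isAlgebraic_one

/-- One sign. -/
theorem sparse_one (t : ℕ) (ε : ℝ) (hε : 0 < ε) : ∃ X₀ : ℕ, ∀ X ≥ X₀, ∀ (ρ : ℚ),
    (∀ z : ℤ, (z : ℚ) ≠ ρ) → ∀ (u : ℂ), u ≠ 0 → IsAlgebraic ℚ u → ∀ θ : ℂ, θ ≠ 0 →
    ∀ (w : Fin t → ℂ) (S : Finset ℕ), (∀ D ∈ S, 1 ≤ D ∧ D ≤ X) → (∀ D ∈ S, Squarefree D) →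
      (∀ D ∈ S, AlgOver w (Complex.exp (θ * ((((D : ℝ) ^ (ρ : ℝ) : ℝ) : ℂ) * u)))) →
      (S.card : ℝ) ≤ ε * X := by
  obtain ⟨m, hm⟩ := rectangle t
  obtain ⟨X₀, hX₀⟩ := density m ε hε
  refine ⟨X₀, fun X hX ρ hρ u hu hua θ hθ w S hS hSq hSa => hX₀ X hX S hS ?_⟩
  intro p c hp hc hpp hpc
  have hlin : ∀ (d : Fin m → ℕ), Function.Injective d → (∀ i, Squarefree (d i)) →
      LinearIndependent ℚ (fun i => (((d i : ℝ) ^ (ρ : ℝ) : ℝ) : ℂ)) := by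
    intro d hd hds
    have h1 := rpow_linearIndependent d hd hds ρ hρ
    have h2 := h1.map' (Complex.ofRealAm.restrictScalars ℚ).toLinearMap
      (LinearMap.ker_eq_bot.2 Complex.ofReal_injective)
    exact h2
  have hcs : ∀ j, Squarefree (c j) := by
    intro j
    exact (hSq _ (hpc j j)).of_mul_right
  refine hm θ hθ (fun i => (((p i : ℝ) ^ (ρ : ℝ) : ℝ) : ℂ))
    (fun j => (((c j : ℝ) ^ (ρ : ℝ) : ℝ) : ℂ) * u) (fun i => rpow_alg _ _)
    (fun j => (rpow_alg _ _).mul hua) (hlin p hp fun i => (hpp i).squarefree) ?_ w ?_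
  · have h1 := hlin c hc hcs
    have h2 := h1.map' (LinearMap.mulRight ℚ u) (LinearMap.ker_eq_bot.2 (by
      intro a b hab
      simp only [LinearMap.mulRight_apply] at hab
      exact mul_right_cancel₀ hu hab))
    exact h2
  · intro i j
    have h1 := hSa _ (hpc i j)
    have h2 : θ * (((((p i * c j : ℕ) : ℝ) ^ (ρ : ℝ) : ℝ) : ℂ) * u) =
        θ * (((p i : ℝ) ^ (ρ : ℝ) : ℝ) : ℂ) * ((((c j : ℝ) ^ (ρ : ℝ) : ℝ) : ℂ) * u) := by
      push_cast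
      rw [Real.mul_rpow (Nat.cast_nonneg _) (Nat.cast_nonneg _)]
      push_cast
      ring
    rw [h2] at h1
    exact h1

/-- The complex power of an integer. -/
theorem cpow_pos (d : ℕ) (ρ : ℚ) : (((d : ℤ) : ℂ)) ^ (ρ : ℂ) = (((d : ℝ) ^ (ρ : ℝ) : ℝ) : ℂ) := by
  rw [Complex.ofReal_cpow (Nat.cast_nonneg d)]
  push_cast
  rfl

theorem cpow_neg (d : ℕ) (ρ : ℚ) : ((-(d : ℤ) : ℤ) : ℂ) ^ (ρ : ℂ) =
    (((d : ℝ) ^ (ρ : ℝ) : ℝ) : ℂ) * Complex.exp (Real.pi * Complex.I * ρ) := by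
  have h1 := Complex.ofReal_cpow_of_nonpos (x := -(d : ℝ)) (by simp) (ρ : ℂ)
  rw [Complex.ofReal_cpow (Nat.cast_nonneg d)]
  push_cast at h1 ⊢
  rw [h1]
  simp

open scoped Classical in
/-- Both signs. -/
theorem sparse (t : ℕ) (ε : ℝ) (hε : 0 < ε) : ∃ X₀ : ℕ, ∀ X ≥ X₀, ∀ (ρ : ℚ),
    (∀ z : ℤ, (z : ℚ) ≠ ρ) → ∀ θ : ℂ, θ ≠ 0 → ∀ (w : Fin t → ℂ),
      ((((Finset.Icc (-(X : ℤ)) X).filter (fun D => Squarefree D ∧ D ≠ 1)).filter
        (fun D : ℤ => AlgOver w (Complex.exp (θ * (D : ℂ) ^ (ρ : ℂ))))).card : ℝ) ≤ 2 * ε * X := by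
  obtain ⟨X₀, hX₀⟩ := sparse_one t ε hε
  refine ⟨X₀, fun X hX ρ hρ θ hθ w => ?_⟩
  set S := ((Finset.Icc (-(X : ℤ)) X).filter (fun D => Squarefree D ∧ D ≠ 1)).filter
        (fun D : ℤ => AlgOver w (Complex.exp (θ * (D : ℂ) ^ (ρ : ℂ)))) with hS
  set S1 := (Finset.Icc 1 X).filter (fun d : ℕ => (d : ℤ) ∈ S) with hS1
  set S2 := (Finset.Icc 1 X).filter (fun d : ℕ => (-(d : ℤ)) ∈ S) with hS2
  have h1 := hX₀ X hX ρ hρ 1 one_ne_zero isAlgebraic_one θ hθ w S1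
    (fun D hD => Finset.mem_Icc.1 (Finset.mem_filter.1 hD).1)
    (fun D hD => by
      have h2 := (Finset.mem_filter.1 hD).2
      rw [hS, Finset.mem_filter, Finset.mem_filter] at h2
      exact Int.squarefree_natCast.1 h2.1.2.1)
    (fun D hD => by
      have h2 := (Finset.mem_filter.1 hD).2
      rw [hS, Finset.mem_filter, Finset.mem_filter, cpow_pos] at h2
      rw [mul_one]
      exact h2.2)
  have h2 := hX₀ X hX ρ hρ (Complex.exp (Real.pi * Complex.I * ρ)) (Complex.exp_ne_zero _)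
    (exp_pi_alg ρ) θ hθ w S2
    (fun D hD => Finset.mem_Icc.1 (Finset.mem_filter.1 hD).1)
    (fun D hD => by
      have h2 := (Finset.mem_filter.1 hD).2
      rw [hS, Finset.mem_filter, Finset.mem_filter] at h2
      have h3 := h2.1.2.1
      rw [← Int.squarefree_natAbs, Int.natAbs_neg, Int.natAbs_natCast] at h3
      exact h3)
    (fun D hD => by
      have h2 := (Finset.mem_filter.1 hD).2
      rw [hS, Finset.mem_filter, Finset.mem_filter, cpow_neg] at h2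
      exact h2.2)
  have h3 : S ⊆ S1.image (fun d : ℕ => (d : ℤ)) ∪ S2.image (fun d : ℕ => (-(d : ℤ))) := by
    intro D hD
    have hD' := hD
    rw [hS, Finset.mem_filter, Finset.mem_filter, Finset.mem_Icc] at hD'
    obtain ⟨⟨⟨hl, hu⟩, hsq, -⟩, -⟩ := hD'
    have hD0 : D ≠ 0 := hsq.ne_zero
    rw [Finset.mem_union, Finset.mem_image, Finset.mem_image]
    rcases lt_or_gt_of_ne hD0 with h | h
    · right
      refine ⟨D.natAbs, ?_, by omega⟩
      rw [hS2, Finset.mem_filter, Finset.mem_Icc]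
      have : -((D.natAbs : ℕ) : ℤ) = D := by omega
      rw [this]
      exact ⟨by omega, hD⟩
    · left
      refine ⟨D.natAbs, ?_, by omega⟩
      rw [hS1, Finset.mem_filter, Finset.mem_Icc]
      have : ((D.natAbs : ℕ) : ℤ) = D := by omega
      rw [this]
      exact ⟨by omega, hD⟩
  have h4 : S.card ≤ S1.card + S2.card :=
    (Finset.card_le_card h3).trans ((Finset.card_union_le _ _).trans
      (Nat.add_le_add Finset.card_image_le Finset.card_image_le))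
  have h5 : (S.card : ℝ) ≤ S1.card + S2.card := by exact_mod_cast h4
  linarith

end Pool.Agent.Helper18.RC
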