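import Mathlib

/-!
# Project RC, block RC6: square roots of distinct squarefree numbers are linearly independent

Proof in words. Let `F_s ⊂ ℝ` be the field generated by `√p_1, ..., √p_s` (distinct primes).
Claim: for `c > 1` squarefree and prime to all `p_i`, `√c ∉ F_s`. Induction on `s`: `s = 0` is the
irrationality of `√c`. If `√c = a + b √p_s` with `a, b ∈ F_(s-1)` then `c = a² + b² p_s + 2 a b √p_s`; if
`a b ≠ 0` then `√p_s ∈ F_(s-1)`, excluded by induction (for `c = p_s`); `b = 0` is excluded by induction; if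
`a = 0` then `√(c p_s) = b p_s ∈ F_(s-1)`, excluded by induction for `c p_s`.
Linear independence: let `∑ q_j √c_j = 0` be a relation; take a prime `p` which divides some but not all
`c_j` with `q_j ≠ 0`; write it as `A + B √p = 0` with `A, B` combinations of roots of numbers prime to `p`;
then `A = B = 0` by the claim (all roots involved lie in the field of the other primes), and both are
shorter relations (or do an induction on the set of primes involved).
-/

namespace Pool.Agent.Helper18.RC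

/-- The subfield `F + F s` for `s ^ 2 ∈ F`. -/
private def quadExt_h54 (F : Subfield ℝ) (s : ℝ) (hs : s * s ∈ F) : Subfield ℝ where
  carrier := {x | ∃ a ∈ F, ∃ b ∈ F, x = a + b * s}
  mul_mem' := by
    rintro _ _ ⟨a, ha, b, hb, rfl⟩ ⟨a', ha', b', hb', rfl⟩
    refine ⟨a * a' + b * b' * (s * s),
      F.add_mem (F.mul_mem ha ha') (F.mul_mem (F.mul_mem hb hb') hs),
      a * b' + b * a', F.add_mem (F.mul_mem ha hb') (F.mul_mem hb ha'), ?_⟩
    ring
  one_mem' := ⟨1, F.one_mem, 0, F.zero_mem, by ring⟩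
  add_mem' := by
    rintro _ _ ⟨a, ha, b, hb, rfl⟩ ⟨a', ha', b', hb', rfl⟩
    exact ⟨a + a', F.add_mem ha ha', b + b', F.add_mem hb hb', by ring⟩
  zero_mem' := ⟨0, F.zero_mem, 0, F.zero_mem, by ring⟩
  neg_mem' := by
    rintro _ ⟨a, ha, b, hb, rfl⟩
    exact ⟨-a, F.neg_mem ha, -b, F.neg_mem hb, by ring⟩
  inv_mem' := by
    rintro _ ⟨a, ha, b, hb, rfl⟩
    by_cases h0 : a + b * s = 0
    · rw [h0, inv_zero]
      exact ⟨0, F.zero_mem, 0, F.zero_mem, by ring⟩
    by_cases hN : a * a - b * b * (s * s) = 0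
    · have h1 : (a + b * s) * (a - b * s) = 0 := by
        rw [← hN]
        ring
      have h2 : a - b * s = 0 := (mul_eq_zero.1 h1).resolve_left h0
      have h3 : a + b * s = a + a := by linear_combination -h2
      rw [h3]
      exact ⟨(a + a)⁻¹, F.inv_mem (F.add_mem ha ha), 0, F.zero_mem, by ring⟩
    · have hNF : a * a - b * b * (s * s) ∈ F :=
        F.sub_mem (F.mul_mem ha ha) (F.mul_mem (F.mul_mem hb hb) hs)
      refine ⟨a * (a * a - b * b * (s * s))⁻¹, F.mul_mem ha (F.inv_mem hNF),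
        -b * (a * a - b * b * (s * s))⁻¹, F.mul_mem (F.neg_mem hb) (F.inv_mem hNF), ?_⟩
      have h4 : a * (a * a - b * b * (s * s))⁻¹ + -b * (a * a - b * b * (s * s))⁻¹ * s =
          (a - b * s) * (a * a - b * b * (s * s))⁻¹ := by ring
      rw [h4]
      refine inv_eq_of_mul_eq_one_right ?_
      rw [← mul_assoc]
      have h5 : (a + b * s) * (a - b * s) = a * a - b * b * (s * s) := by ring
      rw [h5, mul_inv_cancel₀ hN]

private theorem mem_quadExt_h54 {F : Subfield ℝ} {s : ℝ} {hs : s * s ∈ F} {x : ℝ} :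
    x ∈ quadExt_h54 F s hs ↔ ∃ a ∈ F, ∃ b ∈ F, x = a + b * s := Iff.rfl

private theorem natCast_mem_h54 (F : Subfield ℝ) (n : ℕ) : (n : ℝ) ∈ F := by
  induction n with
  | zero =>
    rw [Nat.cast_zero]
    exact F.zero_mem
  | succ n ih =>
    rw [Nat.cast_succ]
    exact F.add_mem ih F.one_mem

/-- The tower of quadratic fields. -/
private theorem exists_field_h54 (S : Finset ℕ) (hS : ∀ p ∈ S, p.Prime) :
    ∃ F : Subfield ℝ, (∀ p ∈ S, Real.sqrt (p : ℕ) ∈ F) ∧
      ∀ c : ℕ, Squarefree c → 1 < c → (∀ p ∈ S, ¬ p ∣ c) → Real.sqrt (c : ℕ) ∉ F := by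
  classical
  induction S using Finset.induction_on with
  | empty =>
    refine ⟨(algebraMap ℚ ℝ).fieldRange, by simp, fun c hc hc1 _ h => ?_⟩
    obtain ⟨q, hq⟩ := h
    have hirr : Irrational (Real.sqrt (c : ℕ)) := by
      rw [irrational_sqrt_natCast_iff]
      rintro ⟨a, ha⟩
      have h1 : IsUnit a := hc a ⟨1, by rw [mul_one, ha]⟩
      rw [Nat.isUnit_iff] at h1
      rw [h1] at ha
      omega
    exact hirr ⟨q, hq⟩
  | insert p S hpS ih =>
    obtain ⟨F, hF1, hF2⟩ := ih fun q hq => hS q (Finset.mem_insert_of_mem hq)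
    have hp : p.Prime := hS p (Finset.mem_insert_self p S)
    have hpF : Real.sqrt (p : ℕ) ∉ F := by
      refine hF2 p hp.prime.squarefree hp.one_lt fun q hq hqp => ?_
      have h1 := (Nat.prime_dvd_prime_iff_eq (hS q (Finset.mem_insert_of_mem hq)) hp).1 hqp
      exact hpS (h1 ▸ hq)
    have hss : Real.sqrt (p : ℕ) * Real.sqrt (p : ℕ) = (p : ℝ) :=
      Real.mul_self_sqrt (Nat.cast_nonneg p)
    have hs : Real.sqrt (p : ℕ) * Real.sqrt (p : ℕ) ∈ F := by
      rw [hss]
      exact natCast_mem_h54 F p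
    refine ⟨quadExt_h54 F (Real.sqrt (p : ℕ)) hs, fun q hq => ?_, fun c hc hc1 hcS h => ?_⟩
    · rw [mem_quadExt_h54]
      rcases Finset.mem_insert.1 hq with rfl | hq
      · exact ⟨0, F.zero_mem, 1, F.one_mem, by ring⟩
      · exact ⟨_, hF1 q hq, 0, F.zero_mem, by ring⟩
    · rw [mem_quadExt_h54] at h
      obtain ⟨a, ha, b, hb, hab⟩ := h
      have hcc : Real.sqrt (c : ℕ) * Real.sqrt (c : ℕ) = (c : ℝ) :=
        Real.mul_self_sqrt (Nat.cast_nonneg c)
      have hcS' : ∀ q ∈ S, ¬ q ∣ c := fun q hq => hcS q (Finset.mem_insert_of_mem hq)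
      by_cases hb0 : b = 0
      · rw [hb0, zero_mul, add_zero] at hab
        exact hF2 c hc hc1 hcS' (hab ▸ ha)
      by_cases ha0 : a = 0
      · rw [ha0, zero_add] at hab
        have hcop : Nat.Coprime p c :=
          (Nat.Prime.coprime_iff_not_dvd hp).2 (hcS p (Finset.mem_insert_self p S))
        refine hF2 (p * c) ((Nat.squarefree_mul hcop).2 ⟨hp.prime.squarefree, hc⟩)
          (by nlinarith [hp.one_lt]) (fun q hq hqpc => ?_) ?_
        · have hqp : q.Prime := hS q (Finset.mem_insert_of_mem hq)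
          rcases (Nat.Prime.dvd_mul hqp).1 hqpc with h1 | h1
          · have h2 := (Nat.prime_dvd_prime_iff_eq hqp hp).1 h1
            exact hpS (h2 ▸ hq)
          · exact hcS' q hq h1
        · rw [Nat.cast_mul, Real.sqrt_mul (Nat.cast_nonneg p), hab]
          have h1 : Real.sqrt (p : ℕ) * (b * Real.sqrt (p : ℕ)) = b * (p : ℝ) := by
            linear_combination b * hss
          rw [h1]
          exact F.mul_mem hb (natCast_mem_h54 F p)
      · have h1 : (c : ℝ) = a * a + b * b * (p : ℝ) + 2 * a * b * Real.sqrt (p : ℕ) := by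
          rw [← hcc, hab]
          linear_combination b * b * hss
        have h2 : Real.sqrt (p : ℕ) = ((c : ℝ) - a * a - b * b * (p : ℝ)) * (2 * a * b)⁻¹ := by
          have h3 : (2 * a * b) ≠ 0 := mul_ne_zero (mul_ne_zero two_ne_zero ha0) hb0
          field_simp
          linear_combination -h1
        refine hpF (h2 ▸ ?_)
        exact F.mul_mem (F.sub_mem (F.sub_mem (natCast_mem_h54 F c) (F.mul_mem ha ha))
          (F.mul_mem (F.mul_mem hb hb) (natCast_mem_h54 F p)))
          (F.inv_mem (F.mul_mem (F.mul_mem (natCast_mem_h54 F 2) ha) hb))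

private theorem ratCast_mem_h54 (F : Subfield ℝ) (q : ℚ) : (q : ℝ) ∈ F := SubfieldClass.ratCast_mem F q

private theorem indep_h54 (S : Finset ℕ) (hS : ∀ p ∈ S, p.Prime) (q : Finset ℕ → ℚ)
    (h : ∑ T ∈ S.powerset, (q T : ℝ) * ∏ p ∈ T, Real.sqrt (p : ℕ) = 0) :
    ∀ T ∈ S.powerset, q T = 0 := by
  classical
  induction S using Finset.induction_on generalizing q with
  | empty =>
    intro T hT
    rw [Finset.powerset_empty, Finset.mem_singleton] at hT
    subst hT
    simpa using h
  | insert p S hpS ih =>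
    have hS' : ∀ q ∈ S, q.Prime := fun q hq => hS q (Finset.mem_insert_of_mem hq)
    have hp : p.Prime := hS p (Finset.mem_insert_self p S)
    obtain ⟨F, hF1, hF2⟩ := exists_field_h54 S hS'
    have hpF : Real.sqrt (p : ℕ) ∉ F := by
      refine hF2 p hp.prime.squarefree hp.one_lt fun q hq hqp => ?_
      have h1 := (Nat.prime_dvd_prime_iff_eq (hS' q hq) hp).1 hqp
      exact hpS (h1 ▸ hq)
    have hmem : ∀ q' : Finset ℕ → ℚ,
        ∑ T ∈ S.powerset, (q' T : ℝ) * ∏ p ∈ T, Real.sqrt (p : ℕ) ∈ F := by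
      intro q'
      refine F.sum_mem fun T hT => F.mul_mem (ratCast_mem_h54 F _) (F.prod_mem fun r hr => ?_)
      exact hF1 r ((Finset.mem_powerset.1 hT) hr)
    rw [Finset.sum_powerset_insert hpS] at h
    have h1 : ∑ T ∈ S.powerset, (q (insert p T) : ℝ) * ∏ r ∈ insert p T, Real.sqrt (r : ℕ) =
        Real.sqrt (p : ℕ) *
          ∑ T ∈ S.powerset, (q (insert p T) : ℝ) * ∏ r ∈ T, Real.sqrt (r : ℕ) := by
      rw [Finset.mul_sum]
      refine Finset.sum_congr rfl fun T hT => ?_
      rw [Finset.prod_insert fun hpT => hpS ((Finset.mem_powerset.1 hT) hpT)]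
      ring
    rw [h1] at h
    have hA := hmem q
    have hB := hmem fun T => q (insert p T)
    have hB0 : ∑ T ∈ S.powerset, (q (insert p T) : ℝ) * ∏ r ∈ T, Real.sqrt (r : ℕ) = 0 := by
      by_contra hne
      have h2 : Real.sqrt (p : ℕ) =
          -(∑ T ∈ S.powerset, (q T : ℝ) * ∏ p ∈ T, Real.sqrt (p : ℕ)) *
          (∑ T ∈ S.powerset, (q (insert p T) : ℝ) * ∏ r ∈ T, Real.sqrt (r : ℕ))⁻¹ := by
        rw [eq_mul_inv_iff_mul_eq₀ hne]
        linear_combination h
      exact hpF (h2 ▸ F.mul_mem (F.neg_mem hA) (F.inv_mem hB))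
    rw [hB0, mul_zero, add_zero] at h
    have ihA := ih hS' q h
    have ihB := ih hS' (fun T => q (insert p T)) hB0
    intro T hT
    rw [Finset.powerset_insert, Finset.mem_union] at hT
    rcases hT with hT | hT
    · exact ihA T hT
    · obtain ⟨T', hT', rfl⟩ := Finset.mem_image.1 hT
      exact ihB T' hT'

theorem sqrt_linearIndependent {κ : Type*} (c : κ → ℕ) (hc : Function.Injective c)
    (hs : ∀ i, Squarefree (c i)) :
    LinearIndependent ℚ (fun i => Real.sqrt (c i)) := by
  classical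
  rw [linearIndependent_iff']
  intro s g hg i0 hi0
  have hr : ∀ i, Real.sqrt (c i) = ∏ p ∈ (c i).primeFactors, Real.sqrt (p : ℕ) := by
    intro i
    have h1 : ∀ T : Finset ℕ, Real.sqrt ((∏ p ∈ T, p : ℕ) : ℝ) = ∏ p ∈ T, Real.sqrt (p : ℕ) := by
      intro T
      induction T using Finset.induction_on with
      | empty => simp
      | insert a T ha ih =>
        rw [Finset.prod_insert ha, Finset.prod_insert ha, Nat.cast_mul,
          Real.sqrt_mul (Nat.cast_nonneg a), ih]
    rw [← h1, Nat.prod_primeFactors_of_squarefree (hs i)]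
  set S : Finset ℕ := s.biUnion fun i => (c i).primeFactors with hS
  have hSp : ∀ p ∈ S, p.Prime := by
    intro p hp
    obtain ⟨i, _, hi⟩ := Finset.mem_biUnion.1 hp
    exact Nat.prime_of_mem_primeFactors hi
  have hmaps : ∀ i ∈ s, (c i).primeFactors ∈ S.powerset := fun i hi =>
    Finset.mem_powerset.2 fun p hp => Finset.mem_biUnion.2 ⟨i, hi, hp⟩
  have key := indep_h54 S hSp
    (fun T => ∑ i ∈ s.filter (fun i => (c i).primeFactors = T), g i) (by
      rw [← hg, ← Finset.sum_fiberwise_of_maps_to hmaps]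
      refine Finset.sum_congr rfl fun T _ => ?_
      rw [Rat.cast_sum, Finset.sum_mul]
      refine Finset.sum_congr rfl fun i hi => ?_
      rw [Finset.mem_filter] at hi
      rw [hr i, hi.2, Rat.smul_def]) (c i0).primeFactors (hmaps i0 hi0)
  have h2 : s.filter (fun i => (c i).primeFactors = (c i0).primeFactors) = {i0} := by
    ext i
    rw [Finset.mem_filter, Finset.mem_singleton]
    constructor
    · rintro ⟨_, h⟩
      refine hc ?_
      rw [← Nat.prod_primeFactors_of_squarefree (hs i),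
        ← Nat.prod_primeFactors_of_squarefree (hs i0), h]
    · rintro rfl
      exact ⟨hi0, rfl⟩
  simp only [h2, Finset.sum_singleton] at key
  exact key

end Pool.Agent.Helper18.RC
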